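import Pool.Agent.Lib.MP_d8ef8f_an.Defs

namespace Pool.Agent.Lib.MP_d8ef8f_an

open Set Filter Topology MeasureTheory

/-- Green operator of `K w - d w''` with Neumann conditions on `[0,1]`, explicit formula with
`k = √(K/d)`: `w x = (C cosh(k x) - ∫₀ˣ sinh(k (x-y)) F y dy) / (d k)`,
`C = ∫₀¹ cosh(k (1-y)) F y dy / sinh k` -/
noncomputable def green (d K : ℝ) (F : ℝ → ℝ) (x : ℝ) : ℝ :=
  ((∫ y in (0:ℝ)..1, Real.cosh (Real.sqrt (K / d) * (1 - y)) * F y) / Real.sinh (Real.sqrt (K / d))
      * Real.cosh (Real.sqrt (K / d) * x)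
    - ∫ y in (0:ℝ)..x, Real.sinh (Real.sqrt (K / d) * (x - y)) * F y) / (d * Real.sqrt (K / d))

theorem E1_prod {k : ℝ} {F : ℝ → ℝ} (hFi : IntegrableOn F (Icc (0:ℝ) 1)) {x : ℝ}
    (hx : x ∈ Icc (0:ℝ) 1) :
    ∫ y in (0:ℝ)..x, Real.sinh (k * (x - y)) * F y =
      Real.sinh (k * x) * (∫ y in (0:ℝ)..x, Real.cosh (k * y) * F y) -
        Real.cosh (k * x) * (∫ y in (0:ℝ)..x, Real.sinh (k * y) * F y) := by
  have hF : IntervalIntegrable F volume 0 x := by
    rw [intervalIntegrable_iff_integrableOn_Icc_of_le hx.1]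
    exact hFi.mono_set (Icc_subset_Icc le_rfl hx.2)
  have h1 : IntervalIntegrable (fun y => Real.cosh (k * y) * F y) volume 0 x :=
    hF.continuousOn_mul (Real.continuous_cosh.comp (continuous_const.mul continuous_id)).continuousOn
  have h2 : IntervalIntegrable (fun y => Real.sinh (k * y) * F y) volume 0 x :=
    hF.continuousOn_mul (Real.continuous_sinh.comp (continuous_const.mul continuous_id)).continuousOn
  rw [← intervalIntegral.integral_const_mul, ← intervalIntegral.integral_const_mul,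
    ← intervalIntegral.integral_sub (h1.const_mul _) (h2.const_mul _)]
  refine intervalIntegral.integral_congr fun y _ => ?_
  rw [mul_sub, Real.sinh_sub]
  ring

theorem E1_int {F : ℝ → ℝ} (C : ℝ)
    (hFm : AEStronglyMeasurable F (volume.restrict (Icc (0:ℝ) 1)))
    (hFb : ∀ x ∈ Icc (0:ℝ) 1, |F x| ≤ C) : IntegrableOn F (Icc (0:ℝ) 1) := by
  refine Integrable.of_bound hFm C ?_
  filter_upwards [ae_restrict_mem measurableSet_Icc] with x hx
  exact hFb x hx

/-- the derivative of `green` -/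
noncomputable def E1_w' (d k Cc : ℝ) (A B : ℝ → ℝ) (x : ℝ) : ℝ :=
  (Cc * (k * Real.sinh (k * x)) - k * (Real.cosh (k * x) * A x - Real.sinh (k * x) * B x)) / (d * k)

theorem green_spec {d K : ℝ} (hd : 0 < d) (hK : 0 < K) {F : ℝ → ℝ}
    (hF : ContinuousOn F (Icc (0:ℝ) 1)) :
    ∃ w' w'' : ℝ → ℝ,
      (∀ x ∈ Icc (0:ℝ) 1, HasDerivWithinAt (green d K F) (w' x) (Icc (0:ℝ) 1) x) ∧
      (∀ x ∈ Icc (0:ℝ) 1, HasDerivWithinAt w' (w'' x) (Icc (0:ℝ) 1) x) ∧
      w' 0 = 0 ∧ w' 1 = 0 ∧
      ∀ x ∈ Icc (0:ℝ) 1, K * green d K F x - d * w'' x = F x := by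
  set k : ℝ := Real.sqrt (K / d) with hk
  have hk0 : 0 < k := Real.sqrt_pos.2 (by positivity)
  have hk2 : d * k ^ 2 = K := by
    rw [hk, Real.sq_sqrt (by positivity)]
    field_simp
  have hsk : Real.sinh k ≠ 0 := (Real.sinh_pos_iff.2 hk0).ne'
  have hdk : d * k ≠ 0 := (mul_pos hd hk0).ne'
  have hFi : IntegrableOn F (Icc (0:ℝ) 1) := hF.integrableOn_compact isCompact_Icc
  -- the continuous extension
  set E : ℝ → ℝ := fun x => F (max 0 (min 1 x)) with hE
  have hEc : Continuous E := by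
    refine hF.comp_continuous (continuous_const.max (continuous_const.min continuous_id)) ?_
    intro x
    exact ⟨le_max_left _ _, max_le zero_le_one (min_le_left _ _)⟩
  have hEF : ∀ x ∈ Icc (0:ℝ) 1, E x = F x := by
    intro x hx
    simp only [hE]
    rw [min_eq_right hx.2, max_eq_right hx.1]
  set A : ℝ → ℝ := fun x => ∫ y in (0:ℝ)..x, Real.cosh (k * y) * E y with hA
  set B : ℝ → ℝ := fun x => ∫ y in (0:ℝ)..x, Real.sinh (k * y) * E y with hB
  have hAc : Continuous fun y => Real.cosh (k * y) * E y :=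
    (Real.continuous_cosh.comp (continuous_const.mul continuous_id)).mul hEc
  have hBc : Continuous fun y => Real.sinh (k * y) * E y :=
    (Real.continuous_sinh.comp (continuous_const.mul continuous_id)).mul hEc
  have hAd : ∀ x, HasDerivAt A (Real.cosh (k * x) * E x) x := fun x =>
    (hAc.integral_hasStrictDerivAt 0 x).hasDerivAt
  have hBd : ∀ x, HasDerivAt B (Real.sinh (k * x) * E x) x := fun x =>
    (hBc.integral_hasStrictDerivAt 0 x).hasDerivAt
  have hAF : ∀ x ∈ Icc (0:ℝ) 1, ∫ y in (0:ℝ)..x, Real.cosh (k * y) * F y = A x := by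
    intro x hx
    refine intervalIntegral.integral_congr fun y hy => ?_
    rw [uIcc_of_le hx.1] at hy
    rw [hEF y ⟨hy.1, hy.2.trans hx.2⟩]
  have hBF : ∀ x ∈ Icc (0:ℝ) 1, ∫ y in (0:ℝ)..x, Real.sinh (k * y) * F y = B x := by
    intro x hx
    refine intervalIntegral.integral_congr fun y hy => ?_
    rw [uIcc_of_le hx.1] at hy
    rw [hEF y ⟨hy.1, hy.2.trans hx.2⟩]
  set Cc : ℝ := (∫ y in (0:ℝ)..1, Real.cosh (k * (1 - y)) * F y) / Real.sinh k with hCc
  have hC1 : Cc * Real.sinh k = Real.cosh k * A 1 - Real.sinh k * B 1 := by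
    rw [hCc, div_mul_cancel₀ _ hsk, ← hAF 1 ⟨zero_le_one, le_rfl⟩, ← hBF 1 ⟨zero_le_one, le_rfl⟩]
    have hFI : IntervalIntegrable F volume 0 1 := by
      rw [intervalIntegrable_iff_integrableOn_Icc_of_le zero_le_one]
      exact hFi
    have h1 : IntervalIntegrable (fun y => Real.cosh (k * y) * F y) volume 0 1 :=
      hFI.continuousOn_mul
        (Real.continuous_cosh.comp (continuous_const.mul continuous_id)).continuousOn
    have h2 : IntervalIntegrable (fun y => Real.sinh (k * y) * F y) volume 0 1 :=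
      hFI.continuousOn_mul
        (Real.continuous_sinh.comp (continuous_const.mul continuous_id)).continuousOn
    rw [← intervalIntegral.integral_const_mul, ← intervalIntegral.integral_const_mul,
      ← intervalIntegral.integral_sub (h1.const_mul _) (h2.const_mul _)]
    refine intervalIntegral.integral_congr fun y _ => ?_
    rw [mul_sub, mul_one, Real.cosh_sub]
    ring
  -- the closed form
  set W : ℝ → ℝ := fun x => (Cc * Real.cosh (k * x) -
    (Real.sinh (k * x) * A x - Real.cosh (k * x) * B x)) / (d * k) with hW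
  have hgW : ∀ x ∈ Icc (0:ℝ) 1, green d K F x = W x := by
    intro x hx
    simp only [green, hW]
    rw [← hk, E1_prod hFi hx, hAF x hx, hBF x hx]
  have hsd : ∀ x, HasDerivAt (fun x => Real.sinh (k * x)) (k * Real.cosh (k * x)) x := fun x => by
    have h1 := ((hasDerivAt_id x).const_mul k).sinh
    simp only [id, mul_one] at h1
    rw [mul_comm k]
    exact h1
  have hcd : ∀ x, HasDerivAt (fun x => Real.cosh (k * x)) (k * Real.sinh (k * x)) x := fun x => by
    have h1 := ((hasDerivAt_id x).const_mul k).cosh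
    simp only [id, mul_one] at h1
    rw [mul_comm k]
    exact h1
  have hWd : ∀ x, HasDerivAt W (E1_w' d k Cc A B x) x := by
    intro x
    have h1 := (((hcd x).const_mul Cc).sub
      (((hsd x).mul (hAd x)).sub ((hcd x).mul (hBd x)))).div_const (d * k)
    refine h1.congr_deriv ?_
    unfold E1_w'
    congr 1
    ring
  have hWd' : ∀ x, HasDerivAt (E1_w' d k Cc A B) (k ^ 2 * W x - E x / d) x := by
    intro x
    have h1 := (((hsd x).const_mul k).const_mul Cc).sub
      ((((hcd x).mul (hAd x)).sub ((hsd x).mul (hBd x))).const_mul k)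
    have h2 := h1.div_const (d * k)
    refine h2.congr_deriv ?_
    have hcs : Real.cosh (k * x) ^ 2 = 1 + Real.sinh (k * x) ^ 2 := Real.cosh_sq' (k * x)
    simp only [hW]
    field_simp
    linear_combination (-(E x)) * hcs
  refine ⟨E1_w' d k Cc A B, fun x => k ^ 2 * W x - E x / d, fun x hx => ?_, fun x _ =>
    (hWd' x).hasDerivWithinAt, ?_, ?_, fun x hx => ?_⟩
  · exact (hWd x).hasDerivWithinAt.congr hgW (hgW x hx)
  · have h1 : A 0 = 0 := intervalIntegral.integral_same
    unfold E1_w'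
    rw [h1]
    simp
  · unfold E1_w'
    rw [mul_one]
    have h1 : Cc * (k * Real.sinh k) - k * (Real.cosh k * A 1 - Real.sinh k * B 1) = 0 := by
      linear_combination k * hC1
    rw [h1, zero_div]
  · rw [hgW x hx, ← hk2, ← hEF x hx]
    field_simp
    ring

/-- for merely bounded measurable `F` the function `green d K F` is continuous -/
theorem green_continuous {d K : ℝ} (hd : 0 < d) (hK : 0 < K) {F : ℝ → ℝ} (C : ℝ)
    (hFm : AEStronglyMeasurable F (volume.restrict (Icc (0:ℝ) 1)))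
    (hFb : ∀ x ∈ Icc (0:ℝ) 1, |F x| ≤ C) : ContinuousOn (green d K F) (Icc (0:ℝ) 1) := by
  set k : ℝ := Real.sqrt (K / d) with hk
  have hFi : IntegrableOn F (Icc (0:ℝ) 1) := E1_int C hFm hFb
  have hc : Continuous fun y => Real.cosh (k * y) :=
    Real.continuous_cosh.comp (continuous_const.mul continuous_id)
  have hs : Continuous fun y => Real.sinh (k * y) :=
    Real.continuous_sinh.comp (continuous_const.mul continuous_id)
  have hu : uIcc (0:ℝ) 1 = Icc 0 1 := uIcc_of_le zero_le_one
  have h1 : ContinuousOn (fun x => ∫ y in (0:ℝ)..x, Real.cosh (k * y) * F y) (Icc (0:ℝ) 1) := by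
    rw [← hu]
    refine intervalIntegral.continuousOn_primitive_interval ?_
    rw [hu]
    exact hFi.continuousOn_mul hc.continuousOn isCompact_Icc
  have h2 : ContinuousOn (fun x => ∫ y in (0:ℝ)..x, Real.sinh (k * y) * F y) (Icc (0:ℝ) 1) := by
    rw [← hu]
    refine intervalIntegral.continuousOn_primitive_interval ?_
    rw [hu]
    exact hFi.continuousOn_mul hs.continuousOn isCompact_Icc
  have h3 : ContinuousOn (fun x => ((∫ y in (0:ℝ)..1, Real.cosh (k * (1 - y)) * F y) / Real.sinh k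
      * Real.cosh (k * x) - (Real.sinh (k * x) * (∫ y in (0:ℝ)..x, Real.cosh (k * y) * F y) -
        Real.cosh (k * x) * (∫ y in (0:ℝ)..x, Real.sinh (k * y) * F y))) / (d * k))
      (Icc (0:ℝ) 1) :=
    ((continuousOn_const.mul hc.continuousOn).sub
      ((hs.continuousOn.mul h1).sub (hc.continuousOn.mul h2))).div_const _
  refine h3.congr fun x hx => ?_
  simp only [green]
  rw [← hk, E1_prod hFi hx]

/-- pointwise bounded convergence passes to `green` -/
theorem green_tendsto {d K : ℝ} (hd : 0 < d) (hK : 0 < K) {F : ℕ → ℝ → ℝ} {G : ℝ → ℝ} (C : ℝ)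
    (hF : ∀ n, ContinuousOn (F n) (Icc (0:ℝ) 1)) (hFb : ∀ n, ∀ x ∈ Icc (0:ℝ) 1, |F n x| ≤ C)
    (hlim : ∀ x ∈ Icc (0:ℝ) 1, Tendsto (fun n => F n x) atTop (𝓝 (G x))) :
    ∀ x ∈ Icc (0:ℝ) 1, Tendsto (fun n => green d K (F n) x) atTop (𝓝 (green d K G x)) := by
  intro x hx
  have hgen : ∀ (g : ℝ → ℝ), Continuous g → ∀ b ∈ Icc (0:ℝ) 1,
      Tendsto (fun n => ∫ y in (0:ℝ)..b, g y * F n y) atTop
        (𝓝 (∫ y in (0:ℝ)..b, g y * G y)) := by
    intro g hg b hb
    have hsub : uIoc (0:ℝ) b ⊆ Icc 0 1 := by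
      rw [uIoc_of_le hb.1]
      exact fun y hy => ⟨hy.1.le, hy.2.trans hb.2⟩
    refine intervalIntegral.tendsto_integral_filter_of_dominated_convergence
      (fun y => |g y| * C) (Eventually.of_forall fun n => ?_)
      (Eventually.of_forall fun n => Eventually.of_forall fun y hy => ?_)
      ((hg.abs.mul continuous_const).intervalIntegrable _ _)
      (Eventually.of_forall fun y hy => (hlim y (hsub hy)).const_mul _)
    · exact (hg.continuousOn.mul ((hF n).mono hsub)).aestronglyMeasurable measurableSet_uIoc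
    · rw [norm_mul, Real.norm_eq_abs, Real.norm_eq_abs]
      exact mul_le_mul_of_nonneg_left (hFb n y (hsub hy)) (abs_nonneg _)
  have h1 := hgen (fun y => Real.cosh (Real.sqrt (K / d) * (1 - y)))
    (Real.continuous_cosh.comp (continuous_const.mul (continuous_const.sub continuous_id)))
    1 ⟨zero_le_one, le_rfl⟩
  have h2 := hgen (fun y => Real.sinh (Real.sqrt (K / d) * (x - y)))
    (Real.continuous_sinh.comp (continuous_const.mul (continuous_const.sub continuous_id))) x hx
  exact (((h1.div_const _).mul_const _).sub h2).div_const _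

end Pool.Agent.Lib.MP_d8ef8f_an
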