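import Pool.Agent.Lib.MP_d8ef8f_an.A4

namespace Pool.Agent.Lib.MP_d8ef8f_an

open Set Filter Topology MeasureTheory

/-- comparison for the operator `K w - d w''` with Neumann conditions -/
theorem elliptic_comparison {d K : ℝ} (hd : 0 < d) (hK : 0 < K) {w w' w'' : ℝ → ℝ}
    (h1 : ∀ x ∈ Icc (0:ℝ) 1, HasDerivWithinAt w (w' x) (Icc (0:ℝ) 1) x)
    (h2 : ∀ x ∈ Icc (0:ℝ) 1, HasDerivWithinAt w' (w'' x) (Icc (0:ℝ) 1) x)
    (h0 : w' 0 = 0) (h10 : w' 1 = 0)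
    (hF : ∀ x ∈ Icc (0:ℝ) 1, 0 ≤ K * w x - d * w'' x) : ∀ x ∈ Icc (0:ℝ) 1, 0 ≤ w x := by
  have hcont : ContinuousOn w (Icc (0:ℝ) 1) := fun z hz => (h1 z hz).continuousWithinAt
  obtain ⟨x0, hx0, hmin⟩ := isCompact_Icc.exists_isMinOn
    (nonempty_Icc.2 (zero_le_one (α := ℝ))) hcont
  have hmin' : ∀ x ∈ Icc (0:ℝ) 1, w x0 ≤ w x := fun x hx => hmin hx
  have h6 : -w'' x0 ≤ 0 := by
    apply second_deriv_max (fun y => -w y) (fun y => -w' y) (fun y => -w'' y)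
      (fun y hy => (h1 y hy).neg) (fun y hy => (h2 y hy).neg)
      (by simp only [h0, neg_zero]) (by simp only [h10, neg_zero]) x0 hx0
    intro y hy
    have := hmin' y hy
    linarith
  have h7 := hF x0 hx0
  have h8 : 0 ≤ d * w'' x0 := mul_nonneg hd.le (by linarith)
  have h9 : 0 ≤ K * w x0 := by linarith
  have h10 : 0 ≤ w x0 := by
    by_contra hcon
    push Not at hcon
    have := mul_neg_of_pos_of_neg hK hcon
    linarith
  intro x hx
  exact h10.trans (hmin' x hx)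

end Pool.Agent.Lib.MP_d8ef8f_an
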