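import Pool.Agent.Lib.MP_d8ef8f_an.Defs
import Pool.Agent.Lib.MP_d8ef8f_an.T4

namespace Pool.Agent.Lib.MP_d8ef8f_an

open Set Filter Topology MeasureTheory

private theorem E3_prim {f : ℝ → ℝ} (hf : Continuous f) (x : ℝ) :
    HasDerivAt (fun u => ∫ y in (0:ℝ)..u, f y) (f x) x :=
  intervalIntegral.integral_hasDerivAt_right (hf.intervalIntegrable 0 x)
    hf.stronglyMeasurable.stronglyMeasurableAtFilter hf.continuousAt

private theorem E3_cont {f f' : ℝ → ℝ} (h : ∀ x, HasDerivAt f (f' x) x) : Continuous f :=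
  continuous_iff_continuousAt.2 fun x => (h x).continuousAt

private theorem E3_alg {d μ mb M ω F G Gm : ℝ} (hd : 0 < d) (hμ : 0 < μ) (hμd : 2 * μ * d ≤ 1)
    (hmb : 0 ≤ mb) (hG : |G| ≤ Gm) (hμG : 2 * (μ * Gm ^ 2) ≤ ω * d) :
    μ * ω / 2 ≤ d * ((mb - M + μ * (ω - F ^ 2)) / d) + d * ((F + μ * G) / d) ^ 2 + M := by
  have hG2 : G ^ 2 ≤ Gm ^ 2 := by
    rw [← sq_abs G]
    exact pow_le_pow_left₀ (abs_nonneg G) hG 2
  have e1 : d * ((mb - M + μ * (ω - F ^ 2)) / d) + d * ((F + μ * G) / d) ^ 2 + M =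
      mb + μ * ω - μ * F ^ 2 + (F + μ * G) ^ 2 / d := by
    field_simp
    ring
  rw [e1]
  have e2 : μ * ω / 2 + μ * F ^ 2 - mb - μ * ω ≤ (F + μ * G) ^ 2 / d := by
    rw [le_div_iff₀ hd]
    have h1 : (F + μ * G) ^ 2 = F ^ 2 / 2 - μ ^ 2 * G ^ 2 + (F / √2 + √2 * (μ * G)) ^ 2 := by
      have h2 : √2 * √2 = 2 := Real.mul_self_sqrt (by norm_num)
      have h3 : √2 ≠ 0 := by positivity
      field_simp
      ring_nf
      have h4 : √2 ^ 2 = 2 := Real.sq_sqrt (by norm_num)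
      have h5 : √2 ^ 4 = 4 := by
        rw [show (4 : ℕ) = 2 * 2 by norm_num, pow_mul, h4]; norm_num
      simp only [h4, h5]
      ring
    have h6 : 0 ≤ (F / √2 + √2 * (μ * G)) ^ 2 := sq_nonneg _
    have h7 : μ ^ 2 * G ^ 2 ≤ μ * (ω * d / 2) := by
      have : μ ^ 2 * G ^ 2 ≤ μ * (μ * Gm ^ 2) := by
        rw [pow_two μ, mul_assoc]
        exact mul_le_mul_of_nonneg_left (mul_le_mul_of_nonneg_left hG2 hμ.le) hμ.le
      refine this.trans (mul_le_mul_of_nonneg_left ?_ hμ.le)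
      linarith
    have h8 : μ * F ^ 2 * d ≤ F ^ 2 / 2 := by
      have : 0 ≤ F ^ 2 * (1 - 2 * μ * d) := mul_nonneg (sq_nonneg _) (by linarith)
      linarith
    have h9 : 0 ≤ mb * d := mul_nonneg hmb hd.le
    rw [h1]
    linarith
  linarith

/-- a strictly positive subsolution -/
theorem exists_subsolution {d : ℝ} {m : ℝ → ℝ} (hd : 0 < d) (hm : ContinuousOn m (Icc (0:ℝ) 1))
    (hnc : ∃ x ∈ Icc (0:ℝ) 1, ∃ y ∈ Icc (0:ℝ) 1, m x ≠ m y)
    (hint : 0 ≤ ∫ x in (0:ℝ)..1, m x) (η : ℝ) (hη : 0 < η) :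
    ∃ v v' v'' : ℝ → ℝ,
      (∀ x ∈ Icc (0:ℝ) 1, HasDerivWithinAt v (v' x) (Icc (0:ℝ) 1) x) ∧
      (∀ x ∈ Icc (0:ℝ) 1, HasDerivWithinAt v' (v'' x) (Icc (0:ℝ) 1) x) ∧
      v' 0 = 0 ∧ v' 1 = 0 ∧ (∀ x ∈ Icc (0:ℝ) 1, 0 < v x ∧ v x ≤ η) ∧
      ∀ x ∈ Icc (0:ℝ) 1, 0 ≤ d * v'' x + v x * (m x - v x) := by
  -- continuous extension
  obtain ⟨M, hM, hMm⟩ : ∃ M : ℝ → ℝ, Continuous M ∧ ∀ x ∈ Icc (0:ℝ) 1, M x = m x := by
    refine ⟨Set.IccExtend (zero_le_one' ℝ) ((Icc (0:ℝ) 1).domRestrict m), ?_, fun x hx => ?_⟩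
    · exact (continuousOn_iff_continuous_domRestrict.1 hm).Icc_extend'
    · rw [Set.IccExtend_of_mem _ _ hx]
      rfl
  obtain ⟨mb, hmb⟩ : ∃ mb, mb = ∫ x in (0:ℝ)..1, M x := ⟨_, rfl⟩
  have hmb0 : 0 ≤ mb := by
    have h1 : ∫ x in (0:ℝ)..1, M x = ∫ x in (0:ℝ)..1, m x := by
      refine intervalIntegral.integral_congr fun x hx => ?_
      rw [uIcc_of_le (zero_le_one' ℝ)] at hx
      exact hMm x hx
    rw [hmb, h1]
    exact hint
  obtain ⟨F, hF⟩ : ∃ F : ℝ → ℝ, F = fun x => x * mb - ∫ y in (0:ℝ)..x, M y := ⟨_, rfl⟩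
  have hFd : ∀ x, HasDerivAt F (mb - M x) x := by
    intro x
    rw [hF]
    have h1 := ((hasDerivAt_id x).mul_const mb).sub (E3_prim hM x)
    rw [one_mul] at h1
    exact h1
  have hFc : Continuous F := E3_cont hFd
  have hF0 : F 0 = 0 := by rw [hF]; simp
  have hF1 : F 1 = 0 := by rw [hF]; simp [hmb]
  obtain ⟨ω, hω⟩ : ∃ ω, ω = ∫ x in (0:ℝ)..1, F x ^ 2 := ⟨_, rfl⟩
  have hω0 : 0 < ω := by
    have h1 := cF_pos (m := M) hM.continuousOn (by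
      obtain ⟨x, hx, y, hy, hxy⟩ := hnc
      exact ⟨x, hx, y, hy, by rw [hMm x hx, hMm y hy]; exact hxy⟩)
    have h2 : cF M = ω := by
      rw [hω, hF, hmb]
      rfl
    rw [← h2]
    exact h1
  obtain ⟨G, hG⟩ : ∃ G : ℝ → ℝ, G = fun x => x * ω - ∫ y in (0:ℝ)..x, F y ^ 2 := ⟨_, rfl⟩
  have hGd : ∀ x, HasDerivAt G (ω - F x ^ 2) x := by
    intro x
    rw [hG]
    have h1 := ((hasDerivAt_id x).mul_const ω).sub (E3_prim (hFc.pow 2) x)
    rw [one_mul] at h1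
    exact h1
  have hGc : Continuous G := E3_cont hGd
  have hG0 : G 0 = 0 := by rw [hG]; simp
  have hG1 : G 1 = 0 := by rw [hG]; simp [hω]
  obtain ⟨Gm, hGm⟩ := isCompact_Icc.exists_bound_of_continuousOn
    (hGc.continuousOn (s := Icc (0:ℝ) 1))
  have hGm' : ∀ x ∈ Icc (0:ℝ) 1, |G x| ≤ Gm := fun x hx => by
    have := hGm x hx
    rwa [Real.norm_eq_abs] at this
  -- the parameter
  obtain ⟨μ, hμ0, hμ1, hμ2⟩ : ∃ μ : ℝ, 0 < μ ∧ 2 * μ * d ≤ 1 ∧ 2 * (μ * Gm ^ 2) ≤ ω * d := by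
    refine ⟨min (1 / (2 * d)) (ω * d / (2 * (Gm ^ 2 + 1))), lt_min (by positivity)
      (by positivity), ?_, ?_⟩
    · have h1 : min (1 / (2 * d)) (ω * d / (2 * (Gm ^ 2 + 1))) ≤ 1 / (2 * d) := min_le_left _ _
      rw [le_div_iff₀ (by positivity)] at h1
      linarith
    · have h1 : min (1 / (2 * d)) (ω * d / (2 * (Gm ^ 2 + 1))) ≤ ω * d / (2 * (Gm ^ 2 + 1)) :=
        min_le_right _ _
      rw [le_div_iff₀ (by positivity)] at h1
      have h2 : 0 < min (1 / (2 * d)) (ω * d / (2 * (Gm ^ 2 + 1))) := lt_min (by positivity)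
        (by positivity)
      nlinarith
  -- the function `w`
  obtain ⟨w, hw⟩ : ∃ w : ℝ → ℝ, w = fun x => (F x + μ * G x) / d := ⟨_, rfl⟩
  have hwd : ∀ x, HasDerivAt w ((mb - M x + μ * (ω - F x ^ 2)) / d) x := by
    intro x
    rw [hw]
    exact ((hFd x).add ((hGd x).const_mul μ)).div_const d
  have hwc : Continuous w := E3_cont hwd
  have hHd : ∀ x, HasDerivAt (fun u => ∫ y in (0:ℝ)..u, w y) (w x) x := E3_prim hwc
  obtain ⟨H, hH⟩ : ∃ H : ℝ → ℝ, H = fun u => ∫ y in (0:ℝ)..u, w y := ⟨_, rfl⟩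
  rw [← hH] at hHd
  have hHc : Continuous H := E3_cont hHd
  obtain ⟨Hm, hHm⟩ := isCompact_Icc.exists_bound_of_continuousOn
    (hHc.continuousOn (s := Icc (0:ℝ) 1))
  have hc0 : 0 < μ * ω / 2 := by positivity
  obtain ⟨ε, hε⟩ : ∃ ε, ε = min η (μ * ω / 2) * Real.exp (-Hm) := ⟨_, rfl⟩
  have hε0 : 0 < ε := by
    rw [hε]
    exact mul_pos (lt_min hη hc0) (Real.exp_pos _)
  have hEd : ∀ x, HasDerivAt (fun u => ε * Real.exp (H u)) (ε * Real.exp (H x) * w x) x := by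
    intro x
    have h1 := ((hHd x).exp).const_mul ε
    rw [← mul_assoc] at h1
    exact h1
  have hEle : ∀ x ∈ Icc (0:ℝ) 1, ε * Real.exp (H x) ≤ min η (μ * ω / 2) := by
    intro x hx
    have h1 := hHm x hx
    rw [Real.norm_eq_abs] at h1
    have h2 : H x ≤ Hm := (le_abs_self _).trans h1
    rw [hε, mul_assoc, ← Real.exp_add]
    have h3 : Real.exp (-Hm + H x) ≤ 1 := Real.exp_le_one_iff.2 (by linarith)
    calc min η (μ * ω / 2) * Real.exp (-Hm + H x) ≤ min η (μ * ω / 2) * 1 :=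
          mul_le_mul_of_nonneg_left h3 (lt_min hη hc0).le
      _ = _ := mul_one _
  refine ⟨fun x => ε * Real.exp (H x), fun x => ε * Real.exp (H x) * w x,
    fun x => ε * Real.exp (H x) * w x * w x +
      ε * Real.exp (H x) * ((mb - M x + μ * (ω - F x ^ 2)) / d),
    fun x _ => (hEd x).hasDerivWithinAt, fun x _ => ((hEd x).mul (hwd x)).hasDerivWithinAt,
    ?_, ?_, fun x hx => ⟨mul_pos hε0 (Real.exp_pos _), (hEle x hx).trans (min_le_left _ _)⟩,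
    fun x hx => ?_⟩
  · have : w 0 = 0 := by rw [hw]; simp [hF0, hG0]
    simp [this]
  · have : w 1 = 0 := by rw [hw]; simp [hF1, hG1]
    simp [this]
  · have h1 := E3_alg (M := M x) (F := F x) hd hμ0 hμ1 hmb0 (hGm' x hx) hμ2
    have h2 : ε * Real.exp (H x) ≤ μ * ω / 2 := (hEle x hx).trans (min_le_right _ _)
    have h3 : 0 < ε * Real.exp (H x) := mul_pos hε0 (Real.exp_pos _)
    have h4 : w x = (F x + μ * G x) / d := by rw [hw]
    rw [← hMm x hx]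
    simp only
    rw [← h4] at h1
    have h5 : d * (ε * Real.exp (H x) * w x * w x +
        ε * Real.exp (H x) * ((mb - M x + μ * (ω - F x ^ 2)) / d)) +
        ε * Real.exp (H x) * (M x - ε * Real.exp (H x)) =
        ε * Real.exp (H x) * (d * ((mb - M x + μ * (ω - F x ^ 2)) / d) + d * w x ^ 2 + M x -
          ε * Real.exp (H x)) := by ring
    rw [h5]
    exact mul_nonneg h3.le (by linarith)

end Pool.Agent.Lib.MP_d8ef8f_an
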