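import Pool.Agent.Lib.MP_d8ef8f_an.V.E1
import Pool.Agent.Lib.MP_d8ef8f_an.V.E2
import Pool.Agent.Lib.MP_d8ef8f_an.V.E3

namespace Pool.Agent.Lib.MP_d8ef8f_an

open Set Filter Topology MeasureTheory

/-- `w` is of class `C²` with Neumann conditions and `K w - d w'' = F` -/
private def E4Sol (d K : ℝ) (w F : ℝ → ℝ) : Prop :=
  ∃ w' w'' : ℝ → ℝ,
    (∀ x ∈ Icc (0:ℝ) 1, HasDerivWithinAt w (w' x) (Icc (0:ℝ) 1) x) ∧
    (∀ x ∈ Icc (0:ℝ) 1, HasDerivWithinAt w' (w'' x) (Icc (0:ℝ) 1) x) ∧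
    w' 0 = 0 ∧ w' 1 = 0 ∧
    ∀ x ∈ Icc (0:ℝ) 1, K * w x - d * w'' x = F x

private lemma E4_cmp {d K : ℝ} (hd : 0 < d) (hK : 0 < K) {w v F G : ℝ → ℝ}
    (hw : E4Sol d K w F) (hv : E4Sol d K v G) (h : ∀ x ∈ Icc (0:ℝ) 1, F x ≤ G x) :
    ∀ x ∈ Icc (0:ℝ) 1, w x ≤ v x := by
  obtain ⟨w', w'', a1, a2, a3, a4, a5⟩ := hw
  obtain ⟨v', v'', b1, b2, b3, b4, b5⟩ := hv
  have := elliptic_comparison hd hK (w := fun x => v x - w x) (w' := fun x => v' x - w' x)
    (w'' := fun x => v'' x - w'' x) (fun x hx => (b1 x hx).sub (a1 x hx))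
    (fun x hx => (b2 x hx).sub (a2 x hx)) (by simp [a3, b3]) (by simp [a4, b4])
    (by
      intro x hx
      have e1 := a5 x hx
      have e2 := b5 x hx
      have e3 := h x hx
      nlinarith)
  intro x hx
  have := this x hx
  linarith

private lemma E4_cont {d K : ℝ} {w F : ℝ → ℝ} (hw : E4Sol d K w F) :
    ContinuousOn w (Icc (0:ℝ) 1) := by
  obtain ⟨w', w'', a1, -⟩ := hw
  exact fun x hx => (a1 x hx).continuousWithinAt

private lemma E4_mono {M m s t : ℝ} (hm : |m| ≤ M) (_ht0 : 0 ≤ t) (hts : t ≤ s) (hs : s ≤ M) :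
    t * (m - t) + 3 * M * t ≤ s * (m - s) + 3 * M * s := by
  have h1 := (abs_le.1 hm).1
  have h2 : 0 ≤ (s - t) * (m - s - t + 3 * M) := mul_nonneg (by linarith) (by linarith)
  nlinarith

/-- existence of a positive steady state -/
theorem exists_steady {d : ℝ} {m : ℝ → ℝ} (hd : 0 < d) (hm : ContinuousOn m (Icc (0:ℝ) 1))
    (hnc : ∃ x ∈ Icc (0:ℝ) 1, ∃ y ∈ Icc (0:ℝ) 1, m x ≠ m y)
    (hint : 0 ≤ ∫ x in (0:ℝ)..1, m x) : ∃ θ, IsSteady d m θ := by
  obtain ⟨C, hC⟩ := isCompact_Icc.exists_bound_of_continuousOn hm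
  obtain ⟨M, hM⟩ : ∃ M, M = |C| + 1 := ⟨_, rfl⟩
  have hM1 : 1 ≤ M := by rw [hM]; linarith [abs_nonneg C]
  have hmM : ∀ x ∈ Icc (0:ℝ) 1, |m x| ≤ M := by
    intro x hx
    have h1 := hC x hx
    rw [Real.norm_eq_abs] at h1
    have h2 := le_abs_self C
    linarith
  obtain ⟨K, hK⟩ : ∃ K, K = 3 * M := ⟨_, rfl⟩
  have hK0 : 0 < K := by linarith
  obtain ⟨σ, σ', σ'', s1, s2, s3, s4, s5, s6⟩ := exists_subsolution hd hm hnc hint M (by linarith)
  -- the nonlinearity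
  let f : (ℝ → ℝ) → ℝ → ℝ := fun v x => v x * (m x - v x) + K * v x
  have hfmono : ∀ v w : ℝ → ℝ, ∀ x ∈ Icc (0:ℝ) 1, 0 ≤ v x → v x ≤ w x → w x ≤ M →
      f v x ≤ f w x := by
    intro v w x hx h0 h1 h2
    simp only [f, hK]
    exact E4_mono (hmM x hx) h0 h1 h2
  let T : (ℝ → ℝ) → ℝ → ℝ := fun v => green d K (f v)
  -- invariant
  let Inv : (ℝ → ℝ) → Prop := fun v => (∃ F, E4Sol d K v F ∧ ∀ x ∈ Icc (0:ℝ) 1, f v x ≤ F x) ∧
    ∀ x ∈ Icc (0:ℝ) 1, σ x ≤ v x ∧ v x ≤ M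
  have hσ : E4Sol d K σ (fun x => K * σ x - d * σ'' x) :=
    ⟨σ', σ'', s1, s2, s3, s4, fun x _ => rfl⟩
  have hfc : ∀ v, ContinuousOn v (Icc (0:ℝ) 1) → ContinuousOn (f v) (Icc (0:ℝ) 1) := by
    intro v hv
    exact (hv.mul (hm.sub hv)).add (continuousOn_const.mul hv)
  have hstep : ∀ v, Inv v → Inv (T v) ∧ ∀ x ∈ Icc (0:ℝ) 1, T v x ≤ v x := by
    rintro v ⟨⟨F, hF1, hF2⟩, hv⟩
    have hTv : E4Sol d K (T v) (f v) := green_spec hd hK0 (hfc v (E4_cont hF1))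
    have h1 : ∀ x ∈ Icc (0:ℝ) 1, T v x ≤ v x := E4_cmp hd hK0 hTv hF1 hF2
    have h2 : ∀ x ∈ Icc (0:ℝ) 1, σ x ≤ T v x := by
      apply E4_cmp hd hK0 hσ hTv
      intro x hx
      have g1 := hfmono σ v x hx (s5 x hx).1.le (hv x hx).1 (hv x hx).2
      have g2 := s6 x hx
      refine le_trans ?_ g1
      show K * σ x - d * σ'' x ≤ σ x * (m x - σ x) + K * σ x
      linarith
    refine ⟨⟨⟨f v, hTv, ?_⟩, fun x hx => ⟨h2 x hx, (h1 x hx).trans (hv x hx).2⟩⟩, h1⟩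
    intro x hx
    exact hfmono _ _ x hx ((s5 x hx).1.le.trans (h2 x hx)) (h1 x hx) (hv x hx).2
  let S : ℕ → ℝ → ℝ := fun n => T^[n] (fun _ => M)
  have hS : ∀ n, S (n + 1) = T (S n) := fun n => Function.iterate_succ_apply' _ _ _
  have hInv : ∀ n, Inv (S n) := by
    intro n
    induction n with
    | zero =>
      refine ⟨⟨fun x => K * M, ⟨fun _ => 0, fun _ => 0, ?_, ?_, rfl, rfl, ?_⟩, ?_⟩, ?_⟩
      · intro x _
        exact hasDerivWithinAt_const _ _ _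
      · intro x _
        exact hasDerivWithinAt_const _ _ _
      · intro x _
        show K * M - d * 0 = K * M
        ring
      · intro x hx
        show M * (m x - M) + K * M ≤ K * M
        have := (abs_le.1 (hmM x hx)).2
        nlinarith
      · intro x hx
        exact ⟨(s5 x hx).2, le_rfl⟩
    | succ n ih =>
      rw [hS]
      exact (hstep _ ih).1
  have hdec : ∀ n, ∀ x ∈ Icc (0:ℝ) 1, S (n + 1) x ≤ S n x := by
    intro n
    rw [hS]
    exact (hstep _ (hInv n)).2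
  -- the limit
  have hlim : ∀ x ∈ Icc (0:ℝ) 1, ∃ l, Tendsto (fun n => S n x) atTop (𝓝 l) := by
    intro x hx
    refine ⟨_, tendsto_atTop_ciInf (antitone_nat_of_succ_le fun n => hdec n x hx) ?_⟩
    refine ⟨σ x, ?_⟩
    rintro _ ⟨n, rfl⟩
    exact ((hInv n).2 x hx).1
  choose! v hv using hlim
  have hG : ∀ x ∈ Icc (0:ℝ) 1, Tendsto (fun n => f (S n) x) atTop (𝓝 (f v x)) := by
    intro x hx
    have h1 := hv x hx
    exact (h1.mul (tendsto_const_nhds.sub h1)).add (tendsto_const_nhds.mul h1)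
  have hSc : ∀ n, ContinuousOn (f (S n)) (Icc (0:ℝ) 1) := by
    intro n
    obtain ⟨⟨F, hF, -⟩, -⟩ := hInv n
    exact hfc _ (E4_cont hF)
  have hb : ∀ n, ∀ x ∈ Icc (0:ℝ) 1, |f (S n) x| ≤ M * (2 * M) + K * M := by
    intro n x hx
    have h1 := (hInv n).2 x hx
    have h2 := (s5 x hx).1
    have h3 : |S n x| ≤ M := by
      rw [abs_of_pos (by linarith)]
      exact h1.2
    have h4 : |m x - S n x| ≤ 2 * M := by
      refine (abs_sub _ _).trans ?_
      have := hmM x hx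
      linarith
    show |S n x * (m x - S n x) + K * S n x| ≤ _
    refine (abs_add_le _ _).trans ?_
    rw [abs_mul, abs_mul, abs_of_pos hK0]
    gcongr
  have hgt := green_tendsto hd hK0 _ hSc hb hG
  have hveq : ∀ x ∈ Icc (0:ℝ) 1, green d K (f v) x = v x := by
    intro x hx
    have h1 := hgt x hx
    have h2 := (tendsto_add_atTop_iff_nat 1).2 (hv x hx)
    refine tendsto_nhds_unique h1 (h2.congr fun n => ?_)
    rw [hS]
  have hfb : ∀ x ∈ Icc (0:ℝ) 1, |f v x| ≤ M * (2 * M) + K * M := by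
    intro x hx
    exact le_of_tendsto (hG x hx).abs (Eventually.of_forall fun n => hb n x hx)
  have hfm : AEStronglyMeasurable (f v) (volume.restrict (Icc (0:ℝ) 1)) := by
    refine aestronglyMeasurable_of_tendsto_ae atTop
      (fun n => (hSc n).aestronglyMeasurable measurableSet_Icc) ?_
    filter_upwards [ae_restrict_mem measurableSet_Icc] with x hx
    exact hG x hx
  have hvc : ContinuousOn v (Icc (0:ℝ) 1) :=
    (green_continuous hd hK0 _ hfm hfb).congr fun x hx => (hveq x hx).symm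
  obtain ⟨w', w'', a1, a2, a3, a4, a5⟩ := green_spec hd hK0 (hfc v hvc)
  refine ⟨green d K (f v), w', w'', ?_, a1, a2, a3, a4, ?_⟩
  · intro x hx
    rw [hveq x hx]
    refine lt_of_lt_of_le (s5 x hx).1 ?_
    exact ge_of_tendsto (hv x hx) (Eventually.of_forall fun n => ((hInv n).2 x hx).1)
  · intro x hx
    have h1 := a5 x hx
    rw [hveq x hx] at h1 ⊢
    have h2 : f v x = v x * (m x - v x) + K * v x := rfl
    linarith

end Pool.Agent.Lib.MP_d8ef8f_an
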