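import Pool.Agent.Lib.MP_d8ef8f_an.Defs
import Pool.Agent.Lib.MP_d8ef8f_an.A5

namespace Pool.Agent.Lib.MP_d8ef8f_an

open Set Filter Topology MeasureTheory

variable {ι : Type} [Fintype ι]

/-- forward solutions are bounded -/
theorem forward_bounded {d : ι → ℝ} {m : ℝ → ℝ} {a : ℝ} {u ut ux uxx : ι → ℝ → ℝ → ℝ} {B : ℝ}
    (hB0 : 0 < B) (hd : ∀ j, 0 < d j) (hm : ContinuousOn m (Icc (0:ℝ) 1))
    (hB : ∀ x ∈ Icc (0:ℝ) 1, |m x| ≤ B)
    (hs : IsSol d m (Ioi a) u ut ux uxx) (t0 : ℝ) (ht0 : a < t0) :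
    ∃ K : ℝ, 0 < K ∧ ∀ j, ∀ t ≥ t0, ∀ x ∈ Icc (0:ℝ) 1, u j t x ≤ K := by
  have hM : ∀ j, ∃ M : ℝ, ∀ x ∈ Icc (0:ℝ) 1, u j t0 x ≤ M := by
    intro j
    have hc : ContinuousOn (u j t0) (Icc (0:ℝ) 1) := fun x hx =>
      (hs.dx j t0 ht0 x hx).continuousWithinAt
    obtain ⟨M, hM⟩ := (isCompact_Icc.image_of_continuousOn hc).bddAbove
    exact ⟨M, fun x hx => hM (mem_image_of_mem _ hx)⟩
  choose M hM using hM
  have hsum : 0 ≤ ∑ j, |M j| := Finset.sum_nonneg fun j _ => abs_nonneg _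
  refine ⟨B + ∑ j, |M j|, by linarith, fun j t ht x hx => ?_⟩
  have hMj : |M j| ≤ ∑ j, |M j| :=
    Finset.single_le_sum (f := fun j => |M j|) (fun i _ => abs_nonneg _) (Finset.mem_univ j)
  have hinit : ∀ y ∈ Icc (0:ℝ) 1, u j t0 y ≤ B + ∑ j, |M j| := by
    intro y hy
    have h1 := hM j y hy
    have h2 := le_abs_self (M j)
    linarith
  set K : ℝ := B + ∑ j, |M j| with hK
  rcases eq_or_lt_of_le (show t0 ≤ t from ht) with h | h
  · rw [← h]
    exact hinit x hx
  · have hsub : ∀ s ∈ Icc t0 t, s ∈ Ioi a := fun s hs' => lt_of_lt_of_le ht0 hs'.1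
    have hsub' : ∀ s ∈ Ioc t0 t, s ∈ Ioi a := fun s hs' => hsub s ⟨hs'.1.le, hs'.2⟩
    have hcmp := comparison t0 t (d j) B h (hd j).le (fun s y => K - u j s y)
      (fun s y => -ut j s y) (fun s y => -ux j s y) (fun s y => -uxx j s y)
      (continuousOn_const.sub ((hs.c0 j).mono (prod_mono hsub (subset_refl _))))
      (fun s hs' y hy => by
        simpa using (hs.dt j s (hsub' s hs') y hy).const_sub K)
      (fun s hs' y hy => by
        simpa using (hs.dx j s (hsub' s hs') y hy).const_sub K)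
      (fun s hs' y hy => (hs.dxx j s (hsub' s hs') y hy).neg)
      (fun s hs' => by simp only [hs.bc0 j s (hsub' s hs'), neg_zero])
      (fun s hs' => by simp only [hs.bc1 j s (hsub' s hs'), neg_zero])
      (fun s hs' y hy hneg => by
        have hneg' : K < u j s y := by linarith
        have hU : u j s y ≤ ∑ k, u k s y :=
          Finset.single_le_sum (f := fun k => u k s y)
            (fun i _ => hs.nonneg i s (hsub' s hs') y hy) (Finset.mem_univ j)
        have hmB : m y ≤ B := (le_abs_self _).trans (hB y hy)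
        have hupos : 0 < u j s y := by linarith
        have hKB : B ≤ K := by linarith
        rw [hs.eq j s (hsub' s hs') y hy]
        have h1 : 0 ≤ u j s y * ((∑ k, u k s y) - m y) :=
          mul_nonneg hupos.le (by linarith)
        have h2 : B * (K - u j s y) ≤ 0 := mul_nonpos_of_nonneg_of_nonpos hB0.le (by linarith)
        nlinarith)
      (fun y hy => by
        have := hinit y hy
        linarith)
    have := hcmp t ⟨h.le, le_refl _⟩ x hx
    linarith

end Pool.Agent.Lib.MP_d8ef8f_an
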