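import Pool.Agent.Lib.MP_d8ef8f_an.Defs

namespace Pool.Agent.Lib.MP_d8ef8f_an

open Set Filter Topology MeasureTheory

theorem Q5_cauchy {ι : Type} (s : Finset ι) (v d : ι → ℝ) (hv : ∀ j ∈ s, 0 ≤ v j) :
    (∑ j ∈ s, d j * v j) ^ 2 ≤ (∑ j ∈ s, d j ^ 2 * v j) * ∑ j ∈ s, v j := by
  have h := Finset.sum_mul_sq_le_sq_mul_sq s (fun j => d j * √(v j)) (fun j => √(v j))
  have h1 : ∑ j ∈ s, d j * √(v j) * √(v j) = ∑ j ∈ s, d j * v j :=
    Finset.sum_congr rfl fun j hj => by rw [mul_assoc, Real.mul_self_sqrt (hv j hj)]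
  have h2 : ∑ j ∈ s, (d j * √(v j)) ^ 2 = ∑ j ∈ s, d j ^ 2 * v j :=
    Finset.sum_congr rfl fun j hj => by rw [mul_pow, Real.sq_sqrt (hv j hj)]
  have h3 : ∑ j ∈ s, √(v j) ^ 2 = ∑ j ∈ s, v j :=
    Finset.sum_congr rfl fun j hj => Real.sq_sqrt (hv j hj)
  simp only [h1, h2, h3] at h
  exact h

/-- the pointwise inequality: `a = v_k`, `V` = slower species, `v j`, `j ∈ s` = faster species -/
theorem pointwise_ineq {ι : Type} (s : Finset ι) (th a V : ℝ) (v ps g : ι → ℝ)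
    (hth : 0 < th) (ha : 0 ≤ a) (hV : 0 ≤ V) (hv : ∀ j ∈ s, 0 ≤ v j)
    (hclose : ∀ j ∈ s, |th - ps j| ≤ th / 4) (hgap : ∀ j ∈ s, 2 * (th - ps j) ^ 2 ≤ g j) :
    - (th * (a - th) * ((a + V + ∑ j ∈ s, v j) - th))
      - (∑ j ∈ s, g j * v j) - (∑ j ∈ s, ps j * v j * ((a + V + ∑ j ∈ s, v j) - th))
    ≤ - (1 / 4) * (th * ((a + V + ∑ j ∈ s, v j) - th) ^ 2) - (1 / 2) * (∑ j ∈ s, g j * v j)
      + th * V ^ 2 := by
  set Z : ℝ := ∑ j ∈ s, v j with hZ
  set G : ℝ := ∑ j ∈ s, g j * v j with hG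
  set y : ℝ := a + V + Z - th with hy
  have hZ0 : 0 ≤ Z := Finset.sum_nonneg hv
  have hG0 : 0 ≤ G := Finset.sum_nonneg fun j hj =>
    mul_nonneg (le_trans (by positivity) (hgap j hj)) (hv j hj)
  set E : ℝ := ∑ j ∈ s, (th - ps j) * v j with hE
  have h1 : ∑ j ∈ s, ps j * v j * y = (th * Z - E) * y := by
    rw [← Finset.sum_mul, hE, hZ, Finset.mul_sum, ← Finset.sum_sub_distrib]
    congr 1
    exact Finset.sum_congr rfl fun j _ => by ring
  have hE2 : E ^ 2 ≤ G / 2 * Z := by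
    refine le_trans (Q5_cauchy s v (fun j => th - ps j) hv) ?_
    refine mul_le_mul_of_nonneg_right ?_ hZ0
    rw [hG, Finset.sum_div]
    refine Finset.sum_le_sum fun j hj => ?_
    have := mul_le_mul_of_nonneg_right (hgap j hj) (hv j hj)
    linarith
  have hE1 : |E| ≤ th / 4 * Z := by
    refine le_trans (Finset.abs_sum_le_sum_abs _ _) ?_
    rw [hZ, Finset.mul_sum]
    refine Finset.sum_le_sum fun j hj => ?_
    rw [abs_mul, abs_of_nonneg (hv j hj)]
    exact mul_le_mul_of_nonneg_right (hclose j hj) (hv j hj)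
  have hkey : E * y ≤ th * y ^ 2 / 2 + G / 2 := by
    rcases le_or_gt y th with h | h
    · have hZ2 : Z ≤ 2 * th := by linarith
      have h2 : E ^ 2 ≤ G * th := by
        refine le_trans hE2 ?_
        have := mul_le_mul_of_nonneg_left hZ2 (by positivity : 0 ≤ G / 2)
        linarith
      have h3 : E * y * (2 * th) ≤ (th * y ^ 2 / 2 + G / 2) * (2 * th) := by
        nlinarith [sq_nonneg (E - th * y)]
      exact le_of_mul_le_mul_right h3 (by positivity)
    · have hZ2 : Z ≤ 2 * y := by linarith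
      have hy0 : 0 < y := hth.trans h
      have h2 : E ≤ th / 4 * (2 * y) := by
        refine le_trans (le_abs_self E) (le_trans hE1 ?_)
        exact mul_le_mul_of_nonneg_left hZ2 (by positivity)
      have h3 : E * y ≤ th / 4 * (2 * y) * y := mul_le_mul_of_nonneg_right h2 hy0.le
      nlinarith
  rw [h1]
  have h4 : a - th = y - V - Z := by rw [hy]; ring
  rw [h4]
  nlinarith [mul_nonneg hth.le (sq_nonneg (y / 2 - V))]

end Pool.Agent.Lib.MP_d8ef8f_an
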