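import Pool.Agent.Lib.MP_d8ef8f_an.V.Setup
import Pool.Agent.Lib.MP_d8ef8f_an.V.Q5
import Pool.Agent.Lib.MP_d8ef8f_an.A3
import Pool.Agent.Lib.MP_d8ef8f_an.T1
import Pool.Agent.Lib.MP_d8ef8f_an.L7

namespace Pool.Agent.Lib.MP_d8ef8f_an

open Set Filter Topology MeasureTheory

/-- general form of `sq_sum_le` -/
theorem sq_sum_le2 {ι : Type} (s : Finset ι) (v : ι → ℝ → ℝ) (ρ : ℝ) (hρ : 0 < ρ)
    (hv : ∀ j ∈ s, ContinuousOn (v j) (Icc (0:ℝ) 1))
    (hpos : ∀ j ∈ s, ∀ x ∈ Icc (0:ℝ) 1, 0 ≤ v j x)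
    (hR : ∀ j ∈ s, (∫ x in (0:ℝ)..1, v j x ^ 2) ≤ ρ * (∫ x in (0:ℝ)..1, v j x) ^ 2) :
    (∫ x in (0:ℝ)..1, (∑ j ∈ s, v j x) ^ 2) ≤ ρ * (∑ j ∈ s, ∫ x in (0:ℝ)..1, v j x) ^ 2 := by
  have hm : ∀ j ∈ s, 0 ≤ ∫ x in (0:ℝ)..1, v j x := fun j hj =>
    intervalIntegral.integral_nonneg zero_le_one (hpos j hj)
  have hpair : ∀ i ∈ s, ∀ j ∈ s, (∫ x in (0:ℝ)..1, v i x * v j x) ≤
      ρ * ((∫ x in (0:ℝ)..1, v i x) * ∫ x in (0:ℝ)..1, v j x) := by
    intro i hi j hj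
    have h1 := cauchy_schwarz (v i) (v j) (hv i hi) (hv j hj)
    have h2 := hR i hi
    have h3 := hR j hj
    have h4 := hm i hi
    have h5 := hm j hj
    have h6 : 0 ≤ ∫ x in (0:ℝ)..1, v j x ^ 2 :=
      intervalIntegral.integral_nonneg zero_le_one (fun x _ => sq_nonneg _)
    have h7 : (∫ x in (0:ℝ)..1, v i x * v j x) ^ 2 ≤
        (ρ * ((∫ x in (0:ℝ)..1, v i x) * ∫ x in (0:ℝ)..1, v j x)) ^ 2 := by
      calc (∫ x in (0:ℝ)..1, v i x * v j x) ^ 2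
          ≤ (∫ x in (0:ℝ)..1, v i x ^ 2) * (∫ x in (0:ℝ)..1, v j x ^ 2) := h1
        _ ≤ (ρ * (∫ x in (0:ℝ)..1, v i x) ^ 2) * (ρ * (∫ x in (0:ℝ)..1, v j x) ^ 2) :=
            mul_le_mul h2 h3 h6 (by positivity)
        _ = (ρ * ((∫ x in (0:ℝ)..1, v i x) * ∫ x in (0:ℝ)..1, v j x)) ^ 2 := by ring
    exact le_trans (le_abs_self _) (abs_le_of_sq_le_sq h7 (by positivity))
  have hint : ∀ i ∈ s, ∀ j ∈ s, IntervalIntegrable (fun x => v i x * v j x) volume 0 1 := by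
    intro i hi j hj
    exact L7_int ((hv i hi).mul (hv j hj))
  have e1 : (∫ x in (0:ℝ)..1, (∑ j ∈ s, v j x) ^ 2) =
      ∑ i ∈ s, ∑ j ∈ s, ∫ x in (0:ℝ)..1, v i x * v j x := by
    have e2 : ∀ x, (∑ j ∈ s, v j x) ^ 2 = ∑ i ∈ s, ∑ j ∈ s, v i x * v j x := by
      intro x
      rw [pow_two, Finset.sum_mul_sum]
    simp_rw [e2]
    have hint2 : ∀ i ∈ s, IntervalIntegrable (fun x => ∑ j ∈ s, v i x * v j x) volume 0 1 :=
      fun i hi => L7_int (continuousOn_finsetSum s (fun j hj => (hv i hi).mul (hv j hj)))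
    rw [intervalIntegral.integral_finsetSum hint2]
    apply Finset.sum_congr rfl
    intro i hi
    rw [intervalIntegral.integral_finsetSum (fun j hj => hint i hi j hj)]
  rw [e1]
  calc ∑ i ∈ s, ∑ j ∈ s, ∫ x in (0:ℝ)..1, v i x * v j x
      ≤ ∑ i ∈ s, ∑ j ∈ s, ρ * ((∫ x in (0:ℝ)..1, v i x) * ∫ x in (0:ℝ)..1, v j x) := by
        apply Finset.sum_le_sum
        intro i hi
        apply Finset.sum_le_sum
        intro j hj
        exact hpair i hi j hj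
    _ = ρ * (∑ j ∈ s, ∫ x in (0:ℝ)..1, v j x) ^ 2 := by
        rw [pow_two, Finset.sum_mul_sum, Finset.mul_sum]
        apply Finset.sum_congr rfl
        intro i _
        rw [Finset.mul_sum]

variable {ι : Type} [Fintype ι] [LinearOrder ι]

/-- the main inequality, version 2 (no smallness of `v`, no bound on the total mass) -/
theorem lamD2_le {d : ι → ℝ} {m : ℝ → ℝ} {θ θ' θ'' : ι → ℝ → ℝ} {ψ ψ' ψ'' : ι → ι → ℝ → ℝ} {B : ℝ}
    (H : Data2 d m θ θ' θ'' ψ ψ' ψ'' B) (k : ι) (ρ : ℝ) (hρ : 0 < ρ)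
    (v v' : ι → ℝ → ℝ) (hv : ∀ j, ContinuousOn (v j) (Icc (0:ℝ) 1))
    (hvpos : ∀ j, ∀ x ∈ Icc (0:ℝ) 1, 0 < v j x)
    (hR : ∀ j, (∫ x in (0:ℝ)..1, v j x ^ 2) ≤ ρ * (∫ x in (0:ℝ)..1, v j x) ^ 2) :
    LamD2 d m (θ k) (θ' k) (ψ k) (ψ'' k) k v v' ≤ - d k * gradDiss (θ k) (θ' k) (v k) (v' k)
      - (1 / 4) * (∫ x in (0:ℝ)..1, θ k x * ((∑ i, v i x) - θ k x) ^ 2)
      - (1 / 2) * (∑ j ∈ Finset.univ.filter (fun j => k < j),
          ∫ x in (0:ℝ)..1, -(d j * ψ'' k j x + (m x - θ k x) * ψ k j x) * v j x)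
      + B * ρ * (∑ j ∈ Finset.univ.filter (fun j => j < k), ∫ x in (0:ℝ)..1, v j x) ^ 2 := by
  classical
  have hθ : ContinuousOn (θ k) (Icc (0:ℝ) 1) := fun x hx => ((H.st k).d1 x hx).continuousWithinAt
  have hθB := theta_le (H.dpos k) (H.st k) H.hB
  set A := Finset.univ.filter (fun j => k < j) with hA
  set L := Finset.univ.filter (fun j => j < k) with hL
  have hψ : ∀ j ∈ A, ContinuousOn (ψ k j) (Icc (0:ℝ) 1) := fun j hj x hx =>
    ((H.wt k j (Finset.mem_filter.1 hj).2).d1 x hx).continuousWithinAt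
  have hψ2 : ∀ j ∈ A, ContinuousOn (ψ'' k j) (Icc (0:ℝ) 1) := fun j hj =>
    (H.wt k j (Finset.mem_filter.1 hj).2).cont
  have hg : ∀ j ∈ A, ContinuousOn (fun x => -(d j * ψ'' k j x + (m x - θ k x) * ψ k j x))
      (Icc (0:ℝ) 1) := fun j hj =>
    ((continuousOn_const.mul (hψ2 j hj)).add ((H.hm.sub hθ).mul (hψ j hj))).neg
  have hUc : ContinuousOn (fun x => (∑ i, v i x) - θ k x) (Icc (0:ℝ) 1) :=
    (continuousOn_finsetSum _ (fun i _ => hv i)).sub hθ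
  have hVc : ContinuousOn (fun x => ∑ j ∈ L, v j x) (Icc (0:ℝ) 1) :=
    continuousOn_finsetSum _ (fun i _ => hv i)
  have hc1 : ContinuousOn (fun x => θ k x * (v k x - θ k x) * ((∑ i, v i x) - θ k x))
      (Icc (0:ℝ) 1) := (hθ.mul ((hv k).sub hθ)).mul hUc
  have hc2 : ContinuousOn (fun x => ∑ j ∈ A,
      -(d j * ψ'' k j x + (m x - θ k x) * ψ k j x) * v j x) (Icc (0:ℝ) 1) :=
    continuousOn_finsetSum _ (fun j hj => (hg j hj).mul (hv j))
  have hc3 : ContinuousOn (fun x => ∑ j ∈ A, ψ k j x * v j x * ((∑ i, v i x) - θ k x))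
      (Icc (0:ℝ) 1) := continuousOn_finsetSum _ (fun j hj => ((hψ j hj).mul (hv j)).mul hUc)
  have i1 : IntervalIntegrable (fun x => -(θ k x * (v k x - θ k x) * ((∑ i, v i x) - θ k x)))
      volume 0 1 := L7_int hc1.neg
  have i2 : IntervalIntegrable (fun x => ∑ j ∈ A,
      -(d j * ψ'' k j x + (m x - θ k x) * ψ k j x) * v j x) volume 0 1 := L7_int hc2
  have i3 : IntervalIntegrable (fun x => ∑ j ∈ A, ψ k j x * v j x * ((∑ i, v i x) - θ k x))
      volume 0 1 := L7_int hc3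
  have i12 : IntervalIntegrable (fun x => -(θ k x * (v k x - θ k x) * ((∑ i, v i x) - θ k x)) -
      ∑ j ∈ A, -(d j * ψ'' k j x + (m x - θ k x) * ψ k j x) * v j x) volume 0 1 := i1.sub i2
  have i4 : ∀ j ∈ A, IntervalIntegrable (fun x =>
      -(d j * ψ'' k j x + (m x - θ k x) * ψ k j x) * v j x) volume 0 1 :=
    fun j hj => L7_int ((hg j hj).mul (hv j))
  have i5 : ∀ j ∈ A, IntervalIntegrable (fun x => ψ k j x * v j x * ((∑ i, v i x) - θ k x))
      volume 0 1 := fun j hj => L7_int (((hψ j hj).mul (hv j)).mul hUc)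
  -- the left side as one integral
  have hleft : LamD2 d m (θ k) (θ' k) (ψ k) (ψ'' k) k v v' =
      - d k * gradDiss (θ k) (θ' k) (v k) (v' k) +
      ∫ x in (0:ℝ)..1, (- (θ k x * (v k x - θ k x) * ((∑ i, v i x) - θ k x)) -
        (∑ j ∈ A, -(d j * ψ'' k j x + (m x - θ k x) * ψ k j x) * v j x) -
        ∑ j ∈ A, ψ k j x * v j x * ((∑ i, v i x) - θ k x)) := by
    rw [intervalIntegral.integral_sub i12 i3, intervalIntegral.integral_sub i1 i2,
      intervalIntegral.integral_neg, intervalIntegral.integral_finsetSum i4,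
      intervalIntegral.integral_finsetSum i5]
    unfold LamD2
    rw [← hA, Finset.sum_sub_distrib]
    have e1 : ∀ j ∈ A, (∫ x in (0:ℝ)..1, (d j * ψ'' k j x + (m x - θ k x) * ψ k j x) * v j x) =
        -∫ x in (0:ℝ)..1, -(d j * ψ'' k j x + (m x - θ k x) * ψ k j x) * v j x := by
      intro j _
      rw [← intervalIntegral.integral_neg]
      apply intervalIntegral.integral_congr
      intro x _
      simp only
      ring
    rw [Finset.sum_congr rfl e1, Finset.sum_neg_distrib]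
    ring
  -- pointwise bound
  have hpt : ∀ x ∈ Icc (0:ℝ) 1, (- (θ k x * (v k x - θ k x) * ((∑ i, v i x) - θ k x)) -
        (∑ j ∈ A, -(d j * ψ'' k j x + (m x - θ k x) * ψ k j x) * v j x) -
        ∑ j ∈ A, ψ k j x * v j x * ((∑ i, v i x) - θ k x)) ≤
      - (1 / 4) * (θ k x * ((∑ i, v i x) - θ k x) ^ 2) -
        (1 / 2) * (∑ j ∈ A, -(d j * ψ'' k j x + (m x - θ k x) * ψ k j x) * v j x) +
        B * (∑ j ∈ L, v j x) ^ 2 := by
    intro x hx
    have hsplit := L7_split k (fun i => v i x)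
    rw [← hA, ← hL] at hsplit
    have h1 := pointwise_ineq A (θ k x) (v k x) (∑ j ∈ L, v j x) (fun j => v j x)
      (fun j => ψ k j x) (fun j => -(d j * ψ'' k j x + (m x - θ k x) * ψ k j x))
      ((H.st k).pos x hx) (hvpos k x hx).le
      (Finset.sum_nonneg fun j _ => (hvpos j x hx).le) (fun j _ => (hvpos j x hx).le)
      (fun j hj => (H.wt k j (Finset.mem_filter.1 hj).2).close x hx)
      (fun j hj => (H.wt k j (Finset.mem_filter.1 hj).2).gap x hx)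
    have h2 : v k x + (∑ j ∈ L, v j x) + ∑ j ∈ A, v j x = ∑ i, v i x := by
      rw [hsplit]
      ring
    rw [h2] at h1
    have h3 : θ k x * (∑ j ∈ L, v j x) ^ 2 ≤ B * (∑ j ∈ L, v j x) ^ 2 :=
      mul_le_mul_of_nonneg_right (hθB x hx) (sq_nonneg _)
    linarith
  have hc4 : ContinuousOn (fun x => - (1 / 4) * (θ k x * ((∑ i, v i x) - θ k x) ^ 2))
      (Icc (0:ℝ) 1) := continuousOn_const.mul (hθ.mul (hUc.pow 2))
  have hc5 : ContinuousOn (fun x => (1 / 2) * (∑ j ∈ A,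
      -(d j * ψ'' k j x + (m x - θ k x) * ψ k j x) * v j x)) (Icc (0:ℝ) 1) :=
    continuousOn_const.mul hc2
  have hc6 : ContinuousOn (fun x => B * (∑ j ∈ L, v j x) ^ 2) (Icc (0:ℝ) 1) :=
    continuousOn_const.mul (hVc.pow 2)
  have i7 : IntervalIntegrable (fun x => - (1 / 4) * (θ k x * ((∑ i, v i x) - θ k x) ^ 2))
      volume 0 1 := L7_int hc4
  have i8 : IntervalIntegrable (fun x => (1 / 2) * (∑ j ∈ A,
      -(d j * ψ'' k j x + (m x - θ k x) * ψ k j x) * v j x)) volume 0 1 := L7_int hc5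
  have i9 : IntervalIntegrable (fun x => B * (∑ j ∈ L, v j x) ^ 2) volume 0 1 := L7_int hc6
  have i78 : IntervalIntegrable (fun x => - (1 / 4) * (θ k x * ((∑ i, v i x) - θ k x) ^ 2) -
      (1 / 2) * (∑ j ∈ A, -(d j * ψ'' k j x + (m x - θ k x) * ψ k j x) * v j x)) volume 0 1 :=
    i7.sub i8
  have hmono := intervalIntegral.integral_mono_on zero_le_one (i12.sub i3) (i78.add i9) hpt
  have hright : (∫ x in (0:ℝ)..1, (- (1 / 4) * (θ k x * ((∑ i, v i x) - θ k x) ^ 2) -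
        (1 / 2) * (∑ j ∈ A, -(d j * ψ'' k j x + (m x - θ k x) * ψ k j x) * v j x) +
        B * (∑ j ∈ L, v j x) ^ 2)) =
      - (1 / 4) * (∫ x in (0:ℝ)..1, θ k x * ((∑ i, v i x) - θ k x) ^ 2)
      - (1 / 2) * (∑ j ∈ A,
          ∫ x in (0:ℝ)..1, -(d j * ψ'' k j x + (m x - θ k x) * ψ k j x) * v j x)
      + B * ∫ x in (0:ℝ)..1, (∑ j ∈ L, v j x) ^ 2 := by
    rw [intervalIntegral.integral_add i78 i9, intervalIntegral.integral_sub i7 i8,
      intervalIntegral.integral_const_mul, intervalIntegral.integral_const_mul,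
      intervalIntegral.integral_const_mul, intervalIntegral.integral_finsetSum i4]
  have hV := sq_sum_le2 L v ρ hρ (fun j _ => hv j) (fun j _ x hx => (hvpos j x hx).le)
    (fun j _ => hR j)
  have hV' := mul_le_mul_of_nonneg_left hV H.hB0.le
  rw [hleft]
  rw [hright] at hmono
  linarith

end Pool.Agent.Lib.MP_d8ef8f_an
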