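import Pool.Agent.Lib.MP_d8ef8f_an.V.Setup
import Pool.Agent.Lib.MP_d8ef8f_an.T1

namespace Pool.Agent.Lib.MP_d8ef8f_an

open Set Filter Topology MeasureTheory

variable {ι : Type} [Fintype ι] [LinearOrder ι]

theorem Q7_int {f : ℝ → ℝ} (hf : ContinuousOn f (Icc (0:ℝ) 1)) :
    IntervalIntegrable f volume 0 1 := by
  apply ContinuousOn.intervalIntegrable
  rwa [uIcc_of_le zero_le_one]

theorem Q7_min {f : ℝ → ℝ} (hf : ContinuousOn f (Icc (0:ℝ) 1))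
    (hpos : ∀ x ∈ Icc (0:ℝ) 1, 0 < f x) : ∃ c > 0, ∀ x ∈ Icc (0:ℝ) 1, c ≤ f x := by
  obtain ⟨x0, hx0, hmin⟩ := isCompact_Icc.exists_isMinOn (nonempty_Icc.2 (zero_le_one' ℝ)) hf
  exact ⟨f x0, hpos x0 hx0, fun x hx => hmin hx⟩

theorem Q7_theta_cont {d : ι → ℝ} {m : ℝ → ℝ} {θ θ' θ'' : ι → ℝ → ℝ} {ψ ψ' ψ'' : ι → ι → ℝ → ℝ}
    {B : ℝ} (H : Data2 d m θ θ' θ'' ψ ψ' ψ'' B) (k : ι) : ContinuousOn (θ k) (Icc (0:ℝ) 1) :=
  fun z hz => ((H.st k).d1 z hz).continuousWithinAt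

theorem Q7_psi_cont {d : ι → ℝ} {m : ℝ → ℝ} {θ θ' θ'' : ι → ℝ → ℝ} {ψ ψ' ψ'' : ι → ι → ℝ → ℝ}
    {B : ℝ} (H : Data2 d m θ θ' θ'' ψ ψ' ψ'' B) (k j : ι) (hj : k < j) :
    ContinuousOn (ψ k j) (Icc (0:ℝ) 1) :=
  fun z hz => ((H.wt k j hj).d1 z hz).continuousWithinAt

/-- positive lower bound of the gaps -/
theorem gap_lower {d : ι → ℝ} {m : ℝ → ℝ} {θ θ' θ'' : ι → ℝ → ℝ} {ψ ψ' ψ'' : ι → ι → ℝ → ℝ} {B : ℝ}
    (H : Data2 d m θ θ' θ'' ψ ψ' ψ'' B) (k : ι) :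
    ∃ g0 > 0, ∀ j, k < j → ∀ x ∈ Icc (0:ℝ) 1, g0 ≤ -(d j * ψ'' k j x + (m x - θ k x) * ψ k j x) := by
  have h1 : ∀ j, ∃ c > 0, k < j → ∀ x ∈ Icc (0:ℝ) 1,
      c ≤ -(d j * ψ'' k j x + (m x - θ k x) * ψ k j x) := by
    intro j
    by_cases hj : k < j
    · have hc : ContinuousOn (fun x => -(d j * ψ'' k j x + (m x - θ k x) * ψ k j x))
          (Icc (0:ℝ) 1) :=
        ((continuousOn_const.mul (H.wt k j hj).cont).add
          ((H.hm.sub (Q7_theta_cont H k)).mul (Q7_psi_cont H k j hj))).neg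
      obtain ⟨c, hc0, hc1⟩ := Q7_min hc (H.wt k j hj).gpos
      exact ⟨c, hc0, fun _ => hc1⟩
    · exact ⟨1, one_pos, fun h => absurd h hj⟩
  choose c hc0 hc1 using h1
  refine ⟨Finset.univ.inf' ⟨k, Finset.mem_univ k⟩ c, ?_, ?_⟩
  · rw [gt_iff_lt, Finset.lt_inf'_iff]
    exact fun j _ => hc0 j
  · intro j hj x hx
    exact (Finset.inf'_le c (Finset.mem_univ j)).trans (hc1 j hj x hx)

theorem Q7_ent_cont {θ v : ℝ → ℝ} (hθ : ContinuousOn θ (Icc (0:ℝ) 1))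
    (hθpos : ∀ x ∈ Icc (0:ℝ) 1, 0 < θ x) (hv : ContinuousOn v (Icc (0:ℝ) 1))
    (hvpos : ∀ x ∈ Icc (0:ℝ) 1, 0 < v x) :
    ContinuousOn (fun x => θ x ^ 2 * (v x / θ x - 1 - Real.log (v x / θ x))) (Icc (0:ℝ) 1) := by
  have h1 : ContinuousOn (fun x => v x / θ x) (Icc (0:ℝ) 1) :=
    hv.div hθ (fun x hx => (hθpos x hx).ne')
  exact (hθ.pow 2).mul ((h1.sub continuousOn_const).sub
    (h1.log (fun x hx => (div_pos (hvpos x hx) (hθpos x hx)).ne')))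

/-- entropy integrand near `p = 1` -/
theorem Q7_G {p φ : ℝ} (hφ0 : 0 < φ) (hφ : φ ≤ 1 / 2) (hp : |p - 1| ≤ φ) :
    p - 1 - Real.log p ≤ 2 * φ ^ 2 := by
  have h1 := (abs_le.1 hp).1
  have hp0 : 1 / 2 ≤ p := by linarith
  have hpp : 0 < p := by linarith
  have h2 := Real.one_sub_inv_le_log_of_pos hpp
  have h3 : p - 1 - (1 - p⁻¹) = (p - 1) ^ 2 / p := by
    field_simp
  have h4 : (p - 1) ^ 2 / p ≤ 2 * φ ^ 2 := by
    rw [div_le_iff₀ hpp]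
    have h5 : (p - 1) ^ 2 ≤ φ ^ 2 := by
      rw [← sq_abs]
      exact pow_le_pow_left₀ (abs_nonneg _) hp 2
    have h6 : 0 ≤ φ ^ 2 := sq_nonneg _
    nlinarith
  linarith

theorem lam2_small {d : ι → ℝ} {m : ℝ → ℝ} {θ θ' θ'' : ι → ℝ → ℝ} {ψ ψ' ψ'' : ι → ι → ℝ → ℝ} {B : ℝ}
    (H : Data2 d m θ θ' θ'' ψ ψ' ψ'' B) (k : ι) :
    ∀ ε > 0, ∃ φ > 0, ∀ v : ι → ℝ → ℝ,
      (∀ j, ContinuousOn (v j) (Icc (0:ℝ) 1)) → (∀ j, ∀ x ∈ Icc (0:ℝ) 1, 0 < v j x) →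
      (∀ x ∈ Icc (0:ℝ) 1, |v k x / θ k x - 1| ≤ φ) →
      (∑ j ∈ Finset.univ.filter (fun j => k < j), ∫ x in (0:ℝ)..1, v j x) ≤ φ →
      Lam2 (θ k) (ψ k) k v < ε := by
  intro ε hε
  have hB0 := H.hB0
  have hθ := Q7_theta_cont H k
  have hθpos := (H.st k).pos
  have hθB := theta_le (H.dpos k) (H.st k) H.hB
  set M := 2 * B ^ 2 + 5 / 4 * B with hM
  have hM0 : 0 < M := by positivity
  refine ⟨min (1 / 2) (ε / (2 * M)), lt_min (by norm_num) (by positivity), ?_⟩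
  intro v hv hvpos hclose hsum
  set φ := min (1 / 2) (ε / (2 * M)) with hφ
  have hφ0 : 0 < φ := lt_min (by norm_num) (by positivity)
  have hφ1 : φ ≤ 1 / 2 := min_le_left _ _
  have hφ2 : M * φ ≤ ε / 2 := by
    have h1 : φ ≤ ε / (2 * M) := min_le_right _ _
    have h2 := mul_le_mul_of_nonneg_left h1 hM0.le
    refine h2.trans (le_of_eq ?_)
    field_simp
  have hent : ent (θ k) (v k) ≤ B ^ 2 * (2 * φ ^ 2) := by
    unfold ent
    have h1 : (∫ x in (0:ℝ)..1, θ k x ^ 2 * (v k x / θ k x - 1 - Real.log (v k x / θ k x))) ≤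
        ∫ _ in (0:ℝ)..1, B ^ 2 * (2 * φ ^ 2) := by
      apply intervalIntegral.integral_mono_on zero_le_one
        (Q7_int (Q7_ent_cont hθ hθpos (hv k) (hvpos k))) (Q7_int continuousOn_const)
      intro x hx
      have h2 := Q7_G hφ0 hφ1 (hclose x hx)
      have h3 : θ k x ^ 2 ≤ B ^ 2 := pow_le_pow_left₀ (hθpos x hx).le (hθB x hx) 2
      have h4 : 0 ≤ v k x / θ k x - 1 - Real.log (v k x / θ k x) := by
        have := Real.log_le_sub_one_of_pos (div_pos (hvpos k x hx) (hθpos x hx))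
        linarith
      exact mul_le_mul h3 h2 h4 (sq_nonneg _)
    simpa using h1
  have hrest : (∑ j ∈ Finset.univ.filter (fun j => k < j),
      ∫ x in (0:ℝ)..1, ψ k j x * v j x) ≤ 5 / 4 * B * φ := by
    have h1 : (∑ j ∈ Finset.univ.filter (fun j => k < j),
      ∫ x in (0:ℝ)..1, ψ k j x * v j x) ≤
      ∑ j ∈ Finset.univ.filter (fun j => k < j), 5 / 4 * B * ∫ x in (0:ℝ)..1, v j x := by
      apply Finset.sum_le_sum
      intro j hj
      have hj' := (Finset.mem_filter.mp hj).2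
      rw [← intervalIntegral.integral_const_mul]
      apply intervalIntegral.integral_mono_on zero_le_one
        (Q7_int ((Q7_psi_cont H k j hj').mul (hv j))) (Q7_int (continuousOn_const.mul (hv j)))
      intro x hx
      have h2 : ψ k j x ≤ 5 / 4 * B := by
        have h3 := (abs_le.1 ((H.wt k j hj').close x hx)).1
        have h4 := hθB x hx
        linarith
      exact mul_le_mul_of_nonneg_right h2 (hvpos j x hx).le
    rw [← Finset.mul_sum] at h1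
    refine h1.trans ?_
    exact mul_le_mul_of_nonneg_left hsum (by positivity)
  unfold Lam2
  have hsq : φ ^ 2 ≤ φ := by nlinarith
  have hB2 : 0 ≤ B ^ 2 := sq_nonneg _
  have h5 : B ^ 2 * (2 * φ ^ 2) ≤ 2 * B ^ 2 * φ := by nlinarith
  have h6 : M * φ = 2 * B ^ 2 * φ + 5 / 4 * B * φ := by rw [hM]; ring
  linarith

theorem lam2_lower {d : ι → ℝ} {m : ℝ → ℝ} {θ θ' θ'' : ι → ℝ → ℝ} {ψ ψ' ψ'' : ι → ι → ℝ → ℝ} {B : ℝ}
    (H : Data2 d m θ θ' θ'' ψ ψ' ψ'' B) (k : ι) :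
    ∃ c0 > 0, ∀ v : ι → ℝ → ℝ,
      (∀ j, ContinuousOn (v j) (Icc (0:ℝ) 1)) → (∀ j, ∀ x ∈ Icc (0:ℝ) 1, 0 < v j x) →
      0 ≤ ent (θ k) (v k) ∧
      c0 * (∑ j ∈ Finset.univ.filter (fun j => k < j), ∫ x in (0:ℝ)..1, v j x) + ent (θ k) (v k)
        ≤ Lam2 (θ k) (ψ k) k v := by
  have hθpos := (H.st k).pos
  obtain ⟨c, hc0, hc⟩ := Q7_min (Q7_theta_cont H k) hθpos
  refine ⟨3 / 4 * c, by positivity, ?_⟩
  intro v hv hvpos
  constructor
  · unfold ent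
    apply intervalIntegral.integral_nonneg zero_le_one
    intro x hx
    apply mul_nonneg (sq_nonneg _)
    have := Real.log_le_sub_one_of_pos (div_pos (hvpos k x hx) (hθpos x hx))
    linarith
  · unfold Lam2
    have h1 : 3 / 4 * c * (∑ j ∈ Finset.univ.filter (fun j => k < j), ∫ x in (0:ℝ)..1, v j x) ≤
        ∑ j ∈ Finset.univ.filter (fun j => k < j),
          ∫ x in (0:ℝ)..1, ψ k j x * v j x := by
      rw [Finset.mul_sum]
      apply Finset.sum_le_sum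
      intro j hj
      have hj' := (Finset.mem_filter.mp hj).2
      rw [← intervalIntegral.integral_const_mul]
      apply intervalIntegral.integral_mono_on zero_le_one
        (Q7_int (continuousOn_const.mul (hv j))) (Q7_int ((Q7_psi_cont H k j hj').mul (hv j)))
      intro x hx
      have h2 : 3 / 4 * c ≤ ψ k j x := by
        have h3 := (abs_le.1 ((H.wt k j hj').close x hx)).2
        have h4 := hc x hx
        linarith
      exact mul_le_mul_of_nonneg_right h2 (hvpos j x hx).le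
    linarith

end Pool.Agent.Lib.MP_d8ef8f_an
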