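import Pool.Agent.Lib.MP_d8ef8f_an.V.Setup
import Pool.Agent.Lib.MP_d8ef8f_an.V.Q6
import Pool.Agent.Lib.MP_d8ef8f_an.V.Q7
import Pool.Agent.Lib.MP_d8ef8f_an.C1
import Pool.Agent.Lib.MP_d8ef8f_an.S3

namespace Pool.Agent.Lib.MP_d8ef8f_an

open Set Filter Topology MeasureTheory

variable {ι : Type} [Fintype ι] [LinearOrder ι]

/-- the main inequality along a solution at a tame time -/
theorem lamD2_le_sol {d : ι → ℝ} {m : ℝ → ℝ} {θ θ' θ'' : ι → ℝ → ℝ} {ψ ψ' ψ'' : ι → ι → ℝ → ℝ} {B ρ : ℝ}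
    (H : Data2 d m θ θ' θ'' ψ ψ' ψ'' B) (hρ : 0 < ρ) {T : Set ℝ} {u ut ux uxx : ι → ℝ → ℝ → ℝ}
    (hs : IsSol d m T u ut ux uxx) (hpos : ∀ j, ∀ t ∈ T, ∀ x ∈ Icc (0:ℝ) 1, 0 < u j t x)
    (k : ι) (t : ℝ) (ht : t ∈ T) (htame : Tame2 u B ρ t) :
    LamD2 d m (θ k) (θ' k) (ψ k) (ψ'' k) k (fun j => u j t) (fun j => ux j t) ≤
      - d k * gradDiss (θ k) (θ' k) (u k t) (ux k t)
      - (1 / 4) * (∫ x in (0:ℝ)..1, θ k x * ((∑ i, u i t x) - θ k x) ^ 2)
      - (1 / 2) * (∑ j ∈ Finset.univ.filter (fun j => k < j),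
          ∫ x in (0:ℝ)..1, -(d j * ψ'' k j x + (m x - θ k x) * ψ k j x) * u j t x)
      + B * ρ * (∑ j ∈ Finset.univ.filter (fun j => j < k), mass u j t) ^ 2 := by
  have hvc : ∀ j, ContinuousOn (u j t) (Icc (0:ℝ) 1) := by
    intro j
    have h := hs.c0 j
    have h2 : ContinuousOn (fun x : ℝ => ((t, x) : ℝ × ℝ)) (Icc (0:ℝ) 1) := by fun_prop
    exact h.comp h2 (fun x hx => ⟨ht, hx⟩)
  refine lamD2_le H k ρ hρ (fun j => u j t) (fun j => ux j t) hvc (fun j x hx => hpos j t ht x hx) ?_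
  intro j
  have hm0 := (one_le_rat hs hpos j t ht).1
  have hr := htame.2 j
  unfold rat at hr
  rw [div_le_iff₀ (by positivity)] at hr
  exact hr

/-- condition (H) along a filter: if the slower species die out then `Lam2` decreases at a definite
rate as long as it is not small -/
theorem lam2_decay {d : ι → ℝ} {m : ℝ → ℝ} {θ θ' θ'' : ι → ℝ → ℝ} {ψ ψ' ψ'' : ι → ι → ℝ → ℝ} {B ρ : ℝ}
    (H : Data2 d m θ θ' θ'' ψ ψ' ψ'' B) (hρ : 0 < ρ) {T : Set ℝ} {u ut ux uxx : ι → ℝ → ℝ → ℝ}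
    (hs : IsSol d m T u ut ux uxx) (hpos : ∀ j, ∀ t ∈ T, ∀ x ∈ Icc (0:ℝ) 1, 0 < u j t x)
    (k : ι) (l : Filter ℝ) (hT : ∀ᶠ t in l, t ∈ T) (htame : ∀ᶠ t in l, Tame2 u B ρ t)
    (hsm : Tendsto (fun t => ∑ j ∈ Finset.univ.filter (fun j => j < k), mass u j t) l (𝓝 0)) :
    ∀ ε > 0, ∃ φ > 0, ∀ᶠ t in l, ε ≤ Lam2 (θ k) (ψ k) k (fun j => u j t) →
      LamD2 d m (θ k) (θ' k) (ψ k) (ψ'' k) k (fun j => u j t) (fun j => ux j t) ≤ -φ := by
  intro ε hε
  have hB0 := H.hB0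
  have hdpos := H.dpos
  have hdk : 0 < d k := hdpos k
  have hst := H.st k
  have hθc : ContinuousOn (θ k) (Icc (0:ℝ) 1) := fun x hx => (hst.d1 x hx).continuousWithinAt
  have hθ'c : ContinuousOn (θ' k) (Icc (0:ℝ) 1) := fun x hx => (hst.d2 x hx).continuousWithinAt
  obtain ⟨φ1, hφ1, hsmall⟩ := lam2_small H k ε hε
  obtain ⟨φ2, hφ2, hcoer⟩ := coercive (ι := ι) (θ := θ k) (θ' := θ' k) (dk := d k) hdk
    hst.d1 hθ'c hst.pos φ1 hφ1
  obtain ⟨g0, hg0, hgle⟩ := gap_lower H k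
  set φ0 := min φ1 φ2 / 2 with hφ0def
  have hφ0 : 0 < φ0 := by
    have : 0 < min φ1 φ2 := lt_min hφ1 hφ2
    positivity
  have hφ01 : φ0 ≤ φ1 := by
    have : min φ1 φ2 ≤ φ1 := min_le_left _ _
    have h' : 0 < min φ1 φ2 := lt_min hφ1 hφ2
    rw [hφ0def]; linarith
  have hφ02 : φ0 + φ0 ≤ φ2 := by
    have : min φ1 φ2 ≤ φ2 := min_le_right _ _
    rw [hφ0def]; linarith
  set φ := min (φ2 / 4) (1 / 2 * (g0 * φ0)) / 2 with hφdef
  have hgφ : 0 < g0 * φ0 := by positivity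
  have hφ : 0 < φ := by
    have : 0 < min (φ2 / 4) (1 / 2 * (g0 * φ0)) := lt_min (by positivity) (by positivity)
    positivity
  have hφa : 2 * φ ≤ φ2 / 4 := by
    have : min (φ2 / 4) (1 / 2 * (g0 * φ0)) ≤ φ2 / 4 := min_le_left _ _
    rw [hφdef]; linarith
  have hφb : 2 * φ ≤ 1 / 2 * (g0 * φ0) := by
    have : min (φ2 / 4) (1 / 2 * (g0 * φ0)) ≤ 1 / 2 * (g0 * φ0) := min_le_right _ _
    rw [hφdef]; linarith
  refine ⟨φ, hφ, ?_⟩
  have e1 : ∀ᶠ t in l, (∑ j ∈ Finset.univ.filter (fun j => j < k), mass u j t) < φ0 :=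
    hsm.eventually_lt_const hφ0
  have e2 : ∀ᶠ t in l,
      B * ρ * (∑ j ∈ Finset.univ.filter (fun j => j < k), mass u j t) ^ 2 < φ := by
    have : Tendsto (fun t => B * ρ *
        (∑ j ∈ Finset.univ.filter (fun j => j < k), mass u j t) ^ 2) l (𝓝 (B * ρ * 0 ^ 2)) :=
      (hsm.pow 2).const_mul _
    refine this.eventually_lt_const ?_
    simpa using hφ
  filter_upwards [hT, htame, e1, e2] with t ht htm h1 h2 hLam
  have hmain := lamD2_le_sol H hρ hs hpos k t ht htm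
  have hmass : ∀ j, 0 < mass u j t := fun j => (one_le_rat hs hpos j t ht).1
  have hvc : ∀ j, ContinuousOn (u j t) (Icc (0:ℝ) 1) := by
    intro j
    have h := hs.c0 j
    have h2 : ContinuousOn (fun x : ℝ => ((t, x) : ℝ × ℝ)) (Icc (0:ℝ) 1) := by fun_prop
    exact h.comp h2 (fun x hx => ⟨ht, hx⟩)
  have hxc : ContinuousOn (ux k t) (Icc (0:ℝ) 1) := by
    have h := hs.cx k
    have h2 : ContinuousOn (fun x : ℝ => ((t, x) : ℝ × ℝ)) (Icc (0:ℝ) 1) := by fun_prop
    exact h.comp h2 (fun x hx => ⟨ht, hx⟩)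
  have hmc := H.hm
  have hgapc : ∀ j, k < j → ContinuousOn
      (fun x => -(d j * ψ'' k j x + (m x - θ k x) * ψ k j x)) (Icc (0:ℝ) 1) := by
    intro j hj
    have w := H.wt k j hj
    have c1 : ContinuousOn (ψ k j) (Icc (0:ℝ) 1) := fun x hx => (w.d1 x hx).continuousWithinAt
    have c2 := w.cont
    exact ((continuousOn_const.mul c2).add ((hmc.sub hθc).mul c1)).neg
  have hint : ∀ f : ℝ → ℝ, ContinuousOn f (Icc (0:ℝ) 1) → IntervalIntegrable f volume 0 1 := by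
    intro f hf
    apply ContinuousOn.intervalIntegrable
    rwa [uIcc_of_le zero_le_one]
  set A := gradDiss (θ k) (θ' k) (u k t) (ux k t) with hA
  set E := ∫ x in (0:ℝ)..1, θ k x * ((∑ i, u i t x) - θ k x) ^ 2 with hE
  set F := ∑ j ∈ Finset.univ.filter (fun j => k < j),
    ∫ x in (0:ℝ)..1, -(d j * ψ'' k j x + (m x - θ k x) * ψ k j x) * u j t x with hF
  have hA0 : 0 ≤ A := by
    rw [hA]; unfold gradDiss
    exact intervalIntegral.integral_nonneg zero_le_one (fun x _ => by positivity)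
  have hE0 : 0 ≤ E := by
    rw [hE]
    exact intervalIntegral.integral_nonneg zero_le_one
      (fun x hx => mul_nonneg (hst.pos x hx).le (sq_nonneg _))
  have hF1 : g0 * (∑ j ∈ Finset.univ.filter (fun j => k < j), mass u j t) ≤ F := by
    rw [Finset.mul_sum]
    apply Finset.sum_le_sum
    intro j hj
    have hj' : k < j := (Finset.mem_filter.1 hj).2
    unfold mass
    rw [← intervalIntegral.integral_const_mul]
    apply intervalIntegral.integral_mono_on zero_le_one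
    · exact hint _ (continuousOn_const.mul (hvc j))
    · exact hint _ ((hgapc j hj').mul (hvc j))
    · intro x hx
      exact mul_le_mul_of_nonneg_right (hgle j hj' x hx) (hpos j t ht x hx).le
  have hF0 : 0 ≤ F := by
    refine le_trans ?_ hF1
    exact mul_nonneg hg0.le (Finset.sum_nonneg (fun j _ => (hmass j).le))
  have hdA0 : 0 ≤ d k * A := mul_nonneg hdk.le hA0
  -- the key alternative
  have hkey : φ2 < d k * A ∨ φ2 < E ∨ g0 * φ0 < F := by
    by_contra hcon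
    push Not at hcon
    obtain ⟨c1, c2, c3⟩ := hcon
    have hfast : (∑ j ∈ Finset.univ.filter (fun j => k < j), mass u j t) ≤ φ0 := by
      have : g0 * (∑ j ∈ Finset.univ.filter (fun j => k < j), mass u j t) ≤ g0 * φ0 :=
        hF1.trans c3
      exact le_of_mul_le_mul_left this hg0
    have hsplit : (∑ j ∈ Finset.univ.filter (fun j => j ≠ k), mass u j t) =
        (∑ j ∈ Finset.univ.filter (fun j => j < k), mass u j t) +
        (∑ j ∈ Finset.univ.filter (fun j => k < j), mass u j t) := by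
      rw [← Finset.sum_union]
      · congr 1
        ext j
        simp only [Finset.mem_filter, Finset.mem_univ, true_and, Finset.mem_union]
        exact ne_iff_lt_or_gt
      · rw [Finset.disjoint_filter]
        intro j _ h1 h2
        exact absurd (h1.trans h2) (lt_irrefl _)
    have hall : (∑ j ∈ Finset.univ.filter (fun j => j ≠ k), mass u j t) ≤ φ2 := by
      rw [hsplit]; linarith
    have hco := hcoer k (fun j => u j t) (fun j => ux j t) hvc
      (fun j x hx => hpos j t ht x hx) (hs.dx k t ht) hxc c1 c2 hall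
    have hlt := hsmall (fun j => u j t) hvc (fun j x hx => hpos j t ht x hx) hco
      (hfast.trans hφ01)
    exact absurd hLam (not_le.2 hlt)
  rcases hkey with hk | hk | hk
  · nlinarith [hmain]
  · nlinarith [hmain]
  · nlinarith [hmain]

end Pool.Agent.Lib.MP_d8ef8f_an
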