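import Pool.Agent.Lib.MP_d8ef8f_an.V.Q4
import Pool.Agent.Lib.MP_d8ef8f_an.V.Q8
import Pool.Agent.Lib.MP_d8ef8f_an.V.Q9
import Pool.Agent.Lib.MP_d8ef8f_an.V.Q10

namespace Pool.Agent.Lib.MP_d8ef8f_an

open Set Filter Topology MeasureTheory

variable {ι : Type} [Fintype ι] [LinearOrder ι]

private theorem Q11_slice {f : ℝ → ℝ → ℝ} {T : Set ℝ}
    (h : ContinuousOn (fun p : ℝ × ℝ => f p.1 p.2) (T ×ˢ Icc (0:ℝ) 1)) {t : ℝ} (ht : t ∈ T) :
    ContinuousOn (f t) (Icc (0:ℝ) 1) := by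
  have h1 : ContinuousOn (fun x : ℝ => ((t, x) : ℝ × ℝ)) (Icc (0:ℝ) 1) := by fun_prop
  exact h.comp h1 (fun x hx => ⟨ht, hx⟩)

/-- `Lam → 0` and extinction of the slower species give uniform convergence to `E_k` -/
theorem conv_of_lam2 {d : ι → ℝ} {m : ℝ → ℝ} {θ θ' θ'' : ι → ℝ → ℝ} {ψ ψ' ψ'' : ι → ι → ℝ → ℝ}
    {B ρ : ℝ} (H : Data2 d m θ θ' θ'' ψ ψ' ψ'' B) (hρ : 0 < ρ) {T : Set ℝ} (hTo : IsOpen T)
    {u ut ux uxx : ι → ℝ → ℝ → ℝ}
    (hs : IsSol d m T u ut ux uxx) (hpos : ∀ j, ∀ t ∈ T, ∀ x ∈ Icc (0:ℝ) 1, 0 < u j t x)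
    (l : Filter ℝ) (hl : l = atTop ∨ l = atBot) (hT : ∀ᶠ t in l, t ∈ T)
    (htame : ∀ᶠ t in l, Tame2 u B ρ t) (k : ι)
    (hsm : ∀ j, j < k → Tendsto (fun t => mass u j t) l (𝓝 0))
    (hlam : Tendsto (fun t => Lam2 (θ k) (ψ k) k (fun j => u j t)) l (𝓝 0)) :
    ConvTo l u (fun j x => if j = k then θ k x else 0) := by
  have hB0 := H.hB0
  have hdpos : ∀ j, 0 < d j := H.dpos
  have hst := H.st k
  have hθc : ContinuousOn (θ k) (Icc (0:ℝ) 1) := fun x hx => (hst.d1 x hx).continuousWithinAt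
  have hθ'c : ContinuousOn (θ' k) (Icc (0:ℝ) 1) := fun x hx => (hst.d2 x hx).continuousWithinAt
  have h0mem : (0:ℝ) ∈ Icc (0:ℝ) 1 := ⟨le_rfl, zero_le_one⟩
  have hθ0 : 0 < θ k 0 := hst.pos 0 h0mem
  have hθB := theta_le (hdpos k) hst H.hB
  have huc : ∀ i, ∀ s ∈ T, ContinuousOn (u i s) (Icc (0:ℝ) 1) := fun i s hs' => Q11_slice (hs.c0 i) hs'
  have hmpos : ∀ i, ∀ t ∈ T, 0 < mass u i t := fun i t ht => (one_le_rat hs hpos i t ht).1
  obtain ⟨c0, hc00, hlower⟩ := lam2_lower H k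
  have hlow : ∀ t ∈ T, c0 * (∑ j ∈ Finset.univ.filter (fun j => k < j), mass u j t) ≤
      Lam2 (θ k) (ψ k) k (fun j => u j t) := by
    intro t ht
    have h := hlower
      (fun j => u j t) (fun j => huc j t ht) (fun j x hx => hpos j t ht x hx)
    have h1 : c0 * (∑ j ∈ Finset.univ.filter (fun j => k < j), mass u j t) +
        ent (θ k) (u k t) ≤ Lam2 (θ k) (ψ k) k (fun j => u j t) := h.2
    linarith [h.1]
  have hmass0 : ∀ j, j ≠ k → Tendsto (fun t => mass u j t) l (𝓝 0) := by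
    intro j hjk
    rcases lt_or_gt_of_ne hjk with hlt | hgt
    · exact hsm j hlt
    · have hlim : Tendsto (fun t => Lam2 (θ k) (ψ k) k (fun j => u j t) * (1 / c0)) l (𝓝 0) := by
        have := hlam.mul_const (1 / c0)
        rwa [zero_mul] at this
      refine squeeze_zero' ?_ ?_ hlim
      · filter_upwards [hT] with t ht
        exact (hmpos j t ht).le
      · filter_upwards [hT] with t ht
        have h1 := hlow t ht
        have h2 : mass u j t ≤ ∑ i ∈ Finset.univ.filter (fun i => k < i), mass u i t :=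
          Finset.single_le_sum (f := fun i => mass u i t) (fun i _ => (hmpos i t ht).le)
            (Finset.mem_filter.2 ⟨Finset.mem_univ _, hgt⟩)
        rw [mul_one_div, le_div_iff₀ hc00]
        have h3 := mul_le_mul_of_nonneg_left h2 hc00.le
        linarith
  have hsmall : ∀ j, j ≠ k → ∀ ε > 0, ∀ᶠ t in l, ∀ x ∈ Icc (0:ℝ) 1, u j t x < ε :=
    fun j hjk => species_small2 H hρ hTo hs hpos l hl hT htame j (hmass0 j hjk)
  intro ε hε
  obtain ⟨e, he0, he1, heB⟩ : ∃ e : ℝ, 0 < e ∧ e ≤ 1 ∧ 2 * e * B ≤ ε / 2 := by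
    refine ⟨min 1 (ε / (4 * B)), lt_min one_pos (by positivity), min_le_left _ _, ?_⟩
    have h1 : min 1 (ε / (4 * B)) ≤ ε / (4 * B) := min_le_right _ _
    have h2 : min 1 (ε / (4 * B)) * B ≤ ε / (4 * B) * B := mul_le_mul_of_nonneg_right h1 hB0.le
    have h3 : ε / (4 * B) * B = ε / 4 := by field_simp
    linarith
  obtain ⟨φ, hφ, hco⟩ := coercive (ι := ι) (hdpos k) hst.d1 hθ'c hst.pos e he0
  have hc0 : (0:ℝ) < (Fintype.card ι : ℝ) + 1 := by positivity
  set b : ℝ := min (e / ((Fintype.card ι : ℝ) + 1)) ε with hb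
  have hb0 : 0 < b := lt_min (by positivity) hε
  have E1 : ∀ᶠ t in l, |Lam2 (θ k) (ψ k) k (fun j => u j t)| < φ / 16 := by
    have := hlam.abs
    rw [abs_zero] at this
    exact this.eventually (gt_mem_nhds (by positivity))
  have E2 : ∀ᶠ t in l,
      B * ρ * (∑ j ∈ Finset.univ.filter (fun j => j < k), mass u j t) ^ 2 < φ / 16 := by
    have h1 : Tendsto (fun t => ∑ j ∈ Finset.univ.filter (fun j => j < k), mass u j t) l
        (𝓝 (∑ j ∈ Finset.univ.filter (fun j => j < k), (0:ℝ))) :=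
      tendsto_finsetSum _ fun j hj => hsm j (Finset.mem_filter.1 hj).2
    rw [Finset.sum_const_zero] at h1
    have h2 := (h1.pow 2).const_mul (B * ρ)
    rw [zero_pow two_ne_zero, mul_zero] at h2
    exact h2.eventually (gt_mem_nhds (by positivity))
  have E3 : ∀ᶠ t in l, (∑ j ∈ Finset.univ.filter (fun j => j ≠ k), mass u j t) < φ := by
    have h1 : Tendsto (fun t => ∑ j ∈ Finset.univ.filter (fun j => j ≠ k), mass u j t) l
        (𝓝 (∑ j ∈ Finset.univ.filter (fun j => j ≠ k), (0:ℝ))) :=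
      tendsto_finsetSum _ fun j hj => hmass0 j (Finset.mem_filter.1 hj).2
    rw [Finset.sum_const_zero] at h1
    exact h1.eventually (gt_mem_nhds hφ)
  have E4 : ∀ᶠ t in l, ∀ j, j ≠ k → ∀ x ∈ Icc (0:ℝ) 1, u j t x < b := by
    rw [eventually_all]
    intro j
    by_cases hjk : j = k
    · exact Filter.Eventually.of_forall fun t h => absurd hjk h
    · filter_upwards [hsmall j hjk b hb0] with t ht _
      exact ht
  filter_upwards [Q9_window hl hT, Q9_window hl htame, Q9_window hl E1, Q9_window hl E2,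
    Q9_window hl E3, Q9_window hl E4] with t w1 w2 w3 w4 w5 w6
  have htI : t ∈ Icc (t - 1) t := ⟨by linarith, le_rfl⟩
  -- mean value theorem for `Lam`
  have hder : ∀ s ∈ T, HasDerivAt (fun s => Lam2 (θ k) (ψ k) k (fun j => u j s))
      (LamD2 d m (θ k) (θ' k) (ψ k) (ψ'' k) k (fun j => u j s) (fun j => ux j s)) s :=
    lam2_deriv H hTo hs hpos k
  obtain ⟨τ, hτ, hτe⟩ := exists_hasDerivAt_eq_slope
    (fun s => Lam2 (θ k) (ψ k) k (fun j => u j s))
    (fun s => LamD2 d m (θ k) (θ' k) (ψ k) (ψ'' k) k (fun j => u j s) (fun j => ux j s))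
    (show t - 1 < t by linarith)
    (fun s hs' => (hder s (w1 s hs')).continuousAt.continuousWithinAt)
    (fun s hs' => hder s (w1 s (Ioo_subset_Icc_self hs')))
  have hτI : τ ∈ Icc (t - 1) t := Ioo_subset_Icc_self hτ
  have hτT : τ ∈ T := w1 τ hτI
  have hD := lamD2_le_sol H hρ hs hpos k τ hτT (w2 τ hτI)
  have h11 : t - (t - 1) = 1 := by ring
  rw [h11, div_one] at hτe
  have hL1 := (abs_lt.1 (w3 t htI)).1
  have hL2 := (abs_lt.1 (w3 (t - 1) ⟨le_rfl, by linarith⟩)).2
  have hB2 := w4 τ hτI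
  have hthird : 0 ≤ (1 / 2) * (∑ j ∈ Finset.univ.filter (fun j => k < j),
      ∫ x in (0:ℝ)..1, -(d j * ψ'' k j x + (m x - θ k x) * ψ k j x) * u j τ x) := by
    refine mul_nonneg (by positivity) (Finset.sum_nonneg fun j hj => ?_)
    refine intervalIntegral.integral_nonneg zero_le_one fun x hx => ?_
    exact mul_nonneg ((H.wt k j (Finset.mem_filter.1 hj).2).gpos x hx).le (hpos j τ hτT x hx).le
  have hg0 : 0 ≤ d k * gradDiss (θ k) (θ' k) (u k τ) (ux k τ) := by
    refine mul_nonneg (hdpos k).le ?_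
    exact intervalIntegral.integral_nonneg zero_le_one fun x _ => by positivity
  have hI0 : 0 ≤ ∫ x in (0:ℝ)..1, θ k x * ((∑ i, u i τ x) - θ k x) ^ 2 :=
    intervalIntegral.integral_nonneg zero_le_one fun x hx =>
      mul_nonneg (hst.pos x hx).le (sq_nonneg _)
  have hclose := hco k (fun j => u j τ) (fun j => ux j τ) (fun j => huc j τ hτT)
    (fun j x hx => hpos j τ hτT x hx) (fun x hx => hs.dx k τ hτT x hx)
    (Q11_slice (hs.cx k) hτT) (by linarith) (by linarith) (w5 τ hτI).le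
  have hcmp := species_compare2 H hs k τ t (1 + e) (1 - e) e hτ.2.le
    (fun s hs' => w1 s ⟨hτI.1.trans hs'.1, hs'.2⟩) (by linarith) (by linarith) (by linarith) he0.le
    (fun x hx => by
      have h1 := (abs_le.1 (hclose x hx)).2
      have h2 : u k τ x / θ k x ≤ 1 + e := by
        have : (fun j => u j τ) k x / θ k x - 1 ≤ e := h1
        simp only at this
        linarith
      exact (div_le_iff₀ (hst.pos x hx)).1 h2)
    (fun x hx => by
      have h1 := (abs_le.1 (hclose x hx)).1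
      have h2 : 1 - e ≤ u k τ x / θ k x := by
        have : -e ≤ (fun j => u j τ) k x / θ k x - 1 := h1
        simp only at this
        linarith
      exact (le_div_iff₀ (hst.pos x hx)).1 h2)
    (fun s hs' x hx => by
      have hsI : s ∈ Icc (t - 1) t := ⟨hτI.1.trans hs'.1, hs'.2⟩
      calc ∑ j ∈ Finset.univ.filter (fun j => j ≠ k), u j s x
          ≤ ∑ j ∈ Finset.univ.filter (fun j => j ≠ k), e / ((Fintype.card ι : ℝ) + 1) := by
            refine Finset.sum_le_sum fun j hj => ?_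
            exact (w6 s hsI j (Finset.mem_filter.1 hj).2 x hx).le.trans (min_le_left _ _)
        _ = ((Finset.univ.filter (fun j => j ≠ k)).card : ℝ) * (e / ((Fintype.card ι : ℝ) + 1)) := by
            rw [Finset.sum_const, nsmul_eq_mul]
        _ ≤ ((Fintype.card ι : ℝ) + 1) * (e / ((Fintype.card ι : ℝ) + 1)) := by
            have h1 : ((Finset.univ.filter (fun j => j ≠ k)).card : ℝ) ≤ (Fintype.card ι : ℝ) := by
              exact_mod_cast Finset.card_le_univ _
            exact mul_le_mul_of_nonneg_right (by linarith) (by positivity)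
        _ = e := by field_simp)
  intro j x hx
  by_cases hjk : j = k
  · subst hjk
    rw [if_pos rfl]
    obtain ⟨hup, hlo⟩ := hcmp x hx
    have hθx := hst.pos x hx
    have hθBx := hθB x hx
    have hexp : 1 - e ≤ Real.exp (-e * (t - τ)) := by
      have h1 := Real.add_one_le_exp (-e * (t - τ))
      have h2 : t - τ ≤ 1 := by linarith [hτ.1]
      nlinarith
    have h3 : (1 - e) * (1 - e) * θ j x ≤ (1 - e) * Real.exp (-e * (t - τ)) * θ j x := by
      have h4 : 0 ≤ 1 - e := by linarith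
      exact mul_le_mul_of_nonneg_right (mul_le_mul_of_nonneg_left hexp h4) hθx.le
    have h5 : e * θ j x ≤ e * B := mul_le_mul_of_nonneg_left hθBx he0.le
    have h6 : 0 ≤ e ^ 2 * θ j x := by positivity
    rw [abs_lt]
    constructor <;> nlinarith
  · rw [if_neg hjk, sub_zero, abs_of_pos (hpos j t (w1 t htI) x hx)]
    exact lt_of_lt_of_le (w6 t htI j hjk x hx) (min_le_right _ _)

end Pool.Agent.Lib.MP_d8ef8f_an
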