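import Pool.Agent.Lib.MP_d8ef8f_an.S1
import Pool.Agent.Lib.MP_d8ef8f_an.S3
import Pool.Agent.Lib.MP_d8ef8f_an.A3
import Pool.Agent.Lib.MP_d8ef8f_an.O2
import Pool.Agent.Lib.MP_d8ef8f_an.O3

namespace Pool.Agent.Lib.MP_d8ef8f_an

open Set Filter Topology MeasureTheory

variable {ι : Type} [Fintype ι]

private theorem Q2_slice {f : ℝ → ℝ → ℝ} {T : Set ℝ}
    (h : ContinuousOn (fun p : ℝ × ℝ => f p.1 p.2) (T ×ˢ Icc (0:ℝ) 1)) {t : ℝ} (ht : t ∈ T) :
    ContinuousOn (f t) (Icc (0:ℝ) 1) := by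
  have h1 : ContinuousOn (fun x : ℝ => ((t, x) : ℝ × ℝ)) (Icc (0:ℝ) 1) := by fun_prop
  exact h.comp h1 (fun x hx => ⟨ht, hx⟩)

private theorem Q2_int {f : ℝ → ℝ} (h : ContinuousOn f (Icc (0:ℝ) 1)) :
    IntervalIntegrable f volume 0 1 := by
  apply ContinuousOn.intervalIntegrable
  rwa [uIcc_of_le zero_le_one]

private theorem Q2_mono {f g : ℝ → ℝ} (hf : ContinuousOn f (Icc (0:ℝ) 1))
    (hg : ContinuousOn g (Icc (0:ℝ) 1)) (h : ∀ x ∈ Icc (0:ℝ) 1, f x ≤ g x) :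
    ∫ x in (0:ℝ)..1, f x ≤ ∫ x in (0:ℝ)..1, g x :=
  intervalIntegral.integral_mono_on zero_le_one (Q2_int hf) (Q2_int hg) h

/-- differential inequality for the ratio, all species bounded by `K` at time `t` -/
theorem rat_deriv_le2 {d : ι → ℝ} {m : ℝ → ℝ} {T : Set ℝ} {u ut ux uxx : ι → ℝ → ℝ → ℝ} {B K : ℝ}
    (hB0 : 0 < B) (hK : 0 < K) (hd : ∀ j, 0 < d j)
    (hT : IsOpen T) (hm : ContinuousOn m (Icc (0:ℝ) 1)) (hB : ∀ x ∈ Icc (0:ℝ) 1, |m x| ≤ B)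
    (hs : IsSol d m T u ut ux uxx) (hpos : ∀ j, ∀ t ∈ T, ∀ x ∈ Icc (0:ℝ) 1, 0 < u j t x)
    (t : ℝ) (ht : t ∈ T) (hbd : ∀ j, ∀ x ∈ Icc (0:ℝ) 1, u j t x ≤ K) (j : ι) :
    ∃ D : ℝ, HasDerivAt (rat u j) D t ∧
      D ≤ - 2 * d j * (rat u j t - 1) ^ 2 + 4 * (B + Fintype.card ι * K) * rat u j t := by
  have hc : ∀ k, ContinuousOn (u k t) (Icc (0:ℝ) 1) := fun k => Q2_slice (hs.c0 k) ht
  have hcx : ContinuousOn (ux j t) (Icc (0:ℝ) 1) := Q2_slice (hs.cx j) ht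
  have hU : ContinuousOn (fun x => ∑ k, u k t x) (Icc (0:ℝ) 1) :=
    continuousOn_finsetSum _ (fun k _ => hc k)
  have hU0 : ∀ x ∈ Icc (0:ℝ) 1, 0 ≤ ∑ k, u k t x := fun x hx =>
    Finset.sum_nonneg fun k _ => hs.nonneg k t ht x hx
  have hU1 : ∀ x ∈ Icc (0:ℝ) 1, ∑ k, u k t x ≤ Fintype.card ι * K := fun x hx => by
    refine (Finset.sum_le_sum fun k _ => hbd k x hx).trans (le_of_eq ?_)
    simp
  set K' := B + Fintype.card ι * K with hK'
  have hK'0 : 0 < K' := by positivity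
  have hs1 := fun k => one_le_rat hs hpos k t ht
  have hmd := mass_deriv hT hs j t ht
  have hsd := sq_deriv hT hm hs j t ht
  set s := mass u j t with hsdef
  set q := sq u j t with hqdef
  set G := ∫ x in (0:ℝ)..1, ux j t x ^ 2 with hG
  set A1 := ∫ x in (0:ℝ)..1, u j t x * (m x - ∑ k, u k t x) with hA1
  set A2 := ∫ x in (0:ℝ)..1, u j t x ^ 2 * (m x - ∑ k, u k t x) with hA2
  have hspos : 0 < s := (hs1 j).1
  have hG0 : 0 ≤ G := intervalIntegral.integral_nonneg zero_le_one fun x _ => sq_nonneg _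
  refine ⟨((- 2 * d j * G + 2 * A2) * s ^ 2 - q * (2 * s * A1)) / (s ^ 2) ^ 2, ?_, ?_⟩
  · have h1 : HasDerivAt (fun t => mass u j t ^ 2) (2 * s * A1) t := by
      have h0 := hmd.mul hmd
      have e : (mass u j * mass u j) = fun t => mass u j t ^ 2 := by
        funext z
        simp [pow_two]
      rw [e] at h0
      have e2 : 2 * s * A1 = A1 * mass u j t + mass u j t * A1 := by
        rw [hsdef]; ring
      rw [e2]
      exact h0
    exact hsd.div h1 (by positivity)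
  set R := rat u j t with hR
  have hR1 : 1 ≤ R := (hs1 j).2
  have hqR : q = R * s ^ 2 := by
    rw [hR, rat, div_mul_cancel₀ _ (by positivity)]
  -- A2 ≤ K' q
  have hA2' : A2 ≤ K' * q := by
    rw [hA2, hqdef, sq, ← intervalIntegral.integral_const_mul]
    refine Q2_mono (((hc j).pow 2).mul (hm.sub hU)) (continuousOn_const.mul ((hc j).pow 2))
      fun x hx => ?_
    have h1 := (abs_le.1 (hB x hx)).2
    have h2 := hU0 x hx
    have h3 : 0 ≤ u j t x ^ 2 := sq_nonneg _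
    have h4 : m x - ∑ k, u k t x ≤ K' := by
      have : 0 ≤ (Fintype.card ι : ℝ) * K := by positivity
      linarith
    rw [mul_comm K']
    exact mul_le_mul_of_nonneg_left h4 h3
  -- A1 ≥ - K' s
  have hA1' : - (K' * s) ≤ A1 := by
    have : - (K' * s) = ∫ x in (0:ℝ)..1, (-K') * u j t x := by
      rw [intervalIntegral.integral_const_mul, hsdef, mass]
      ring
    rw [this, hA1]
    refine Q2_mono (continuousOn_const.mul (hc j)) ((hc j).mul (hm.sub hU)) fun x hx => ?_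
    have h3 := (abs_le.1 (hB x hx)).1
    have h4 := hs.nonneg j t ht x hx
    have h5 := hU1 x hx
    have h6 : -K' ≤ m x - ∑ k, u k t x := by
      rw [hK']; linarith
    rw [mul_comm (-K')]
    exact mul_le_mul_of_nonneg_left h6 h4
  -- (R-1)^2 s^2 ≤ G
  have hG1 : (R - 1) ^ 2 * s ^ 2 ≤ G := by
    have h1 : q ≤ s * (s + Real.sqrt G) := by
      have h2 : s * (s + Real.sqrt G) = ∫ x in (0:ℝ)..1, (s + Real.sqrt G) * u j t x := by
        rw [intervalIntegral.integral_const_mul, hsdef, mass]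
        ring
      rw [h2, hqdef, sq]
      refine Q2_mono ((hc j).pow 2) (continuousOn_const.mul (hc j)) fun x hx => ?_
      have h3 := (abs_le.1 (sup_le (u j t) (ux j t) (hs.dx j t ht) hcx x hx)).2
      have h4 := hs.nonneg j t ht x hx
      have h5 : u j t x ≤ s + Real.sqrt G := by
        have : (∫ z in (0:ℝ)..1, u j t z) = s := rfl
        rw [this] at h3
        linarith
      rw [pow_two]
      exact mul_le_mul_of_nonneg_right h5 h4
    rw [hqR] at h1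
    have h6 : (R - 1) * s ≤ Real.sqrt G := by
      have h7 : s * ((R - 1) * s) ≤ s * Real.sqrt G := by nlinarith
      exact le_of_mul_le_mul_left h7 hspos
    have h8 : 0 ≤ (R - 1) * s := mul_nonneg (by linarith) hspos.le
    calc (R - 1) ^ 2 * s ^ 2 = ((R - 1) * s) ^ 2 := by ring
      _ ≤ (Real.sqrt G) ^ 2 := pow_le_pow_left₀ h8 h6 2
      _ = G := Real.sq_sqrt hG0
  have hdj := hd j
  rw [div_le_iff₀ (by positivity)]
  rw [hqR] at hA2' ⊢
  have e1 : 0 < s ^ 2 := by positivity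
  have h1 : (- 2 * d j * G + 2 * A2) * s ^ 2 ≤
      (- 2 * d j * ((R - 1) ^ 2 * s ^ 2) + 2 * (K' * (R * s ^ 2))) * s ^ 2 := by
    apply mul_le_mul_of_nonneg_right _ e1.le
    have : d j * ((R - 1) ^ 2 * s ^ 2) ≤ d j * G := mul_le_mul_of_nonneg_left hG1 hdj.le
    linarith
  have h2 : R * s ^ 2 * (2 * s * A1) ≥ R * s ^ 2 * (2 * s * (-(K' * s))) := by
    apply mul_le_mul_of_nonneg_left _ (by positivity)
    exact mul_le_mul_of_nonneg_left hA1' (by positivity)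
  have h3 : (- 2 * d j * ((R - 1) ^ 2 * s ^ 2) + 2 * (K' * (R * s ^ 2))) * s ^ 2 -
      R * s ^ 2 * (2 * s * (-(K' * s))) =
      (-2 * d j * (R - 1) ^ 2 + 4 * K' * R) * (s ^ 2) ^ 2 := by ring
  linarith

/-- the threshold -/
private noncomputable def Q2_rho (d : ι → ℝ) (K' : ℝ) : ℝ := 2 + ∑ j, 16 * K' / d j

private theorem Q2_rho_spec {d : ι → ℝ} {K' : ℝ} (hK' : 0 < K') (hd : ∀ j, 0 < d j) (j : ι)
    {R D : ℝ} (hR : Q2_rho d K' ≤ R) (hD : D ≤ - 2 * d j * (R - 1) ^ 2 + 4 * K' * R) :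
    2 ≤ R ∧ D ≤ -(d j / 4) * R ^ 2 := by
  have h0 : ∀ k, 0 ≤ 16 * K' / d k := fun k => by have := hd k; positivity
  have h1 : 16 * K' / d j ≤ ∑ k, 16 * K' / d k :=
    Finset.single_le_sum (f := fun k => 16 * K' / d k) (fun k _ => h0 k) (Finset.mem_univ j)
  have h2 : 0 ≤ ∑ k, 16 * K' / d k := Finset.sum_nonneg fun k _ => h0 k
  unfold Q2_rho at hR
  have h3 : 2 ≤ R := by linarith
  have h4 : 16 * K' / d j ≤ R := by linarith
  have hdj := hd j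
  have h5 : 16 * K' ≤ R * d j := by rwa [div_le_iff₀ hdj] at h4
  refine ⟨h3, ?_⟩
  have h6 : R ^ 2 / 4 ≤ (R - 1) ^ 2 := by nlinarith
  have h7 : 2 * d j * (R ^ 2 / 4) ≤ 2 * d j * (R - 1) ^ 2 :=
    mul_le_mul_of_nonneg_left h6 (by positivity)
  have h8 : 16 * K' * R ≤ R * d j * R := mul_le_mul_of_nonneg_right h5 (by linarith)
  nlinarith

private theorem Q2_rho_pos {d : ι → ℝ} {K' : ℝ} (hK' : 0 < K') (hd : ∀ j, 0 < d j) :
    0 < Q2_rho d K' := by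
  have h2 : 0 ≤ ∑ k, 16 * K' / d k :=
    Finset.sum_nonneg fun k _ => by have := hd k; positivity
  unfold Q2_rho
  linarith

private theorem Q2_c {d : ι → ℝ} (hd : ∀ j, 0 < d j) : ∃ c : ℝ, 0 < c ∧ ∀ j, c ≤ d j / 4 := by
  have h2 : 0 ≤ ∑ k, 4 / d k :=
    Finset.sum_nonneg fun k _ => by have := hd k; positivity
  refine ⟨1 / (1 + ∑ k, 4 / d k), by positivity, fun j => ?_⟩
  have h1 : 4 / d j ≤ ∑ k, 4 / d k :=
    Finset.single_le_sum (f := fun k => 4 / d k) (fun k _ => by have := hd k; positivity)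
      (Finset.mem_univ j)
  have hdj := hd j
  rw [div_le_iff₀ (by positivity)]
  have h3 : d j / 4 * (4 / d j) = 1 := by field_simp
  have h4 : d j / 4 * (4 / d j) ≤ d j / 4 * (1 + ∑ k, 4 / d k) :=
    mul_le_mul_of_nonneg_left (by linarith) (by positivity)
  linarith

theorem rat_forward2 {d : ι → ℝ} {m : ℝ → ℝ} {a : ℝ} {u ut ux uxx : ι → ℝ → ℝ → ℝ} {B K : ℝ}
    (hB0 : 0 < B) (hK : 0 < K) (hd : ∀ j, 0 < d j)
    (hm : ContinuousOn m (Icc (0:ℝ) 1)) (hB : ∀ x ∈ Icc (0:ℝ) 1, |m x| ≤ B)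
    (hs : IsSol d m (Ioi a) u ut ux uxx)
    (hpos : ∀ j, ∀ t ∈ Ioi a, ∀ x ∈ Icc (0:ℝ) 1, 0 < u j t x)
    (hbd : ∀ j, ∀ t > a, ∀ x ∈ Icc (0:ℝ) 1, u j t x ≤ K) :
    ∃ ρ t0 : ℝ, 0 < ρ ∧ a < t0 ∧ ∀ t ≥ t0, ∀ j, rat u j t ≤ ρ := by
  have hK' : 0 < B + Fintype.card ι * K := by positivity
  obtain ⟨c, hc0, hc⟩ := Q2_c hd
  have hder := fun (j : ι) (t : ℝ) (ht : t > a) =>
    rat_deriv_le2 hB0 hK hd isOpen_Ioi hm hB hs hpos t ht (fun k => hbd k t ht) j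
  obtain ⟨t1, ht1, h1⟩ := fam_eventually_le (fun j => rat u j) (fun j t => deriv (rat u j) t)
    a (Q2_rho d (B + Fintype.card ι * K)) c hc0
    (fun j t ht => by
      obtain ⟨D, hD, _⟩ := hder j t ht
      exact hD.differentiableAt.hasDerivAt)
    (fun t ht j _ hge => by
      obtain ⟨D, hD, hD2⟩ := hder j t ht
      obtain ⟨h3, h4⟩ := Q2_rho_spec hK' hd j hge hD2
      show deriv (rat u j) t ≤ -c
      rw [hD.deriv]
      have h5 : 1 ≤ rat u j t ^ 2 := by nlinarith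
      have h6 := hc j
      have h7 : d j / 4 * 1 ≤ d j / 4 * rat u j t ^ 2 :=
        mul_le_mul_of_nonneg_left h5 (by linarith)
      linarith)
  exact ⟨_, t1, Q2_rho_pos hK' hd, ht1, h1⟩

theorem rat_entire2 {d : ι → ℝ} {m : ℝ → ℝ} {u ut ux uxx : ι → ℝ → ℝ → ℝ} {B K : ℝ}
    (hB0 : 0 < B) (hK : 0 < K) (hd : ∀ j, 0 < d j)
    (hm : ContinuousOn m (Icc (0:ℝ) 1)) (hB : ∀ x ∈ Icc (0:ℝ) 1, |m x| ≤ B)
    (hs : IsSol d m univ u ut ux uxx)
    (hpos : ∀ j, ∀ t ∈ (univ : Set ℝ), ∀ x ∈ Icc (0:ℝ) 1, 0 < u j t x)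
    (hbd : ∀ j t, ∀ x ∈ Icc (0:ℝ) 1, u j t x ≤ K) :
    ∃ ρ : ℝ, 0 < ρ ∧ ∀ t, ∀ j, rat u j t ≤ ρ := by
  have hK' : 0 < B + Fintype.card ι * K := by positivity
  obtain ⟨c, hc0, hc⟩ := Q2_c hd
  have hder := fun (j : ι) (t : ℝ) =>
    rat_deriv_le2 hB0 hK hd isOpen_univ hm hB hs hpos t (mem_univ t) (fun k => hbd k t) j
  have h1 := fam_entire_le (fun j => rat u j) (fun j t => deriv (rat u j) t)
    (Q2_rho d (B + Fintype.card ι * K)) c hc0 (Q2_rho_pos hK' hd)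
    (fun j t => by
      obtain ⟨D, hD, _⟩ := hder j t
      exact hD.differentiableAt.hasDerivAt)
    (fun t j _ hge => by
      obtain ⟨D, hD, hD2⟩ := hder j t
      obtain ⟨h3, h4⟩ := Q2_rho_spec hK' hd j hge hD2
      show deriv (rat u j) t ≤ -c * rat u j t ^ 2
      rw [hD.deriv]
      have h6 := hc j
      have h7 : c * rat u j t ^ 2 ≤ d j / 4 * rat u j t ^ 2 :=
        mul_le_mul_of_nonneg_right h6 (sq_nonneg _)
      linarith)
  exact ⟨_, Q2_rho_pos hK' hd, h1⟩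

end Pool.Agent.Lib.MP_d8ef8f_an
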