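import Pool.Agent.Lib.MP_d8ef8f_an.V.Setup
import Pool.Agent.Lib.MP_d8ef8f_an.O4
import Pool.Agent.Lib.MP_d8ef8f_an.S2
import Pool.Agent.Lib.MP_d8ef8f_an.V.Q1
import Pool.Agent.Lib.MP_d8ef8f_an.V.Q2
import Pool.Agent.Lib.MP_d8ef8f_an.V.Q11

namespace Pool.Agent.Lib.MP_d8ef8f_an

open Set Filter Topology MeasureTheory

variable {ι : Type} [Fintype ι] [LinearOrder ι]

private theorem f1v_mono {ι : Type} [Fintype ι] {d : ι → ℝ} {m : ℝ → ℝ} {T T' : Set ℝ}
    {u ut ux uxx : ι → ℝ → ℝ → ℝ} (hs : IsSol d m T u ut ux uxx) (h : T' ⊆ T) :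
    IsSol d m T' u ut ux uxx where
  c0 j := (hs.c0 j).mono (prod_mono_left h)
  ct j := (hs.ct j).mono (prod_mono_left h)
  cx j := (hs.cx j).mono (prod_mono_left h)
  cxx j := (hs.cxx j).mono (prod_mono_left h)
  dt j t ht := hs.dt j t (h ht)
  dx j t ht := hs.dx j t (h ht)
  dxx j t ht := hs.dxx j t (h ht)
  bc0 j t ht := hs.bc0 j t (h ht)
  bc1 j t ht := hs.bc1 j t (h ht)
  nonneg j t ht := hs.nonneg j t (h ht)
  eq j t ht := hs.eq j t (h ht)

/-- forward convergence, all species present, `k` the slowest one -/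
theorem forward_core2 {d : ι → ℝ} {m : ℝ → ℝ} {θ θ' θ'' : ι → ℝ → ℝ} {ψ ψ' ψ'' : ι → ι → ℝ → ℝ}
    {B : ℝ} (H : Data2 d m θ θ' θ'' ψ ψ' ψ'' B) {a : ℝ} {u ut ux uxx : ι → ℝ → ℝ → ℝ}
    (hs : IsSol d m (Ioi a) u ut ux uxx)
    (hpos : ∀ j, ∀ t ∈ Ioi a, ∀ x ∈ Icc (0:ℝ) 1, 0 < u j t x)
    (k : ι) (hk : ∀ j, k ≤ j) :
    ConvTo atTop u (fun j x => if j = k then θ k x else 0) := by
  classical
  obtain ⟨K, hK, hbd⟩ := forward_bounded H.hB0 H.dpos H.hm H.hB hs (a + 1) (by linarith)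
  have hsub : Ioi (a + 1) ⊆ Ioi a := Ioi_subset_Ioi (by linarith)
  obtain ⟨ρ, t1, hρ, ht1, hrat⟩ := rat_forward2 (a := a + 1) H.hB0 hK H.dpos H.hm H.hB
    (f1v_mono hs hsub) (fun j t ht x hx => hpos j t (hsub ht) x hx)
    (fun j t ht x hx => hbd j t (le_of_lt ht) x hx)
  obtain ⟨t0, ht0, hmass⟩ := total_forward H.hB0 H.hm H.hB hs
  have htame' : ∀ᶠ t in atTop, Tame2 u B ρ t := by
    filter_upwards [eventually_ge_atTop t0, eventually_ge_atTop t1] with t h0 h1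
    exact ⟨hmass t h0, hrat t h1⟩
  have hT : ∀ᶠ t in atTop, t ∈ Ioi a := eventually_gt_atTop a
  have hempty : Finset.univ.filter (fun j => j < k) = (∅ : Finset ι) := by
    ext j
    simp [not_lt.mpr (hk j)]
  have hdec := lam2_decay H hρ hs hpos k atTop hT htame' (by
    rw [hempty]
    simp)
  have hder : ∀ t > a, HasDerivAt (fun s => Lam2 (θ k) (ψ k) k (fun j => u j s))
      (LamD2 d m (θ k) (θ' k) (ψ k) (ψ'' k) k (fun j => u j t) (fun j => ux j t)) t := fun t ht =>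
    lam2_deriv H isOpen_Ioi hs hpos k t ht
  obtain ⟨c0, hc0, hlower⟩ := lam2_lower H k
  have hnn : ∀ t > a, 0 ≤ Lam2 (θ k) (ψ k) k (fun j => u j t) := by
    intro t ht
    have hcont : ∀ j, ContinuousOn (u j t) (Icc (0:ℝ) 1) :=
      fun j x hx => (hs.dx j t ht x hx).continuousWithinAt
    obtain ⟨h1, h2⟩ := hlower (fun j => u j t) hcont (fun j x hx => hpos j t ht x hx)
    have h3 : 0 ≤ ∑ j ∈ Finset.univ.filter (fun j => k < j), ∫ x in (0:ℝ)..1, u j t x := by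
      apply Finset.sum_nonneg
      intro j _
      exact intervalIntegral.integral_nonneg zero_le_one (fun x hx => (hpos j t ht x hx).le)
    have h5 : 0 ≤ c0 * (∑ j ∈ Finset.univ.filter (fun j => k < j), ∫ x in (0:ℝ)..1, u j t x) :=
      mul_nonneg hc0.le h3
    linarith
  have hlim := lyap_forward _ _ a hder hnn hdec
  exact conv_of_lam2 H hρ isOpen_Ioi hs hpos atTop (Or.inl rfl) hT htame' k
    (fun j hj => absurd hj (not_lt.mpr (hk j))) hlim

end Pool.Agent.Lib.MP_d8ef8f_an
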