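import Pool.Agent.Lib.MP_d8ef8f_an.T1
import Pool.Agent.Lib.MP_d8ef8f_an.T2
import Pool.Agent.Lib.MP_d8ef8f_an.A2
import Pool.Agent.Lib.MP_d8ef8f_an.A3

namespace Pool.Agent.Lib.MP_d8ef8f_an

open Set Filter Topology MeasureTheory

theorem theta_le_max {d M : ℝ} {m θ θ' θ'' : ℝ → ℝ} (hd : 0 < d) (h : Steady d m θ θ' θ'')
    (hM : ∀ x ∈ Icc (0:ℝ) 1, m x ≤ M) : ∀ x ∈ Icc (0:ℝ) 1, θ x ≤ M := by
  have hcont : ContinuousOn θ (Icc (0:ℝ) 1) := fun z hz => (h.d1 z hz).continuousWithinAt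
  obtain ⟨x0, hx0, hmax⟩ := isCompact_Icc.exists_isMaxOn (nonempty_Icc.2 (zero_le_one' ℝ)) hcont
  have hmax' : ∀ x ∈ Icc (0:ℝ) 1, θ x ≤ θ x0 := fun x hx => hmax hx
  have h2 := second_deriv_max θ θ' θ'' h.d1 h.d2 h.bc0 h.bc1 x0 hx0 hmax'
  have h3 := h.eq x0 hx0
  have h4 : 0 ≤ θ x0 * (m x0 - θ x0) := by nlinarith
  have h5 := h.pos x0 hx0
  have h6 : 0 ≤ m x0 - θ x0 := nonneg_of_mul_nonneg_right h4 h5
  have h7 := hM x0 hx0
  intro x hx
  have := hmax' x hx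
  linarith

private theorem T5_dirichlet {d : ℝ} {m θ θ' θ'' : ℝ → ℝ} (hd : 0 < d)
    (hm : ContinuousOn m (Icc (0:ℝ) 1)) (h : Steady d m θ θ' θ'') :
    d * (∫ x in (0:ℝ)..1, (θ' x / θ x) ^ 2) = ∫ x in (0:ℝ)..1, (θ x - m x) := by
  obtain ⟨B, hB⟩ := isCompact_Icc.exists_bound_of_continuousOn hm
  exact theta_dirichlet hd hm h (B := B) (fun x hx => by
    have := hB x hx
    rwa [Real.norm_eq_abs] at this)

private theorem T5_ftc {d : ℝ} {m θ θ' θ'' : ℝ → ℝ} (hd : 0 < d)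
    (hm : ContinuousOn m (Icc (0:ℝ) 1)) (h : Steady d m θ θ' θ'') {y : ℝ}
    (hy : y ∈ Icc (0:ℝ) 1) :
    (∫ x in y..(1:ℝ), ((θ x - m x) / d - (θ' x / θ x) ^ 2)) = - (θ' y / θ y) := by
  obtain ⟨h1, h2⟩ := T2_cont h
  have h3 := intervalIntegral.integral_eq_sub_of_hasDerivAt_of_le (f := fun x => θ' x / θ x)
    (f' := fun x => (θ x - m x) / d - (θ' x / θ x) ^ 2) hy.2
    (h2.mono (Icc_subset_Icc hy.1 le_rfl))
    (fun x hx => (T2_z hd h x ⟨hy.1.trans hx.1.le, hx.2.le⟩).hasDerivAt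
      (Icc_mem_nhds (hy.1.trans_lt hx.1) hx.2))
    (T2_int (((h1.sub hm).div_const d).sub (h2.pow 2)) hy.1 hy.2 le_rfl)
  rw [h3, h.bc1, zero_div, zero_sub]

/-- the estimate on a part `[a,b]` of the interval -/
private theorem T5_part {d M : ℝ} {m θ θ' θ'' : ℝ → ℝ} (hd : 0 < d)
    (hm : ContinuousOn m (Icc (0:ℝ) 1)) (h : Steady d m θ θ' θ'')
    (hM : ∀ x ∈ Icc (0:ℝ) 1, m x ≤ M) {a b : ℝ} (ha : 0 ≤ a) (hab : a ≤ b) (hb : b ≤ 1) :
    (∫ x in a..b, ((θ x - m x) / d - (θ' x / θ x) ^ 2)) ≤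
      (M * (b - a) - ∫ x in a..b, m x) / d := by
  obtain ⟨h1, h2⟩ := T2_cont h
  have hle := theta_le_max hd h hM
  have h4 : (∫ x in a..b, ((θ x - m x) / d - (θ' x / θ x) ^ 2)) ≤
      ∫ x in a..b, ((M - m x) / d) := by
    apply intervalIntegral.integral_mono_on hab
      (T2_int (((h1.sub hm).div_const d).sub (h2.pow 2)) ha hab hb)
      (T2_int ((continuousOn_const.sub hm).div_const d) ha hab hb)
    intro x hx
    have hx' : x ∈ Icc (0:ℝ) 1 := ⟨ha.trans hx.1, hx.2.trans hb⟩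
    have h5 : (θ x - m x) / d ≤ (M - m x) / d :=
      div_le_div_of_nonneg_right (by linarith [hle x hx']) hd.le
    have h6 := sq_nonneg (θ' x / θ x)
    show (θ x - m x) / d - (θ' x / θ x) ^ 2 ≤ (M - m x) / d
    linarith
  refine h4.trans (le_of_eq ?_)
  have c3 : ContinuousOn (fun _ : ℝ => M) (Icc (0:ℝ) 1) := continuousOn_const
  rw [intervalIntegral.integral_div, intervalIntegral.integral_sub (T2_int c3 ha hab hb)
    (T2_int hm ha hab hb), intervalIntegral.integral_const, smul_eq_mul, mul_comm]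

private theorem T5_le {m : ℝ → ℝ} {M : ℝ} (hm : ContinuousOn m (Icc (0:ℝ) 1))
    (hM : ∀ x ∈ Icc (0:ℝ) 1, m x ≤ M) {a b : ℝ} (ha : 0 ≤ a) (hab : a ≤ b) (hb : b ≤ 1) :
    ∫ x in a..b, m x ≤ M * (b - a) := by
  have c3 : ContinuousOn (fun _ : ℝ => M) (Icc (0:ℝ) 1) := continuousOn_const
  have h4 : ∫ x in a..b, m x ≤ ∫ _x in a..b, M := by
    apply intervalIntegral.integral_mono_on hab (T2_int hm ha hab hb) (T2_int c3 ha hab hb)
    intro x hx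
    exact hM x ⟨ha.trans hx.1, hx.2.trans hb⟩
  refine h4.trans (le_of_eq ?_)
  rw [intervalIntegral.integral_const, smul_eq_mul, mul_comm]

/-- bounds for `z = θ'/θ` in terms of `M = max m` when `∫ m ≥ 0` -/
theorem theta_z_bounds {d M : ℝ} {m θ θ' θ'' : ℝ → ℝ} (hd : 0 < d)
    (hm : ContinuousOn m (Icc (0:ℝ) 1)) (h : Steady d m θ θ' θ'')
    (hM : ∀ x ∈ Icc (0:ℝ) 1, m x ≤ M) (hint : 0 ≤ ∫ x in (0:ℝ)..1, m x) :
    (∀ x ∈ Icc (0:ℝ) 1, |θ' x / θ x| ≤ M / d) ∧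
    (∫ x in (0:ℝ)..1, (θ' x / θ x) ^ 2) ≤ M / d ∧
    (∀ x ∈ Icc (0:ℝ) 1, ∀ y ∈ Icc (0:ℝ) 1, |Real.log (θ x) - Real.log (θ y)| ≤ M / d) := by
  obtain ⟨h1, h2⟩ := T2_cont h
  have hle := theta_le_max hd h hM
  have hM0 : 0 < M := (h.pos 0 ⟨le_rfl, zero_le_one⟩).trans_le (hle 0 ⟨le_rfl, zero_le_one⟩)
  have hA : ∀ x ∈ Icc (0:ℝ) 1, |θ' x / θ x| ≤ M / d := by
    intro y hy
    have hsplit : (∫ x in (0:ℝ)..y, m x) + ∫ x in y..(1:ℝ), m x = ∫ x in (0:ℝ)..1, m x :=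
      intervalIntegral.integral_add_adjacent_intervals (T2_int hm le_rfl hy.1 hy.2)
        (T2_int hm hy.1 hy.2 le_rfl)
    have e1 := T5_le hm hM le_rfl hy.1 hy.2
    have e2 := T5_le hm hM hy.1 hy.2 le_rfl
    have f1 := T5_part hd hm h hM le_rfl hy.1 hy.2
    have f2 := T5_part hd hm h hM hy.1 hy.2 le_rfl
    rw [T2_ftc hd hm h hy] at f1
    rw [T5_ftc hd hm h hy] at f2
    rw [abs_le]
    constructor
    · have g : (M * (1 - y) - ∫ x in y..(1:ℝ), m x) / d ≤ M / d :=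
        div_le_div_of_nonneg_right (by linarith) hd.le
      linarith
    · have g : (M * (y - 0) - ∫ x in (0:ℝ)..y, m x) / d ≤ M / d :=
        div_le_div_of_nonneg_right (by linarith) hd.le
      linarith
  refine ⟨hA, ?_, ?_⟩
  · have h3 := T5_dirichlet hd hm h
    rw [le_div_iff₀ hd, mul_comm, h3, intervalIntegral.integral_sub
      (T2_int h1 le_rfl zero_le_one le_rfl) (T2_int hm le_rfl zero_le_one le_rfl)]
    have h4 := T5_le h1 hle le_rfl zero_le_one le_rfl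
    linarith
  · intro x hx y hy
    have h3 := (convex_Icc (0:ℝ) 1).norm_image_sub_le_of_norm_hasDerivWithin_le
      (f := fun x => Real.log (θ x)) (f' := fun x => θ' x / θ x) (C := M / d)
      (fun z hz => (h.d1 z hz).log (h.pos z hz).ne')
      (fun z hz => hA z hz) hy hx
    simp only [Real.norm_eq_abs] at h3
    refine h3.trans ?_
    have h4 : |x - y| ≤ 1 := by
      rw [abs_le]
      constructor <;> linarith [hx.1, hx.2, hy.1, hy.2]
    have h5 : 0 ≤ M / d := by positivity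
    nlinarith [abs_nonneg (x - y)]

theorem theta_z_pos {d : ℝ} {m θ θ' θ'' : ℝ → ℝ} (hd : 0 < d)
    (hm : ContinuousOn m (Icc (0:ℝ) 1)) (h : Steady d m θ θ' θ'')
    (hnc : ∃ x ∈ Icc (0:ℝ) 1, ∃ y ∈ Icc (0:ℝ) 1, m x ≠ m y) :
    0 < ∫ x in (0:ℝ)..1, (θ' x / θ x) ^ 2 := by
  obtain ⟨h1, h2⟩ := T2_cont h
  apply intervalIntegral.integral_pos zero_lt_one (h2.pow 2) (fun x _ => sq_nonneg _)
  by_contra hcon
  push Not at hcon
  have hz : ∀ x ∈ Icc (0:ℝ) 1, θ' x / θ x = 0 := by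
    intro x hx
    have h3 := hcon x hx
    have h4 : (θ' x / θ x) ^ 2 ≤ 0 := h3
    exact pow_eq_zero_iff (two_ne_zero) |>.1 (le_antisymm h4 (sq_nonneg _))
  have hm' : ∀ x ∈ Icc (0:ℝ) 1, m x = θ x := by
    intro x hx
    have h3 := T2_z hd h x hx
    have h4 : HasDerivWithinAt (fun x => θ' x / θ x) 0 (Icc (0:ℝ) 1) x :=
      (hasDerivWithinAt_const x (Icc (0:ℝ) 1) (0:ℝ)).congr hz (hz x hx)
    have h5 := (uniqueDiffOn_Icc (zero_lt_one' ℝ) x hx).eq_deriv _ h3 h4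
    rw [hz x hx] at h5
    have h6 : (θ x - m x) / d = 0 := by linarith
    rw [div_eq_zero_iff] at h6
    rcases h6 with h6 | h6
    · linarith
    · exact absurd h6 hd.ne'
  have hθ' : ∀ x ∈ Icc (0:ℝ) 1, θ' x = 0 := by
    intro x hx
    have h3 := hz x hx
    rw [div_eq_zero_iff] at h3
    rcases h3 with h3 | h3
    · exact h3
    · exact absurd h3 (h.pos x hx).ne'
  obtain ⟨x, hx, y, hy, hne⟩ := hnc
  apply hne
  rw [hm' x hx, hm' y hy]
  have h3 := (convex_Icc (0:ℝ) 1).norm_image_sub_le_of_norm_hasDerivWithin_le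
    (f := θ) (f' := θ') (C := 0) (fun z hz => h.d1 z hz)
    (fun z hz => by rw [hθ' z hz, norm_zero]) hy hx
  rw [zero_mul] at h3
  have h4 := norm_le_zero_iff.1 h3
  linarith

end Pool.Agent.Lib.MP_d8ef8f_an
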