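import Pool.Agent.Lib.MP_d8ef8f_an.V.P1
import Pool.Agent.Lib.MP_d8ef8f_an.V.T5

namespace Pool.Agent.Lib.MP_d8ef8f_an

open Set Filter Topology MeasureTheory

theorem P2_ii {f : ℝ → ℝ} (hf : ContinuousOn f (Icc (0:ℝ) 1)) {a b : ℝ}
    (ha : a ∈ Icc (0:ℝ) 1) (hb : b ∈ Icc (0:ℝ) 1) : IntervalIntegrable f volume a b := by
  apply ContinuousOn.intervalIntegrable
  apply hf.mono
  intro x hx
  rw [mem_uIcc] at hx
  rcases hx with hx | hx
  · exact ⟨ha.1.trans hx.1, hx.2.trans hb.2⟩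
  · exact ⟨hb.1.trans hx.1, hx.2.trans ha.2⟩

theorem P2_ii01 {f : ℝ → ℝ} (hf : ContinuousOn f (Icc (0:ℝ) 1)) :
    IntervalIntegrable f volume 0 1 :=
  P2_ii hf ⟨le_rfl, zero_le_one⟩ ⟨zero_le_one, le_rfl⟩

theorem P2_mono {f g : ℝ → ℝ} (hf : ContinuousOn f (Icc (0:ℝ) 1))
    (hg : ContinuousOn g (Icc (0:ℝ) 1)) (h : ∀ x ∈ Icc (0:ℝ) 1, f x ≤ g x) :
    ∫ x in (0:ℝ)..1, f x ≤ ∫ x in (0:ℝ)..1, g x :=
  intervalIntegral.integral_mono_on zero_le_one (P2_ii01 hf) (P2_ii01 hg) h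

theorem P2_part {f : ℝ → ℝ} (hf : ContinuousOn f (Icc (0:ℝ) 1))
    (h : ∀ x ∈ Icc (0:ℝ) 1, 0 ≤ f x) {x : ℝ} (hx : x ∈ Icc (0:ℝ) 1) :
    0 ≤ ∫ y in (0:ℝ)..x, f y ∧ ∫ y in (0:ℝ)..x, f y ≤ ∫ y in (0:ℝ)..1, f y := by
  have h0 : (0:ℝ) ∈ Icc (0:ℝ) 1 := ⟨le_rfl, zero_le_one⟩
  have h1 : (1:ℝ) ∈ Icc (0:ℝ) 1 := ⟨zero_le_one, le_rfl⟩
  have hs := intervalIntegral.integral_add_adjacent_intervals (P2_ii hf h0 hx) (P2_ii hf hx h1)
  have ha : 0 ≤ ∫ y in (0:ℝ)..x, f y :=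
    intervalIntegral.integral_nonneg hx.1 (fun y hy => h y ⟨hy.1, hy.2.trans hx.2⟩)
  have hb : 0 ≤ ∫ y in x..1, f y :=
    intervalIntegral.integral_nonneg hx.2 (fun y hy => h y ⟨hx.1.trans hy.1, hy.2⟩)
  exact ⟨ha, by linarith⟩

/-- bounds for `c` and `r` -/
theorem P2_cr {d dj c K : ℝ} {p z r : ℝ → ℝ} (hd : 0 < d) (hdj : 0 < dj) (hK : 0 < K)
    (hp : ContinuousOn p (Icc (0:ℝ) 1)) (hz : ContinuousOn z (Icc (0:ℝ) 1))
    (hp0 : ∀ x ∈ Icc (0:ℝ) 1, 0 < p x)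
    (hpK : ∀ x ∈ Icc (0:ℝ) 1, ∀ y ∈ Icc (0:ℝ) 1, p x ≤ K * p y)
    (hc : c * (∫ x in (0:ℝ)..1, p x) = d * (∫ x in (0:ℝ)..1, p x * z x ^ 2))
    (hr : ∀ x ∈ Icc (0:ℝ) 1, dj * p x * r x = ∫ y in (0:ℝ)..x, p y * (d * z y ^ 2 - c)) :
    d * (∫ x in (0:ℝ)..1, z x ^ 2) ≤ K * c ∧
      ∀ x ∈ Icc (0:ℝ) 1, |r x| ≤ d / dj * K * (∫ x in (0:ℝ)..1, z x ^ 2) := by
  have h0 : (0:ℝ) ∈ Icc (0:ℝ) 1 := ⟨le_rfl, zero_le_one⟩
  have hz2 : ContinuousOn (fun x => z x ^ 2) (Icc (0:ℝ) 1) := hz.pow 2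
  have hpz : ContinuousOn (fun x => p x * z x ^ 2) (Icc (0:ℝ) 1) := hp.mul hz2
  set n2 := ∫ x in (0:ℝ)..1, z x ^ 2 with hn2
  set P := ∫ x in (0:ℝ)..1, p x with hPdef
  set W := ∫ x in (0:ℝ)..1, p x * z x ^ 2 with hWdef
  have hn20 : 0 ≤ n2 := intervalIntegral.integral_nonneg zero_le_one (fun x _ => sq_nonneg _)
  -- `P` is positive
  have hPK : ∀ x ∈ Icc (0:ℝ) 1, p x ≤ K * P := by
    intro x hx
    have h1 := P2_mono (f := fun _ => p x) (g := fun y => K * p y) continuousOn_const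
      (hp.const_mul K) (fun y hy => hpK x hx y hy)
    rw [intervalIntegral.integral_const, intervalIntegral.integral_const_mul] at h1
    simpa using h1
  have hP0 : 0 < P := by
    have h1 := (hp0 0 h0).trans_le (hPK 0 h0)
    exact (mul_pos_iff_of_pos_left hK).mp h1
  -- lower bound of `W`
  have hPW : P * n2 ≤ K * W := by
    have h1 : ∀ x ∈ Icc (0:ℝ) 1, P ≤ K * p x := by
      intro x hx
      have h2 := P2_mono (f := fun y => p y) (g := fun _ => K * p x) hp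
        continuousOn_const (fun y hy => hpK y hy x hx)
      rw [intervalIntegral.integral_const] at h2
      simpa using h2
    have h3 := P2_mono (f := fun x => P * z x ^ 2) (g := fun x => K * (p x * z x ^ 2))
      (hz2.const_mul P) (hpz.const_mul K) (fun x hx => by
        have := mul_le_mul_of_nonneg_right (h1 x hx) (sq_nonneg (z x))
        linarith)
    rw [intervalIntegral.integral_const_mul, intervalIntegral.integral_const_mul] at h3
    exact h3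
  have hcP : c * P = d * W := hc
  have hc0 : 0 ≤ c := by
    have hW0 : 0 ≤ W := by
      refine intervalIntegral.integral_nonneg zero_le_one (fun x hx => ?_)
      exact mul_nonneg (hp0 x hx).le (sq_nonneg _)
    have h1 : 0 ≤ c * P := by rw [hcP]; positivity
    exact nonneg_of_mul_nonneg_left h1 hP0
  constructor
  · have h1 : d * n2 * P ≤ K * c * P := by
      have h2 := mul_le_mul_of_nonneg_left hPW hd.le
      calc d * n2 * P = d * (P * n2) := by ring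
        _ ≤ d * (K * W) := h2
        _ = K * (d * W) := by ring
        _ = K * c * P := by rw [← hcP]; ring
    exact le_of_mul_le_mul_right h1 hP0
  · intro x hx
    have hpx := hp0 x hx
    have e1 : ∫ y in (0:ℝ)..x, p y * (d * z y ^ 2 - c) =
        d * (∫ y in (0:ℝ)..x, p y * z y ^ 2) - c * (∫ y in (0:ℝ)..x, p y) := by
      rw [← intervalIntegral.integral_const_mul, ← intervalIntegral.integral_const_mul,
        ← intervalIntegral.integral_sub]
      · apply intervalIntegral.integral_congr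
        intro y _
        simp only
        ring
      · exact (P2_ii hpz h0 hx).const_mul d
      · exact (P2_ii hp h0 hx).const_mul c
    have h2 := P2_part hpz (fun y hy => mul_nonneg (hp0 y hy).le (sq_nonneg _)) hx
    have h3 := P2_part hp (fun y hy => (hp0 y hy).le) hx
    have h4 : |dj * p x * r x| ≤ d * W := by
      rw [hr x hx, e1, abs_le]
      have a1 := mul_nonneg hd.le h2.1
      have a2 := mul_le_mul_of_nonneg_left h2.2 hd.le
      have a3 := mul_nonneg hc0 h3.1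
      have a4 := mul_le_mul_of_nonneg_left h3.2 hc0
      constructor
      · linarith
      · linarith
    have h5 : W ≤ K * p x * n2 := by
      have h6 := P2_mono (f := fun y => p y * z y ^ 2) (g := fun y => K * p x * z y ^ 2)
        hpz (hz2.const_mul _) (fun y hy => by
          have := mul_le_mul_of_nonneg_right (hpK y hy x hx) (sq_nonneg (z y))
          linarith)
      rw [intervalIntegral.integral_const_mul] at h6
      exact h6
    have h7 : |dj * p x * r x| = dj * p x * |r x| := by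
      rw [abs_mul, abs_of_pos (mul_pos hdj hpx)]
    rw [h7] at h4
    have h8 : dj * p x * |r x| ≤ dj * p x * (d / dj * K * n2) := by
      calc dj * p x * |r x| ≤ d * W := h4
        _ ≤ d * (K * p x * n2) := mul_le_mul_of_nonneg_left h5 hd.le
        _ = dj * p x * (d / dj * K * n2) := by field_simp
    exact le_of_mul_le_mul_left h8 (mul_pos hdj hpx)

/-- bound for `h` -/
theorem P2_h {R : ℝ} {z r h : ℝ → ℝ} (hz : ContinuousOn z (Icc (0:ℝ) 1))
    (hr : ContinuousOn r (Icc (0:ℝ) 1)) (hn : 0 < ∫ x in (0:ℝ)..1, z x ^ 2)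
    (hR : ∀ x ∈ Icc (0:ℝ) 1, |r x| ≤ R)
    (hh : ∀ x ∈ Icc (0:ℝ) 1, HasDerivWithinAt h (- (z x) + r x) (Icc (0:ℝ) 1) x)
    (hh0 : h 0 = 0) :
    ∀ x ∈ Icc (0:ℝ) 1, |h x| ≤ Real.sqrt (∫ x in (0:ℝ)..1, z x ^ 2) + R := by
  intro x hx
  have h0 : (0:ℝ) ∈ Icc (0:ℝ) 1 := ⟨le_rfl, zero_le_one⟩
  have hz2 : ContinuousOn (fun x => z x ^ 2) (Icc (0:ℝ) 1) := hz.pow 2
  set n2 := ∫ x in (0:ℝ)..1, z x ^ 2 with hn2
  set n := Real.sqrt n2 with hndef
  have hnpos : 0 < n := Real.sqrt_pos.mpr hn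
  have hnn : n * n = n2 := Real.mul_self_sqrt hn.le
  have hg : ContinuousOn (fun x => - (z x) + r x) (Icc (0:ℝ) 1) := hz.neg.add hr
  have hftc : ∫ y in (0:ℝ)..x, (- (z y) + r y) = h x - h 0 := by
    apply intervalIntegral.integral_eq_sub_of_hasDerivAt_of_le hx.1
    · intro y hy
      exact ((hh y ⟨hy.1, hy.2.trans hx.2⟩).continuousWithinAt).mono
        (fun w hw => ⟨hw.1, hw.2.trans hx.2⟩)
    · intro y hy
      exact (hh y ⟨hy.1.le, hy.2.le.trans hx.2⟩).hasDerivAt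
        (Icc_mem_nhds hy.1 (hy.2.trans_le hx.2))
    · exact P2_ii hg h0 hx
  rw [hh0, sub_zero] at hftc
  rw [← hftc]
  set q : ℝ → ℝ := fun y => (1 / (2 * n)) * z y ^ 2 + (n / 2 + R) with hq
  have hqc : ContinuousOn q (Icc (0:ℝ) 1) := (hz2.const_mul _).add continuousOn_const
  have hR0 : 0 ≤ R := (abs_nonneg _).trans (hR 0 h0)
  have hle : ∀ y ∈ Icc (0:ℝ) 1, |(- (z y) + r y)| ≤ q y := by
    intro y hy
    have a1 : |(- (z y) + r y)| ≤ |z y| + |r y| := by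
      have := abs_add_le (-(z y)) (r y)
      rwa [abs_neg] at this
    have a2 : |z y| ≤ (1 / (2 * n)) * z y ^ 2 + n / 2 := by
      have a3 : (1 / (2 * n)) * z y ^ 2 + n / 2 - |z y| = (|z y| - n) ^ 2 / (2 * n) := by
        rw [← sq_abs (z y)]
        field_simp
        ring
      have a4 : 0 ≤ (|z y| - n) ^ 2 / (2 * n) := by positivity
      linarith
    have a5 := hR y hy
    simp only [hq]
    linarith
  have hq0 : ∀ y ∈ Icc (0:ℝ) 1, 0 ≤ q y := fun y hy => (abs_nonneg _).trans (hle y hy)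
  have b1 : |∫ y in (0:ℝ)..x, (- (z y) + r y)| ≤ ∫ y in (0:ℝ)..x, |(- (z y) + r y)| :=
    intervalIntegral.abs_integral_le_integral_abs hx.1
  have b2 : ∫ y in (0:ℝ)..x, |(- (z y) + r y)| ≤ ∫ y in (0:ℝ)..x, q y := by
    apply intervalIntegral.integral_mono_on hx.1 (P2_ii hg.abs h0 hx) (P2_ii hqc h0 hx)
    intro y hy
    exact hle y ⟨hy.1, hy.2.trans hx.2⟩
  have b3 := (P2_part hqc hq0 hx).2
  have b4 : ∫ y in (0:ℝ)..1, q y = n + R := by
    simp only [hq]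
    rw [intervalIntegral.integral_add (P2_ii01 (hz2.const_mul _)) intervalIntegrable_const,
      intervalIntegral.integral_const_mul, intervalIntegral.integral_const, ← hn2, ← hnn]
    simp only [sub_zero, one_smul]
    field_simp
    ring
  linarith

/-- the elementary inequalities -/
theorem P2_num {d dj M θ h r c n n2 E α s : ℝ} (hd : 0 < d) (hdj : 0 < dj)
    (hα : α = d / dj) (hαs : α = 1 - s) (hs0 : 0 < s) (hs1 : s < 1) (hθ : 0 < θ) (hθM : θ ≤ M)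
    (hn : 0 < n) (hn2 : n * n = n2) (hnt : n2 ≤ M / d) (hE : 1 ≤ E) (hME : n ≤ M / d)
    (hEt : 1 + M / d ≤ E) (hcond : 25 * M * s * E ^ 8 ≤ d) (hc : d * n2 ≤ E ^ 2 * c)
    (hr : |r| ≤ α * E ^ 2 * n2) (hh : |h| ≤ n + α * E ^ 2 * n2) :
    |θ - θ * Real.exp (s * h)| ≤ θ / 4 ∧
    2 * (θ - θ * Real.exp (s * h)) ^ 2 ≤ s * (c - s * dj * r ^ 2) * (θ * Real.exp (s * h)) ∧
    0 < s * (c - s * dj * r ^ 2) * (θ * Real.exp (s * h)) := by
  have hα0 : 0 < α := by rw [hα]; positivity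
  have hα1 : α ≤ 1 := by linarith
  have hn20 : 0 < n2 := by rw [← hn2]; positivity
  have hE0 : 0 < E := by linarith
  have hM0 : 0 < M := hθ.trans_le hθM
  set t : ℝ := M / d with ht
  have ht0 : 0 < t := by positivity
  have hMt : M = t * d := by rw [ht]; field_simp
  -- `25 s t E^8 ≤ 1`
  have hst : 25 * s * t * E ^ 8 ≤ 1 := by
    have h1 : 25 * s * t * E ^ 8 * d ≤ 1 * d := by
      calc 25 * s * t * E ^ 8 * d = 25 * M * s * E ^ 8 := by rw [hMt]; ring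
        _ ≤ 1 * d := by linarith
    exact le_of_mul_le_mul_right h1 hd
  -- bound of `h`
  have hH : |h| ≤ n * E ^ 3 := by
    refine hh.trans ?_
    have h1 : α * E ^ 2 * n2 ≤ 1 * E ^ 2 * n2 := by
      apply mul_le_mul_of_nonneg_right _ hn20.le
      exact mul_le_mul_of_nonneg_right hα1 (by positivity)
    have h2 : 1 * E ^ 2 * n2 ≤ E ^ 2 * (n * t) := by
      rw [← hn2, one_mul]
      exact mul_le_mul_of_nonneg_left (mul_le_mul_of_nonneg_left hME hn.le) (by positivity)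
    have h3 : n * E ^ 2 * (1 + t) ≤ n * E ^ 2 * E :=
      mul_le_mul_of_nonneg_left hEt (by positivity)
    have h4 : n * 1 ≤ n * E ^ 2 := mul_le_mul_of_nonneg_left (one_le_pow₀ hE) hn.le
    have h5 : n * E ^ 2 * (1 + t) = n * E ^ 2 + E ^ 2 * (n * t) := by ring
    have h6 : n * E ^ 2 * E = n * E ^ 3 := by ring
    linarith
  have hw2 : (s * h) ^ 2 ≤ s ^ 2 * (n2 * E ^ 6) := by
    have h1 : h ^ 2 ≤ (n * E ^ 3) ^ 2 := by
      rw [← sq_abs h]
      exact pow_le_pow_left₀ (abs_nonneg h) hH 2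
    have h2 : (n * E ^ 3) ^ 2 = n2 * E ^ 6 := by rw [← hn2]; ring
    rw [h2] at h1
    have h3 := mul_le_mul_of_nonneg_left h1 (sq_nonneg s)
    linarith [mul_pow s h 2]
  have hE68 : E ^ 6 ≤ E ^ 8 := pow_le_pow_right₀ hE (by norm_num)
  have hn2E : n2 * E ^ 6 ≤ t * E ^ 8 :=
    mul_le_mul hnt hE68 (by positivity) ht0.le
  have hw25 : (s * h) ^ 2 ≤ 1 / 25 := by
    have h1 : s ^ 2 * (n2 * E ^ 6) ≤ s ^ 2 * (t * E ^ 8) :=
      mul_le_mul_of_nonneg_left hn2E (sq_nonneg s)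
    have h2 : s ^ 2 * (t * E ^ 8) ≤ s * (t * E ^ 8) := by
      apply mul_le_mul_of_nonneg_right _ (by positivity)
      nlinarith
    linarith
  have hw5 : |s * h| ≤ 1 / 5 := by
    apply abs_le_of_sq_le_sq _ (by norm_num)
    calc (s * h) ^ 2 ≤ 1 / 25 := hw25
      _ = (1 / 5) ^ 2 := by norm_num
  have hexp : |Real.exp (s * h) - 1| ≤ 6 / 5 * |s * h| := by
    have h1 : |Real.exp (s * h) - 1 - s * h| ≤ (s * h) ^ 2 :=
      Real.abs_exp_sub_one_sub_id_le (by linarith)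
    have h2 : |Real.exp (s * h) - 1| ≤ |Real.exp (s * h) - 1 - s * h| + |s * h| := by
      have := abs_add_le (Real.exp (s * h) - 1 - s * h) (s * h)
      rwa [sub_add_cancel] at this
    have h3 : (s * h) ^ 2 ≤ 1 / 5 * |s * h| := by
      rw [← sq_abs, pow_two]
      exact mul_le_mul_of_nonneg_right hw5 (abs_nonneg _)
    linarith
  have hdiff : |θ - θ * Real.exp (s * h)| ≤ 6 / 5 * θ * |s * h| := by
    have h1 : θ - θ * Real.exp (s * h) = -(θ * (Real.exp (s * h) - 1)) := by ring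
    rw [h1, abs_neg, abs_mul, abs_of_pos hθ]
    have h2 := mul_le_mul_of_nonneg_left hexp hθ.le
    linarith
  have hclose : |θ - θ * Real.exp (s * h)| ≤ θ / 4 := by
    refine hdiff.trans ?_
    have h1 : 6 / 5 * θ * |s * h| ≤ 6 / 5 * θ * (1 / 5) :=
      mul_le_mul_of_nonneg_left hw5 (by positivity)
    linarith
  have hψ : 3 / 4 * θ ≤ θ * Real.exp (s * h) := by
    have := (abs_le.mp hclose).2
    linarith
  -- the coefficient
  have hdr : s * dj * r ^ 2 ≤ c / 2 := by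
    have h1 : r ^ 2 ≤ (α * E ^ 2 * n2) ^ 2 := by
      rw [← sq_abs r]
      exact pow_le_pow_left₀ (abs_nonneg r) hr 2
    have h2 : dj * (α * E ^ 2 * n2) ^ 2 = d * (α * (E ^ 4 * n2 ^ 2)) := by
      have : dj * α = d := by rw [hα]; field_simp
      calc dj * (α * E ^ 2 * n2) ^ 2 = (dj * α) * (α * (E ^ 4 * n2 ^ 2)) := by ring
        _ = d * (α * (E ^ 4 * n2 ^ 2)) := by rw [this]
    have h3 : α * (E ^ 4 * n2 ^ 2) ≤ 1 * (E ^ 4 * n2 ^ 2) :=
      mul_le_mul_of_nonneg_right hα1 (by positivity)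
    have h4 : s * dj * r ^ 2 ≤ s * d * (E ^ 4 * n2 ^ 2) := by
      have h5 := mul_le_mul_of_nonneg_left h1 (mul_pos hs0 hdj).le
      have h6 := mul_le_mul_of_nonneg_left h3 (mul_pos hs0 hd).le
      calc s * dj * r ^ 2 ≤ s * dj * (α * E ^ 2 * n2) ^ 2 := h5
        _ = s * (dj * (α * E ^ 2 * n2) ^ 2) := by ring
        _ = s * d * (α * (E ^ 4 * n2 ^ 2)) := by rw [h2]; ring
        _ ≤ s * d * (E ^ 4 * n2 ^ 2) := by linarith
    -- multiply by `E^2`
    have h7 : E ^ 2 * (s * d * (E ^ 4 * n2 ^ 2)) ≤ E ^ 2 * (c / 2) := by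
      have h8 : E ^ 2 * (s * d * (E ^ 4 * n2 ^ 2)) = d * n2 * (s * (n2 * E ^ 6)) := by ring
      have h9 : s * (n2 * E ^ 6) ≤ s * (t * E ^ 8) := mul_le_mul_of_nonneg_left hn2E hs0.le
      have h10 : s * (n2 * E ^ 6) ≤ 1 / 2 := by linarith
      have h11 : d * n2 * (s * (n2 * E ^ 6)) ≤ d * n2 * (1 / 2) :=
        mul_le_mul_of_nonneg_left h10 (by positivity)
      rw [h8]
      linarith
    exact h4.trans (le_of_mul_le_mul_left h7 (by positivity))
  have hc0 : 0 < c := by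
    have h1 : 0 < E ^ 2 * c := lt_of_lt_of_le (by positivity) hc
    exact (mul_pos_iff_of_pos_left (by positivity)).mp h1
  have hgap : s * (c / 2) * (3 / 4 * θ) ≤
      s * (c - s * dj * r ^ 2) * (θ * Real.exp (s * h)) := by
    have h1 : s * (c / 2) ≤ s * (c - s * dj * r ^ 2) :=
      mul_le_mul_of_nonneg_left (by linarith) hs0.le
    exact mul_le_mul h1 hψ (by positivity) (le_trans (by positivity) h1)
  refine ⟨hclose, ?_, lt_of_lt_of_le (by positivity) hgap⟩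
  refine le_trans ?_ hgap
  have h1 : (θ - θ * Real.exp (s * h)) ^ 2 ≤ (6 / 5 * θ * |s * h|) ^ 2 := by
    rw [← sq_abs (θ - θ * Real.exp (s * h))]
    exact pow_le_pow_left₀ (abs_nonneg _) hdiff 2
  have h2 : (6 / 5 * θ * |s * h|) ^ 2 = 36 / 25 * θ ^ 2 * (s * h) ^ 2 := by
    rw [mul_pow, sq_abs]; ring
  have h3 : 36 / 25 * θ ^ 2 * (s * h) ^ 2 ≤ 36 / 25 * θ ^ 2 * (s ^ 2 * (n2 * E ^ 6)) :=
    mul_le_mul_of_nonneg_left hw2 (by positivity)
  have h4 : 2 * (θ - θ * Real.exp (s * h)) ^ 2 ≤ 72 / 25 * θ ^ 2 * (s ^ 2 * (n2 * E ^ 6)) := by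
    linarith
  refine h4.trans ?_
  have h5 : E ^ 2 * (72 / 25 * θ ^ 2 * (s ^ 2 * (n2 * E ^ 6))) ≤
      E ^ 2 * (s * (c / 2) * (3 / 4 * θ)) := by
    have e1 : E ^ 2 * (72 / 25 * θ ^ 2 * (s ^ 2 * (n2 * E ^ 6))) =
        s * θ * n2 * (72 / 25 * (θ * s * E ^ 8)) := by ring
    have e2 : E ^ 2 * (s * (c / 2) * (3 / 4 * θ)) = s * θ * (3 / 8) * (E ^ 2 * c) := by ring
    rw [e1, e2]
    have h6 : θ * (s * E ^ 8) ≤ M * (s * E ^ 8) :=
      mul_le_mul_of_nonneg_right hθM (by positivity)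
    have h7 : 72 / 25 * (θ * s * E ^ 8) ≤ 3 / 8 * d := by linarith
    have h8 : s * θ * n2 * (72 / 25 * (θ * s * E ^ 8)) ≤ s * θ * n2 * (3 / 8 * d) :=
      mul_le_mul_of_nonneg_left h7 (by positivity)
    have h9 : s * θ * (3 / 8) * (d * n2) ≤ s * θ * (3 / 8) * (E ^ 2 * c) :=
      mul_le_mul_of_nonneg_left hc (by positivity)
    linarith
  exact le_of_mul_le_mul_left h5 (by positivity)

/-- admissible weights exist if `25 M (1 - d/dj) exp(8 M/d) ≤ d` -/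
theorem exists_wgt {d dj M : ℝ} {m θ θ' θ'' : ℝ → ℝ} (hd : 0 < d) (hdj : d < dj)
    (hm : ContinuousOn m (Icc (0:ℝ) 1)) (h : Steady d m θ θ' θ'')
    (hnc : ∃ x ∈ Icc (0:ℝ) 1, ∃ y ∈ Icc (0:ℝ) 1, m x ≠ m y)
    (hM : ∀ x ∈ Icc (0:ℝ) 1, m x ≤ M) (hint : 0 ≤ ∫ x in (0:ℝ)..1, m x)
    (hcond : 25 * M * (1 - d / dj) * Real.exp (8 * M / d) ≤ d) :
    ∃ ψ ψ' ψ'' : ℝ → ℝ, Wgt dj m θ ψ ψ' ψ'' := by
  have h0 : (0:ℝ) ∈ Icc (0:ℝ) 1 := ⟨le_rfl, zero_le_one⟩
  have hdj0 : 0 < dj := hd.trans hdj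
  have hθM := theta_le_max hd h hM
  obtain ⟨hz1, hz2, hz3⟩ := theta_z_bounds hd hm h hM hint
  have hz4 := theta_z_pos hd hm h hnc
  obtain ⟨r, hh, ψ, ψ', ψ'', c, h1, h2, h3, h4, h5, h6, h7, h8, h9, h10, h11, h12⟩ :=
    exists_psi hd hdj hm h
  have hM0 : 0 < M := (h.pos 0 h0).trans_le (hθM 0 h0)
  have hθc : ContinuousOn θ (Icc (0:ℝ) 1) := fun x hx => (h.d1 x hx).continuousWithinAt
  have hθc' : ContinuousOn θ' (Icc (0:ℝ) 1) := fun x hx => (h.d2 x hx).continuousWithinAt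
  have hzc : ContinuousOn (fun x => θ' x / θ x) (Icc (0:ℝ) 1) :=
    hθc'.div hθc (fun x hx => (h.pos x hx).ne')
  have hpc : ContinuousOn (fun x => Real.exp (2 * (d / dj) * Real.log (θ x))) (Icc (0:ℝ) 1) :=
    Real.continuous_exp.comp_continuousOn
      ((hθc.log (fun x hx => (h.pos x hx).ne')).const_mul _)
  have hα1 : d / dj < 1 := (div_lt_one hdj0).mpr hdj
  have hα0 : 0 < d / dj := by positivity
  have ht0 : 0 < M / d := by positivity
  set E := Real.exp (M / d) with hE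
  have hE1 : 1 + M / d ≤ E := by
    have := Real.add_one_le_exp (M / d)
    linarith
  have hE2 : Real.exp (2 * (M / d)) = E ^ 2 := by
    rw [hE, ← Real.exp_nat_mul]; norm_num
  have hE8 : Real.exp (8 * M / d) = E ^ 8 := by
    rw [hE, ← Real.exp_nat_mul]
    congr 1
    push_cast
    ring
  rw [hE8] at hcond
  have hE0 : 0 < E := Real.exp_pos _
  obtain ⟨hc1, hr1⟩ := P2_cr (K := E ^ 2) hd hdj0 (by positivity) hpc hzc
    (fun x _ => Real.exp_pos _) (fun x hx y hy => by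
      rw [← hE2, ← Real.exp_add]
      apply Real.exp_le_exp.mpr
      have a1 := (abs_le.mp (hz3 x hx y hy)).2
      have a2 : d / dj * (Real.log (θ x) - Real.log (θ y)) ≤ d / dj * (M / d) :=
        mul_le_mul_of_nonneg_left a1 hα0.le
      have a3 : d / dj * (M / d) ≤ 1 * (M / d) := mul_le_mul_of_nonneg_right hα1.le ht0.le
      linarith) h10 h11
  set n2 := ∫ x in (0:ℝ)..1, (θ' x / θ x) ^ 2 with hn2def
  set n := Real.sqrt n2 with hndef
  have hn0 : 0 < n := Real.sqrt_pos.mpr hz4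
  have hnn : n * n = n2 := Real.mul_self_sqrt hz4.le
  have hnt : n ≤ M / d := by
    rw [hndef]
    apply Real.sqrt_le_iff.mpr
    refine ⟨ht0.le, ?_⟩
    have a1 := P2_mono (f := fun x => (θ' x / θ x) ^ 2) (g := fun _ => (M / d) ^ 2)
      (hzc.pow 2) continuousOn_const (fun x hx => by
        rw [← sq_abs]
        exact pow_le_pow_left₀ (abs_nonneg _) (hz1 x hx) 2)
    rw [intervalIntegral.integral_const] at a1
    simpa using a1
  have hhb := P2_h hzc h7 hz4 hr1 h8 h9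
  have key : ∀ x ∈ Icc (0:ℝ) 1, |θ x - ψ x| ≤ θ x / 4 ∧
      2 * (θ x - ψ x) ^ 2 ≤ -(dj * ψ'' x + (m x - θ x) * ψ x) ∧
      0 < -(dj * ψ'' x + (m x - θ x) * ψ x) := by
    intro x hx
    rw [h12 x hx, h6 x hx]
    exact P2_num (M := M) (n := n) (n2 := n2) (E := E) (α := d / dj) hd hdj0 rfl (by ring)
      (by linarith) (by linarith) (h.pos x hx) (hθM x hx) hn0 hnn hz2 (by linarith) hnt hE1
      hcond hc1 (hr1 x hx) (hhb x hx)
  refine ⟨ψ, ψ', ψ'', h1, h2, h3, h4, h5, ?_, fun x hx => (key x hx).1,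
    fun x hx => (key x hx).2.1, fun x hx => (key x hx).2.2⟩
  intro x hx
  rw [h6 x hx]
  exact mul_pos (h.pos x hx) (Real.exp_pos _)

end Pool.Agent.Lib.MP_d8ef8f_an
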