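import Pool.Agent.Lib.MP_d8ef8f_an.L1
import Pool.Agent.Lib.MP_d8ef8f_an.R3

namespace Pool.Agent.Lib.MP_d8ef8f_an

open Set Filter Topology MeasureTheory

/-- a function of `x` only, continuous on `[0,1]`, is continuous on `T × [0,1]` -/
private theorem U1_lift {T : Set ℝ} {f : ℝ → ℝ} (hf : ContinuousOn f (Icc (0:ℝ) 1)) :
    ContinuousOn (fun p : ℝ × ℝ => f p.2) (T ×ˢ Icc (0:ℝ) 1) :=
  hf.comp continuous_snd.continuousOn (fun _ hp => hp.2)

/-- uniqueness of the positive steady state -/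
theorem steady_unique {d : ℝ} {m θ η : ℝ → ℝ} (hd : 0 < d) (hm : ContinuousOn m (Icc (0:ℝ) 1))
    (hθ : IsSteady d m θ) (hη : IsSteady d m η) : ∀ x ∈ Icc (0:ℝ) 1, η x = θ x := by
  obtain ⟨θ', θ'', sθ⟩ := hθ
  obtain ⟨η', η'', sη⟩ := hη
  have cθ : ContinuousOn θ (Icc (0:ℝ) 1) := fun x hx => (sθ.d1 x hx).continuousWithinAt
  have cη : ContinuousOn η (Icc (0:ℝ) 1) := fun x hx => (sη.d1 x hx).continuousWithinAt
  have cη' : ContinuousOn η' (Icc (0:ℝ) 1) := fun x hx => (sη.d2 x hx).continuousWithinAt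
  have eqη'' : ∀ x ∈ Icc (0:ℝ) 1, η'' x = - (η x * (m x - η x)) / d := by
    intro x hx
    have := sη.eq x hx
    field_simp
    linarith
  have cη'' : ContinuousOn η'' (Icc (0:ℝ) 1) := by
    have h1 : ContinuousOn (fun x => - (η x * (m x - η x)) / d) (Icc (0:ℝ) 1) :=
      ((cη.mul (hm.sub cη)).neg).div_const _
    exact h1.congr eqη''
  have hs : IsSol (ι := Unit) (fun _ => d) m univ (fun _ _ x => η x) (fun _ _ _ => 0)
      (fun _ _ x => η' x) (fun _ _ x => η'' x) := by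
    refine ⟨fun _ => U1_lift cη, fun _ => continuousOn_const, fun _ => U1_lift cη',
      fun _ => U1_lift cη'', fun _ t _ x _ => hasDerivAt_const t (η x),
      fun _ _ _ x hx => sη.d1 x hx, fun _ _ _ x hx => sη.d2 x hx, fun _ _ _ => sη.bc0,
      fun _ _ _ => sη.bc1, fun _ _ _ x hx => (sη.pos x hx).le, fun _ _ _ x hx => ?_⟩
    have h := sη.eq x hx
    simp only [Finset.univ_unique, Finset.sum_singleton]
    exact h.symm
  have key := ent_deriv (ι := Unit) () (d := fun _ => d) hd isOpen_univ hm hs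
    (fun _ _ _ x hx => sη.pos x hx) sθ 0 (mem_univ _)
  have h0 : HasDerivAt (fun _ : ℝ => ent θ η) 0 (0:ℝ) := hasDerivAt_const _ _
  have h1 := key.unique h0
  simp only [Finset.univ_unique, Finset.sum_singleton] at h1
  have h2 : 0 ≤ gradDiss θ θ' η η' := by
    unfold gradDiss
    exact intervalIntegral.integral_nonneg zero_le_one (fun x _ => by positivity)
  have h3 : (∫ x in (0:ℝ)..1, θ x * (η x - θ x) * (η x - θ x)) ≤ 0 := by
    nlinarith [mul_nonneg hd.le h2]
  intro c hc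
  by_contra hne
  have h4 : 0 < ∫ x in (0:ℝ)..1, θ x * (η x - θ x) * (η x - θ x) := by
    refine intervalIntegral.integral_pos zero_lt_one ((cθ.mul (cη.sub cθ)).mul (cη.sub cθ))
      (fun x hx => ?_) ⟨c, hc, ?_⟩
    · have h5 := sθ.pos x ⟨hx.1.le, hx.2⟩
      rw [mul_assoc]
      exact mul_nonneg h5.le (mul_self_nonneg _)
    · have h5 := sθ.pos c hc
      rw [mul_assoc]
      exact mul_pos h5 (mul_self_pos.2 (sub_ne_zero.2 hne))
  linarith

end Pool.Agent.Lib.MP_d8ef8f_an
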