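import Pool.Agent.Lib.MP_d8ef8f_an.R1
import Pool.Agent.Lib.MP_d8ef8f_an.R2
import Pool.Agent.Lib.MP_d8ef8f_an.R3
import Pool.Agent.Lib.MP_d8ef8f_an.V.F1
import Pool.Agent.Lib.MP_d8ef8f_an.V.F2
import Pool.Agent.Lib.MP_d8ef8f_an.V.P2
import Pool.Agent.Lib.MP_d8ef8f_an.V.E4
import Pool.Agent.Lib.MP_d8ef8f_an.V.U1

namespace Pool.Agent.Lib.MP_d8ef8f_an

open Set Filter Topology MeasureTheory

theorem mainv_isSol_mono {ι : Type} [Fintype ι] {d : ι → ℝ} {m : ℝ → ℝ} {T T' : Set ℝ}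
    {u ut ux uxx : ι → ℝ → ℝ → ℝ} (hs : IsSol d m T u ut ux uxx) (h : T' ⊆ T) :
    IsSol d m T' u ut ux uxx where
  c0 j := (hs.c0 j).mono (prod_mono_left h)
  ct j := (hs.ct j).mono (prod_mono_left h)
  cx j := (hs.cx j).mono (prod_mono_left h)
  cxx j := (hs.cxx j).mono (prod_mono_left h)
  dt j t ht := hs.dt j t (h ht)
  dx j t ht := hs.dx j t (h ht)
  dxx j t ht := hs.dxx j t (h ht)
  bc0 j t ht := hs.bc0 j t (h ht)
  bc1 j t ht := hs.bc1 j t (h ht)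
  nonneg j t ht := hs.nonneg j t (h ht)
  eq j t ht := hs.eq j t (h ht)

theorem mainv_eqm_castSucc {N : ℕ} (θ : Fin N → ℝ → ℝ) (k j : Fin N) (x : ℝ) :
    Eqm θ k.castSucc j x = if j = k then θ j x else 0 := by
  unfold Eqm
  by_cases h : j = k
  · subst h; simp
  · have h' : ¬ ((j : ℕ) = (k.castSucc : ℕ)) := by
      intro hh
      exact h (Fin.ext hh)
    rw [if_neg h, if_neg h']

theorem mainv_eqm_last {N : ℕ} (θ : Fin N → ℝ → ℝ) (j : Fin N) (x : ℝ) :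
    Eqm θ (Fin.last N) j x = 0 := by
  unfold Eqm
  have h' : ¬ ((j : ℕ) = (Fin.last N : ℕ)) := by
    have := j.isLt
    simp only [Fin.val_last]
    omega
  rw [if_neg h']

theorem mainv_transfer {N : ℕ} {θ : Fin N → ℝ → ℝ} {l : Filter ℝ} {u : Fin N → ℝ → ℝ → ℝ}
    {P : Fin N → Prop} (hvan : ∀ j, ¬ P j → ∀ᶠ t in l, ∀ x ∈ Icc (0:ℝ) 1, u j t x = 0)
    (k : {j // P j})
    (h : ConvTo l (fun j : {j // P j} => u j) (fun j x => if j = k then θ k x else 0)) :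
    ConvTo l u (Eqm θ (k : Fin N).castSucc) := by
  intro ε hε
  have h1 := h ε hε
  have h2 : ∀ᶠ t in l, ∀ j, ¬ P j → ∀ x ∈ Icc (0:ℝ) 1, u j t x = 0 := by
    rw [eventually_all]
    intro j
    by_cases hj : P j
    · exact Eventually.of_forall fun t hnj => absurd hj hnj
    · filter_upwards [hvan j hj] with t ht _
      exact ht
  filter_upwards [h1, h2] with t ht1 ht2 j x hx
  rw [mainv_eqm_castSucc]
  by_cases hj : P j
  · have h3 := ht1 ⟨j, hj⟩ x hx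
    by_cases hjk : j = (k : Fin N)
    · have h4 : (⟨j, hj⟩ : {j // P j}) = k := Subtype.ext hjk
      simp only [h4, if_true] at h3
      rw [if_pos hjk]
      subst hjk
      exact h3
    · have h4 : (⟨j, hj⟩ : {j // P j}) ≠ k := fun hh => hjk (congrArg Subtype.val hh)
      simp only [h4, if_false] at h3
      rw [if_neg hjk]
      exact h3
  · have h3 : j ≠ (k : Fin N) := fun hh => hj (hh ▸ k.2)
    rw [if_neg h3, ht2 j hj x hx]
    simpa using hε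

theorem mainv_transfer_zero {N : ℕ} {θ : Fin N → ℝ → ℝ} {l : Filter ℝ} {u : Fin N → ℝ → ℝ → ℝ}
    {P : Fin N → Prop} (hvan : ∀ j, ¬ P j → ∀ᶠ t in l, ∀ x ∈ Icc (0:ℝ) 1, u j t x = 0)
    (h : ConvTo l (fun j : {j // P j} => u j) (fun _ _ => 0)) :
    ConvTo l u (Eqm θ (Fin.last N)) := by
  intro ε hε
  have h1 := h ε hε
  have h2 : ∀ᶠ t in l, ∀ j, ¬ P j → ∀ x ∈ Icc (0:ℝ) 1, u j t x = 0 := by
    rw [eventually_all]
    intro j
    by_cases hj : P j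
    · exact Eventually.of_forall fun t hnj => absurd hj hnj
    · filter_upwards [hvan j hj] with t ht _
      exact ht
  filter_upwards [h1, h2] with t ht1 ht2 j x hx
  rw [mainv_eqm_last]
  by_cases hj : P j
  · exact ht1 ⟨j, hj⟩ x hx
  · rw [ht2 j hj x hx]
    simpa using hε

/-- bound of a continuous function -/
theorem mainv_bound {m : ℝ → ℝ} (hm : ContinuousOn m (Icc (0:ℝ) 1)) :
    ∃ B : ℝ, 0 < B ∧ ∀ x ∈ Icc (0:ℝ) 1, |m x| ≤ B := by
  obtain ⟨B0, hB0⟩ := (isCompact_Icc (a := (0:ℝ)) (b := 1)).exists_bound_of_continuousOn hm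
  refine ⟨|B0| + 1, by positivity, fun x hx => ?_⟩
  have h1 := hB0 x hx
  rw [Real.norm_eq_abs] at h1
  have h2 := le_abs_self B0
  linarith

/-- restriction of the data to a subset of the species -/
theorem mainv_data {m : ℝ → ℝ} (hm : ContinuousOn m (Icc (0:ℝ) 1)) {N : ℕ} {d : Fin N → ℝ}
    (hmono : StrictMono d) (hd : ∀ i, 0 < d i) {θ θ' θ'' : Fin N → ℝ → ℝ}
    (hθ : ∀ i, Steady (d i) m (θ i) (θ' i) (θ'' i)) {ψ ψ' ψ'' : Fin N → Fin N → ℝ → ℝ}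
    (hw : ∀ k j : Fin N, k < j → Wgt (d j) m (θ k) (ψ k j) (ψ' k j) (ψ'' k j))
    {B : ℝ} (hB0 : 0 < B) (hB : ∀ x ∈ Icc (0:ℝ) 1, |m x| ≤ B) (P : Fin N → Prop) [DecidablePred P] :
    Data2 (ι := {j // P j}) (fun j => d j) m (fun j => θ j) (fun j => θ' j) (fun j => θ'' j)
      (fun k j => ψ k j) (fun k j => ψ' k j) (fun k j => ψ'' k j) B where
  hm := hm
  hB0 := hB0
  hB := hB
  mono := fun a b hab => hmono hab
  dpos := fun j => hd j
  st := fun k => hθ k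
  wt := fun k j hkj => hw k j hkj

/-- forward trajectories -/
theorem mainv_forward {m : ℝ → ℝ} (hm : ContinuousOn m (Icc (0:ℝ) 1)) {N : ℕ} {d : Fin N → ℝ}
    (hmono : StrictMono d) (hd : ∀ i, 0 < d i) {θ θ' θ'' : Fin N → ℝ → ℝ}
    (hθ : ∀ i, Steady (d i) m (θ i) (θ' i) (θ'' i)) {ψ ψ' ψ'' : Fin N → Fin N → ℝ → ℝ}
    (hw : ∀ k j : Fin N, k < j → Wgt (d j) m (θ k) (ψ k j) (ψ' k j) (ψ'' k j))
    {u : Fin N → ℝ → ℝ → ℝ} (hu : Forward d m u) :
    ((∀ j, ∀ x ∈ Icc (0:ℝ) 1, u j 0 x = 0) → ConvTo atTop u (Eqm θ (Fin.last N))) ∧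
    ∀ i : Fin N, (∀ j, j < i → ∀ x ∈ Icc (0:ℝ) 1, u j 0 x = 0) →
      (∃ x ∈ Icc (0:ℝ) 1, u i 0 x ≠ 0) → ConvTo atTop u (Eqm θ i.castSucc) := by
  classical
  obtain ⟨B, hB0, hB⟩ := mainv_bound hm
  have hvan : ∀ j, (∀ x ∈ Icc (0:ℝ) 1, u j 0 x = 0) → ∀ t ≥ 0, ∀ x ∈ Icc (0:ℝ) 1, u j t x = 0 :=
    fun j => (forward_dichotomy hd hm hu j).1
  have hpos : ∀ j, (∃ x ∈ Icc (0:ℝ) 1, u j 0 x ≠ 0) → ∀ t > 0, ∀ x ∈ Icc (0:ℝ) 1, 0 < u j t x :=
    fun j => (forward_dichotomy hd hm hu j).2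
  constructor
  · intro h0 ε hε
    filter_upwards [eventually_ge_atTop (0:ℝ)] with t ht j x hx
    rw [mainv_eqm_last, hvan j (h0 j) t ht x hx]
    simpa using hε
  · intro i hi hi0
    obtain ⟨⟨ut, ux, uxx, hs⟩, -, -⟩ := hu
    set P : Fin N → Prop := fun j => ∃ x ∈ Icc (0:ℝ) 1, u j 0 x ≠ 0 with hPdef
    have hnP : ∀ j, ¬ P j → ∀ x ∈ Icc (0:ℝ) 1, u j 0 x = 0 := by
      intro j hj x hx
      by_contra hc
      exact hj ⟨x, hx, hc⟩
    have hs' := isSol_restrict hs P (fun j hj t ht x hx => hvan j (hnP j hj) t (le_of_lt ht) x hx)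
    have H := mainv_data hm hmono hd hθ hw hB0 hB P
    have hcore := forward_core2 H hs' (fun j t ht x hx => hpos j j.2 t ht x hx) ⟨i, hi0⟩ (by
      intro j
      by_contra hc
      have hlt : (j : Fin N) < i := not_le.mp hc
      obtain ⟨x, hx, hne⟩ := j.2
      exact hne (hi j hlt x hx))
    exact mainv_transfer (k := ⟨i, hi0⟩) (fun j hj => by
      filter_upwards [eventually_ge_atTop (0:ℝ)] with t ht x hx
      exact hvan j (hnP j hj) t ht x hx) hcore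

/-- entire trajectories -/
theorem mainv_entire {m : ℝ → ℝ} (hm : ContinuousOn m (Icc (0:ℝ) 1)) {N : ℕ} {d : Fin N → ℝ}
    (hmono : StrictMono d) (hd : ∀ i, 0 < d i) {θ θ' θ'' : Fin N → ℝ → ℝ}
    (hθ : ∀ i, Steady (d i) m (θ i) (θ' i) (θ'' i)) {ψ ψ' ψ'' : Fin N → Fin N → ℝ → ℝ}
    (hw : ∀ k j : Fin N, k < j → Wgt (d j) m (θ k) (ψ k j) (ψ' k j) (ψ'' k j))
    {u : Fin N → ℝ → ℝ → ℝ} (hu : Entire d m u) :
    (∃ i, ∀ t j, ∀ x ∈ Icc (0:ℝ) 1, u j t x = Eqm θ i j x) ∨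
    ∃ i i', i < i' ∧ ConvTo atTop u (Eqm θ i) ∧ ConvTo atBot u (Eqm θ i') := by
  classical
  obtain ⟨B, hB0, hB⟩ := mainv_bound hm
  have hdich := entire_dichotomy hd hm hu
  by_cases hnone : ∀ j, ∀ t, ∀ x ∈ Icc (0:ℝ) 1, u j t x = 0
  · left
    refine ⟨Fin.last N, fun t j x hx => ?_⟩
    rw [mainv_eqm_last, hnone j t x hx]
  · obtain ⟨⟨ut, ux, uxx, hs⟩, K, hK⟩ := hu
    set P : Fin N → Prop := fun j => ∀ t, ∀ x ∈ Icc (0:ℝ) 1, 0 < u j t x with hPdef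
    have hnP : ∀ j, ¬ P j → ∀ t, ∀ x ∈ Icc (0:ℝ) 1, u j t x = 0 := by
      intro j hj
      rcases hdich j with h | h
      · exact h
      · exact absurd h hj
    have hexP : ∃ j, P j := by
      by_contra hc
      push Not at hc
      exact hnone (fun j => hnP j (hc j))
    have hs' := isSol_restrict hs P (fun j hj t _ x hx => hnP j hj t x hx)
    have H := mainv_data hm hmono hd hθ hw hB0 hB P
    have hposs : ∀ j : {j // P j}, ∀ t ∈ (univ : Set ℝ), ∀ x ∈ Icc (0:ℝ) 1, 0 < u j t x :=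
      fun j t _ x hx => j.2 t x hx
    have : Nonempty {j // P j} := by
      obtain ⟨j, hj⟩ := hexP
      exact ⟨⟨j, hj⟩⟩
    obtain ⟨k0, -, hk0⟩ := Finset.exists_min_image (Finset.univ : Finset {j // P j}) id
      Finset.univ_nonempty
    have hk0' : ∀ j : {j // P j}, k0 ≤ j := fun j => hk0 j (Finset.mem_univ j)
    have hvanTop : ∀ j, ¬ P j → ∀ᶠ t in (atTop : Filter ℝ), ∀ x ∈ Icc (0:ℝ) 1, u j t x = 0 :=
      fun j hj => Eventually.of_forall fun t x hx => hnP j hj t x hx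
    have hvanBot : ∀ j, ¬ P j → ∀ᶠ t in (atBot : Filter ℝ), ∀ x ∈ Icc (0:ℝ) 1, u j t x = 0 :=
      fun j hj => Eventually.of_forall fun t x hx => hnP j hj t x hx
    have hfor : ConvTo atTop u (Eqm θ (k0 : Fin N).castSucc) :=
      mainv_transfer (θ := θ) (k := k0) hvanTop
        (forward_core2 H (mainv_isSol_mono hs' (subset_univ (Ioi (0:ℝ))))
          (fun j t _ x hx => hposs j t (mem_univ t) x hx) k0 hk0')
    rcases backward_core2 (K := K) H hs' hposs (fun j t x hx => hK j t x hx) with hz | ⟨k, hk, hleast⟩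
    · right
      exact ⟨(k0 : Fin N).castSucc, Fin.last N, Fin.castSucc_lt_last _, hfor,
        mainv_transfer_zero (θ := θ) hvanBot hz⟩
    · by_cases hkk : ∀ j, k ≤ j
      · left
        obtain ⟨hall, heq⟩ := hleast hkk
        refine ⟨(k : Fin N).castSucc, fun t j x hx => ?_⟩
        rw [mainv_eqm_castSucc]
        by_cases hj : P j
        · have h1 : (⟨j, hj⟩ : {j // P j}) = k := hall ⟨j, hj⟩
          have h2 : j = (k : Fin N) := congrArg Subtype.val h1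
          rw [if_pos h2]
          subst h2
          exact heq t x hx
        · have h3 : j ≠ (k : Fin N) := fun hh => hj (hh ▸ k.2)
          rw [if_neg h3]
          exact hnP j hj t x hx
      · right
        have hlt : k0 < k := by
          rcases lt_or_eq_of_le (hk0' k) with h | h
          · exact h
          · exact absurd (h ▸ hk0') hkk
        refine ⟨(k0 : Fin N).castSucc, (k : Fin N).castSucc, ?_, hfor,
          mainv_transfer (θ := θ) hvanBot k hk⟩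
        exact Fin.castSucc_lt_castSucc_iff.mpr hlt

/-- general criterion: admissible weights for all pairs give the Morse decomposition -/
theorem morse_of_weights {m : ℝ → ℝ} (hm : ContinuousOn m (Icc (0:ℝ) 1)) {N : ℕ} {d : Fin N → ℝ}
    (hmono : StrictMono d) (hd : ∀ i, 0 < d i) {θ : Fin N → ℝ → ℝ}
    (hθ : ∀ i, IsSteady (d i) m (θ i))
    (hw : ∀ k j : Fin N, k < j → ∃ ψ ψ' ψ'' : ℝ → ℝ, Wgt (d j) m (θ k) ψ ψ' ψ'') :
    IsMorse d m (Eqm θ) := by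
  classical
  have hθ2 := hθ
  choose θ' θ'' hst using hθ2
  have hw' : ∀ k j : Fin N, ∃ ψ ψ' ψ'' : ℝ → ℝ, k < j → Wgt (d j) m (θ k) ψ ψ' ψ'' := by
    intro k j
    by_cases hkj : k < j
    · obtain ⟨ψ, ψ', ψ'', h⟩ := hw k j hkj
      exact ⟨ψ, ψ', ψ'', fun _ => h⟩
    · exact ⟨fun _ => 0, fun _ => 0, fun _ => 0, fun h => absurd h hkj⟩
  choose ψ ψ' ψ'' hψ using hw'
  refine { equil := fun i => eqm_entire hm hd hθ i, disj := fun i i' h => eqm_ne hθ i i' h,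
           conv := ?_, conn := fun u hu => mainv_entire hm hmono hd hst hψ hu }
  intro u hu
  by_cases hnone : ∀ j, ∀ x ∈ Icc (0:ℝ) 1, u j 0 x = 0
  · exact ⟨Fin.last N, (mainv_forward hm hmono hd hst hψ hu).1 hnone⟩
  · have hne : {j : Fin N | ¬ ∀ x ∈ Icc (0:ℝ) 1, u j 0 x = 0}.Nonempty := by
      obtain ⟨j, hj⟩ := not_forall.mp hnone
      exact ⟨j, hj⟩
    set k : Fin N := WellFounded.min (wellFounded_lt : WellFounded ((· < ·) : Fin N → Fin N → Prop)) _ hne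
    have hk : ¬ ∀ x ∈ Icc (0:ℝ) 1, u k 0 x = 0 :=
      WellFounded.min_mem (wellFounded_lt : WellFounded ((· < ·) : Fin N → Fin N → Prop)) _ hne
    have hless : ∀ j, j < k → ∀ x ∈ Icc (0:ℝ) 1, u j 0 x = 0 := by
      intro j hj
      by_contra hc
      exact WellFounded.not_lt_min (wellFounded_lt : WellFounded ((· < ·) : Fin N → Fin N → Prop)) _ hc hj
    refine ⟨k.castSucc, (mainv_forward hm hmono hd hst hψ hu).2 k hless ?_⟩
    push Not at hk
    exact hk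

theorem morse_main2 (m : ℝ → ℝ) (hm : ContinuousOn m (Icc (0:ℝ) 1))
    (hnc : ∃ x ∈ Icc (0:ℝ) 1, ∃ y ∈ Icc (0:ℝ) 1, m x ≠ m y)
    (hint : 0 ≤ ∫ x in (0:ℝ)..1, m x) (M : ℝ) (hM : ∀ x ∈ Icc (0:ℝ) 1, m x ≤ M)
    (N : ℕ) (d : Fin N → ℝ) (hd : ∀ i, 0 < d i) (hmono : StrictMono d)
    (hcond : ∀ i j, i < j → 25 * M * (1 - d i / d j) * Real.exp (8 * M / d i) ≤ d i) :
    ∃ θ : Fin N → ℝ → ℝ,
      (∀ i, IsSteady (d i) m (θ i) ∧
        ∀ η, IsSteady (d i) m η → ∀ x ∈ Icc (0:ℝ) 1, η x = θ i x) ∧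
      IsMorse d m (Eqm θ) := by
  have hex : ∀ i, ∃ θ, IsSteady (d i) m θ := fun i => exists_steady (hd i) hm hnc hint
  choose θ hθ using hex
  refine ⟨θ, fun i => ⟨hθ i, fun η hη => steady_unique (hd i) hm (hθ i) hη⟩, ?_⟩
  refine morse_of_weights hm hmono hd hθ (fun k j hkj => ?_)
  obtain ⟨θ', θ'', hst⟩ := hθ k
  exact exists_wgt (hd k) (hmono hkj) hm hst hnc hM hint (hcond k j hkj)

end Pool.Agent.Lib.MP_d8ef8f_an
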