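import Pool.Agent.Lib.MP_d8ef8f_an.Defs

namespace Pool.Agent.Lib.MP_d8ef8f_an

open Set Filter Topology MeasureTheory

/-- an admissible weight `ψ` for the pair (base rate `dk` with steady state `θ`, faster rate `dj`) -/
structure Wgt (dj : ℝ) (m θ ψ ψ' ψ'' : ℝ → ℝ) : Prop where
  d1 : ∀ x ∈ Icc (0:ℝ) 1, HasDerivWithinAt ψ (ψ' x) (Icc (0:ℝ) 1) x
  d2 : ∀ x ∈ Icc (0:ℝ) 1, HasDerivWithinAt ψ' (ψ'' x) (Icc (0:ℝ) 1) x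
  cont : ContinuousOn ψ'' (Icc (0:ℝ) 1)
  bc0 : ψ' 0 = 0
  bc1 : ψ' 1 = 0
  pos : ∀ x ∈ Icc (0:ℝ) 1, 0 < ψ x
  close : ∀ x ∈ Icc (0:ℝ) 1, |θ x - ψ x| ≤ θ x / 4
  gap : ∀ x ∈ Icc (0:ℝ) 1, 2 * (θ x - ψ x) ^ 2 ≤ -(dj * ψ'' x + (m x - θ x) * ψ x)
  gpos : ∀ x ∈ Icc (0:ℝ) 1, 0 < -(dj * ψ'' x + (m x - θ x) * ψ x)

/-- standing assumptions, version 2 -/
structure Data2 {ι : Type} [Fintype ι] [LinearOrder ι] (d : ι → ℝ) (m : ℝ → ℝ)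
    (θ θ' θ'' : ι → ℝ → ℝ) (ψ ψ' ψ'' : ι → ι → ℝ → ℝ) (B : ℝ) : Prop where
  hm : ContinuousOn m (Icc (0:ℝ) 1)
  hB0 : 0 < B
  hB : ∀ x ∈ Icc (0:ℝ) 1, |m x| ≤ B
  mono : StrictMono d
  dpos : ∀ j, 0 < d j
  st : ∀ k, Steady (d k) m (θ k) (θ' k) (θ'' k)
  wt : ∀ k j, k < j → Wgt (d j) m (θ k) (ψ k j) (ψ' k j) (ψ'' k j)

/-- bounds on the state at time `t`, version 2 -/
def Tame2 {ι : Type} [Fintype ι] (u : ι → ℝ → ℝ → ℝ) (B ρ t : ℝ) : Prop :=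
  (∑ j, mass u j t ≤ 2 * B) ∧ ∀ j, rat u j t ≤ ρ

/-- the Lyapunov functional with base species `k` and weights `ψ j`, `j > k` -/
noncomputable def Lam2 {ι : Type} [Fintype ι] [LinearOrder ι] (θ : ℝ → ℝ) (ψ : ι → ℝ → ℝ) (k : ι)
    (v : ι → ℝ → ℝ) : ℝ :=
  ent θ (v k) + ∑ j ∈ Finset.univ.filter (fun j => k < j), ∫ x in (0:ℝ)..1, ψ j x * v j x

/-- the time derivative of `Lam2` -/
noncomputable def LamD2 {ι : Type} [Fintype ι] [LinearOrder ι] (d : ι → ℝ) (m θ θ' : ℝ → ℝ)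
    (ψ ψ'' : ι → ℝ → ℝ) (k : ι) (v v' : ι → ℝ → ℝ) : ℝ :=
  - d k * gradDiss θ θ' (v k) (v' k)
  - (∫ x in (0:ℝ)..1, θ x * (v k x - θ x) * ((∑ i, v i x) - θ x))
  + ∑ j ∈ Finset.univ.filter (fun j => k < j),
    ((∫ x in (0:ℝ)..1, (d j * ψ'' j x + (m x - θ x) * ψ j x) * v j x)
      - ∫ x in (0:ℝ)..1, ψ j x * v j x * ((∑ i, v i x) - θ x))

end Pool.Agent.Lib.MP_d8ef8f_an
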