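import Pool.Agent.Lib.MP_d8ef8f_an.Defs
import Pool.Agent.Lib.MP_d8ef8f_an.V.Setup

namespace Pool.Agent.Lib.MP_d8ef8f_an

open Set Filter Topology MeasureTheory

theorem P1_ftc {g : ℝ → ℝ} (hg : ContinuousOn g (Icc (0:ℝ) 1)) :
    ∀ x ∈ Icc (0:ℝ) 1,
      HasDerivWithinAt (fun x => ∫ y in (0:ℝ)..x, g y) (g x) (Icc (0:ℝ) 1) x := by
  intro x hx
  set G : ℝ → ℝ := IccExtend (zero_le_one' ℝ) (fun t : Icc (0:ℝ) 1 => g t) with hGdef
  have hG : Continuous G := (continuousOn_iff_continuous_restrict.1 hg).Icc_extend'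
  have hGg : ∀ y ∈ Icc (0:ℝ) 1, G y = g y := by
    intro y hy
    rw [hGdef, IccExtend_of_mem _ _ hy]
  have h1 := (hG.integral_hasStrictDerivAt 0 x).hasDerivAt.hasDerivWithinAt (s := Icc (0:ℝ) 1)
  rw [hGg x hx] at h1
  have h2 : ∀ y ∈ Icc (0:ℝ) 1, ∫ t in (0:ℝ)..y, g t = ∫ t in (0:ℝ)..y, G t := by
    intro y hy
    refine intervalIntegral.integral_congr fun t ht => ?_
    rw [uIcc_of_le hy.1] at ht
    exact (hGg t ⟨ht.1, ht.2.trans hy.2⟩).symm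
  exact h1.congr h2 (h2 x hx)

/-- the explicit weight: with `z = θ'/θ`, `α = d/dj`, `s = 1 - α`, `p = θ^(2α)`,
`c = d ∫ p z² / ∫ p`, `r = (1/(dj p)) ∫₀ˣ p (d z² - c)`, `h = ∫₀ˣ (-z + r)`, `ψ = θ exp(s h)` one has
`-(dj ψ'' + (m - θ) ψ) = s (c - s dj r²) ψ`; here everything is stated with abstract bounds -/
theorem exists_psi {d dj : ℝ} {m θ θ' θ'' : ℝ → ℝ} (hd : 0 < d) (hdj : d < dj)
    (hm : ContinuousOn m (Icc (0:ℝ) 1)) (h : Steady d m θ θ' θ'') :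
    ∃ (r h ψ ψ' ψ'' : ℝ → ℝ) (c : ℝ),
      (∀ x ∈ Icc (0:ℝ) 1, HasDerivWithinAt ψ (ψ' x) (Icc (0:ℝ) 1) x) ∧
      (∀ x ∈ Icc (0:ℝ) 1, HasDerivWithinAt ψ' (ψ'' x) (Icc (0:ℝ) 1) x) ∧
      ContinuousOn ψ'' (Icc (0:ℝ) 1) ∧ ψ' 0 = 0 ∧ ψ' 1 = 0 ∧
      (∀ x ∈ Icc (0:ℝ) 1, ψ x = θ x * Real.exp ((1 - d / dj) * h x)) ∧
      ContinuousOn r (Icc (0:ℝ) 1) ∧
      (∀ x ∈ Icc (0:ℝ) 1, HasDerivWithinAt h (- (θ' x / θ x) + r x) (Icc (0:ℝ) 1) x) ∧
      h 0 = 0 ∧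
      c * (∫ x in (0:ℝ)..1, Real.exp (2 * (d / dj) * Real.log (θ x))) =
        d * (∫ x in (0:ℝ)..1, Real.exp (2 * (d / dj) * Real.log (θ x)) * (θ' x / θ x) ^ 2) ∧
      (∀ x ∈ Icc (0:ℝ) 1, dj * Real.exp (2 * (d / dj) * Real.log (θ x)) * r x =
        ∫ y in (0:ℝ)..x, Real.exp (2 * (d / dj) * Real.log (θ y)) * (d * (θ' y / θ y) ^ 2 - c)) ∧
      (∀ x ∈ Icc (0:ℝ) 1, -(dj * ψ'' x + (m x - θ x) * ψ x) =
        (1 - d / dj) * (c - (1 - d / dj) * dj * r x ^ 2) * ψ x) := by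
  have hdj0 : 0 < dj := hd.trans hdj
  have hθc : ContinuousOn θ (Icc (0:ℝ) 1) := fun x hx => (h.d1 x hx).continuousWithinAt
  have hθ'c : ContinuousOn θ' (Icc (0:ℝ) 1) := fun x hx => (h.d2 x hx).continuousWithinAt
  have hne : ∀ x ∈ Icc (0:ℝ) 1, θ x ≠ 0 := fun x hx => (h.pos x hx).ne'
  set α : ℝ := d / dj with hα
  have hαdj : dj * α = d := by
    rw [hα]
    field_simp
  -- the logarithmic derivative
  obtain ⟨z, hz⟩ : ∃ z : ℝ → ℝ, ∀ x, z x = θ' x / θ x := ⟨fun x => θ' x / θ x, fun _ => rfl⟩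
  have hzc : ContinuousOn z (Icc (0:ℝ) 1) :=
    (hθ'c.div hθc hne).congr fun x _ => hz x
  have hzd : ∀ x ∈ Icc (0:ℝ) 1,
      HasDerivWithinAt z (-(m x - θ x) / d - z x ^ 2) (Icc (0:ℝ) 1) x := by
    intro x hx
    have h1 := (h.d2 x hx).div (h.d1 x hx) (hne x hx)
    have h2 : (θ'' x * θ x - θ' x * θ' x) / θ x ^ 2 = -(m x - θ x) / d - z x ^ 2 := by
      have h3 := h.eq x hx
      have h4 : θ'' x = -(θ x * (m x - θ x)) / d := by
        rw [eq_div_iff hd.ne']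
        linarith
      rw [hz x, h4]
      have h5 := hne x hx
      field_simp
    rw [h2] at h1
    exact h1.congr (fun y _ => hz y) (hz x)
  -- the weight
  obtain ⟨p, hp⟩ : ∃ p : ℝ → ℝ, ∀ x, p x = Real.exp (2 * α * Real.log (θ x)) := ⟨_, fun _ => rfl⟩
  have hp0 : ∀ x, 0 < p x := fun x => by
    rw [hp]
    exact Real.exp_pos _
  have hpd : ∀ x ∈ Icc (0:ℝ) 1, HasDerivWithinAt p (p x * (2 * α * z x)) (Icc (0:ℝ) 1) x := by
    intro x hx
    have h1 := (((h.d1 x hx).log (hne x hx)).const_mul (2 * α)).exp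
    rw [← hp x, ← hz x] at h1
    exact h1.congr (fun y _ => hp y) (hp x)
  have hpc : ContinuousOn p (Icc (0:ℝ) 1) := fun x hx => (hpd x hx).continuousWithinAt
  have hIp : 0 < ∫ x in (0:ℝ)..1, p x := by
    refine intervalIntegral.intervalIntegral_pos_of_pos_on ?_ (fun x _ => hp0 x) zero_lt_one
    exact (hpc.mono (by rw [uIcc_of_le zero_le_one])).intervalIntegrable
  obtain ⟨c, hc⟩ : ∃ c : ℝ, c * (∫ x in (0:ℝ)..1, p x) = d * ∫ x in (0:ℝ)..1, p x * z x ^ 2 :=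
    ⟨(d * ∫ x in (0:ℝ)..1, p x * z x ^ 2) / (∫ x in (0:ℝ)..1, p x), by field_simp⟩
  -- the primitive
  have hgc : ContinuousOn (fun x => p x * (d * z x ^ 2 - c)) (Icc (0:ℝ) 1) :=
    hpc.mul ((continuousOn_const.mul (hzc.pow 2)).sub continuousOn_const)
  obtain ⟨R, hR⟩ : ∃ R : ℝ → ℝ, ∀ x, R x = ∫ y in (0:ℝ)..x, p y * (d * z y ^ 2 - c) :=
    ⟨_, fun _ => rfl⟩
  have hRd : ∀ x ∈ Icc (0:ℝ) 1,
      HasDerivWithinAt R (p x * (d * z x ^ 2 - c)) (Icc (0:ℝ) 1) x := fun x hx =>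
    (P1_ftc hgc x hx).congr (fun y _ => hR y) (hR x)
  have hR0 : R 0 = 0 := by
    rw [hR, intervalIntegral.integral_same]
  have hR1 : R 1 = 0 := by
    have i1 : IntervalIntegrable (fun x => p x) volume 0 1 :=
      (hpc.mono (by rw [uIcc_of_le zero_le_one])).intervalIntegrable
    have i2 : IntervalIntegrable (fun x => p x * z x ^ 2) volume 0 1 :=
      ((hpc.mul (hzc.pow 2)).mono (by rw [uIcc_of_le zero_le_one])).intervalIntegrable
    have e : ∀ x, p x * (d * z x ^ 2 - c) = d * (p x * z x ^ 2) - c * p x := fun x => by ring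
    rw [hR]
    simp only [e]
    rw [intervalIntegral.integral_sub (i2.const_mul d) (i1.const_mul c),
      intervalIntegral.integral_const_mul, intervalIntegral.integral_const_mul, hc, sub_self]
  -- r
  obtain ⟨r, hr⟩ : ∃ r : ℝ → ℝ, ∀ x, r x = R x / (dj * p x) := ⟨_, fun _ => rfl⟩
  have hrd : ∀ x ∈ Icc (0:ℝ) 1, HasDerivWithinAt r
      ((d * z x ^ 2 - c) / dj - 2 * α * z x * r x) (Icc (0:ℝ) 1) x := by
    intro x hx
    have hpx := (hp0 x).ne'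
    have h1 := (hRd x hx).div ((hpd x hx).const_mul dj) (mul_ne_zero hdj0.ne' hpx)
    have h2 : (p x * (d * z x ^ 2 - c) * (dj * p x) - R x * (dj * (p x * (2 * α * z x)))) /
        (dj * p x) ^ 2 = (d * z x ^ 2 - c) / dj - 2 * α * z x * r x := by
      rw [hr x]
      field_simp
    rw [h2] at h1
    exact h1.congr (fun y _ => hr y) (hr x)
  have hrc : ContinuousOn r (Icc (0:ℝ) 1) := fun x hx => (hrd x hx).continuousWithinAt
  -- h
  have hkc : ContinuousOn (fun x => -z x + r x) (Icc (0:ℝ) 1) := hzc.neg.add hrc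
  obtain ⟨k, hk⟩ : ∃ k : ℝ → ℝ, ∀ x, k x = ∫ y in (0:ℝ)..x, (-z y + r y) := ⟨_, fun _ => rfl⟩
  have hkd : ∀ x ∈ Icc (0:ℝ) 1, HasDerivWithinAt k (-z x + r x) (Icc (0:ℝ) 1) x := fun x hx =>
    (P1_ftc hkc x hx).congr (fun y _ => hk y) (hk x)
  -- psi
  obtain ⟨ψ, hψ⟩ : ∃ ψ : ℝ → ℝ, ∀ x, ψ x = θ x * Real.exp ((1 - α) * k x) := ⟨_, fun _ => rfl⟩
  obtain ⟨w, hw⟩ : ∃ w : ℝ → ℝ, ∀ x, w x = α * z x + (1 - α) * r x := ⟨_, fun _ => rfl⟩
  have hψd : ∀ x ∈ Icc (0:ℝ) 1, HasDerivWithinAt ψ (ψ x * w x) (Icc (0:ℝ) 1) x := by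
    intro x hx
    have h1 := (h.d1 x hx).mul ((hkd x hx).const_mul (1 - α)).exp
    have h2 : θ' x * Real.exp ((1 - α) * k x) + θ x * (Real.exp ((1 - α) * k x) *
        ((1 - α) * (-z x + r x))) = ψ x * w x := by
      have h3 : θ' x = θ x * z x := by
        rw [hz x]
        field_simp [hne x hx]
      rw [hψ x, hw x, h3]
      ring
    rw [h2] at h1
    exact h1.congr (fun y _ => hψ y) (hψ x)
  have hwd : ∀ x ∈ Icc (0:ℝ) 1, HasDerivWithinAt w (α * (-(m x - θ x) / d - z x ^ 2) +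
      (1 - α) * ((d * z x ^ 2 - c) / dj - 2 * α * z x * r x)) (Icc (0:ℝ) 1) x := fun x hx =>
    (((hzd x hx).const_mul α).add ((hrd x hx).const_mul (1 - α))).congr (fun y _ => hw y) (hw x)
  have hψc : ContinuousOn ψ (Icc (0:ℝ) 1) := fun x hx => (hψd x hx).continuousWithinAt
  have hwc : ContinuousOn w (Icc (0:ℝ) 1) := fun x hx => (hwd x hx).continuousWithinAt
  refine ⟨r, k, ψ, fun x => ψ x * w x, fun x => ψ x * w x * w x + ψ x *
    (α * (-(m x - θ x) / d - z x ^ 2) +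
      (1 - α) * ((d * z x ^ 2 - c) / dj - 2 * α * z x * r x)), c, hψd, ?_, ?_, ?_, ?_,
      fun x _ => hψ x, hrc, ?_, ?_, ?_, ?_, ?_⟩
  · intro x hx
    exact (hψd x hx).mul (hwd x hx)
  · refine ((hψc.mul hwc).mul hwc).add (hψc.mul ((continuousOn_const.mul
      (((hm.sub hθc).neg.div_const d).sub (hzc.pow 2))).add (continuousOn_const.mul
      ((((continuousOn_const.mul (hzc.pow 2)).sub continuousOn_const).div_const dj).sub
        ((continuousOn_const.mul hzc).mul hrc)))))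
  · have h1 : w 0 = 0 := by
      rw [hw, hz, h.bc0, hr, hR0]
      simp
    simp only [h1, mul_zero]
  · have h1 : w 1 = 0 := by
      rw [hw, hz, h.bc1, hr, hR1]
      simp
    simp only [h1, mul_zero]
  · intro x hx
    rw [← hz x]
    exact hkd x hx
  · rw [hk, intervalIntegral.integral_same]
  · have e1 : (fun x => Real.exp (2 * α * Real.log (θ x))) = fun x => p x :=
      funext fun x => (hp x).symm
    have e2 : (fun x => Real.exp (2 * α * Real.log (θ x)) * (θ' x / θ x) ^ 2) =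
        fun x => p x * z x ^ 2 := funext fun x => by rw [hp x, hz x]
    rw [e1, e2]
    exact hc
  · intro x hx
    have e1 : (fun y => Real.exp (2 * α * Real.log (θ y)) * (d * (θ' y / θ y) ^ 2 - c)) =
        fun y => p y * (d * z y ^ 2 - c) := funext fun y => by rw [hp y, hz y]
    rw [e1, ← hR x, ← hp x, hr x]
    have hpx := (hp0 x).ne'
    field_simp
  · intro x hx
    simp only
    rw [hw x]
    have e : dj * (ψ x * (α * z x + (1 - α) * r x) * (α * z x + (1 - α) * r x) +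
        ψ x * (α * (-(m x - θ x) / d - z x ^ 2) +
          (1 - α) * ((d * z x ^ 2 - c) / dj - 2 * α * z x * r x))) =
        ψ x * ((dj * α) * α * z x ^ 2 + dj * (1 - α) ^ 2 * r x ^ 2 +
          (dj * α) * (-(m x - θ x) / d) - (dj * α) * z x ^ 2 +
          (1 - α) * (d * z x ^ 2 - c)) := by
      field_simp
      ring
    rw [e, hαdj]
    have e2 : d * (-(m x - θ x) / d) = -(m x - θ x) := by field_simp
    rw [e2]
    ring

end Pool.Agent.Lib.MP_d8ef8f_an
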