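import Pool.Agent.Lib.MP_d8ef8f_an.S1
import Pool.Agent.Lib.MP_d8ef8f_an.V.Setup

namespace Pool.Agent.Lib.MP_d8ef8f_an

open Set Filter Topology MeasureTheory

variable {ι : Type} [Fintype ι]

private theorem Q3_sl {T : Set ℝ} {g : ℝ → ℝ → ℝ}
    (h : ContinuousOn (fun p : ℝ × ℝ => g p.1 p.2) (T ×ˢ Icc (0:ℝ) 1)) {t : ℝ} (ht : t ∈ T) :
    ContinuousOn (g t) (Icc (0:ℝ) 1) := by
  have h1 : Continuous fun x : ℝ => ((t, x) : ℝ × ℝ) := by fun_prop
  exact h.comp h1.continuousOn fun x hx => ⟨ht, hx⟩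

private theorem Q3_int {f : ℝ → ℝ} (h : ContinuousOn f (Icc (0:ℝ) 1)) :
    IntervalIntegrable f volume 0 1 := h.intervalIntegrable_of_Icc zero_le_one

private theorem Q3_congr {f g : ℝ → ℝ} (h : ∀ x ∈ Icc (0:ℝ) 1, f x = g x) :
    ∫ x in (0:ℝ)..1, f x = ∫ x in (0:ℝ)..1, g x := by
  apply intervalIntegral.integral_congr
  intro x hx
  rw [uIcc_of_le zero_le_one] at hx
  exact h x hx

/-- derivative of the mass weighted by `ψ` -/
theorem psi_mass_deriv {d : ι → ℝ} {m : ℝ → ℝ} {T : Set ℝ} {u ut ux uxx : ι → ℝ → ℝ → ℝ}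
    {θ ψ ψ' ψ'' : ℝ → ℝ} (j : ι) (hT : IsOpen T) (hm : ContinuousOn m (Icc (0:ℝ) 1))
    (hs : IsSol d m T u ut ux uxx) (hθ : ContinuousOn θ (Icc (0:ℝ) 1))
    (hψ : Wgt (d j) m θ ψ ψ' ψ'') :
    ∀ t ∈ T, HasDerivAt (fun s => ∫ x in (0:ℝ)..1, ψ x * u j s x)
      ((∫ x in (0:ℝ)..1, (d j * ψ'' x + (m x - θ x) * ψ x) * u j t x)
      - ∫ x in (0:ℝ)..1, ψ x * u j t x * ((∑ i, u i t x) - θ x)) t := by
  intro t ht
  have hwc : ContinuousOn ψ (Icc (0:ℝ) 1) := fun x hx => (hψ.d1 x hx).continuousWithinAt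
  have hw1c : ContinuousOn ψ' (Icc (0:ℝ) 1) := fun x hx => (hψ.d2 x hx).continuousWithinAt
  have hw2c := hψ.cont
  have hu := Q3_sl (hs.c0 j) ht
  have hut := Q3_sl (hs.ct j) ht
  have hux := Q3_sl (hs.cx j) ht
  have huxx := Q3_sl (hs.cxx j) ht
  have hU : ContinuousOn (fun x => ∑ i, u i t x) (Icc (0:ℝ) 1) :=
    continuousOn_finsetSum _ fun i _ => Q3_sl (hs.c0 i) ht
  -- the time derivative
  have hc2 : ContinuousOn (fun p : ℝ × ℝ => ψ p.2) (T ×ˢ Icc (0:ℝ) 1) :=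
    hwc.comp continuous_snd.continuousOn fun p hp => hp.2
  have h1 := hasDerivAt_integral hT (fun t x => ψ x * u j t x)
    (fun t x => ψ x * ut j t x) (hc2.mul (hs.ct j))
    (fun t ht => hwc.mul (Q3_sl (hs.c0 j) ht))
    (fun t ht x hx => (hs.dt j t ht x hx).const_mul _) t ht
  -- integration by parts twice
  have h2 := parts_neumann ψ ψ' (ux j t) (uxx j t)
    hψ.d1 hw1c (hs.dxx j t ht) huxx (hs.bc0 j t ht) (hs.bc1 j t ht)
  have h3 := parts_neumann (u j t) (ux j t) ψ' ψ''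
    (hs.dx j t ht) hux hψ.d2 hw2c hψ.bc0 hψ.bc1
  have h4 : ∫ x in (0:ℝ)..1, ψ x * uxx j t x = ∫ x in (0:ℝ)..1, u j t x * ψ'' x := by
    rw [h2, h3]
    congr 1
    exact Q3_congr fun x _ => by ring
  have i1 : IntervalIntegrable (fun x => ψ x * uxx j t x) volume 0 1 :=
    Q3_int (hwc.mul huxx)
  have i2 : IntervalIntegrable (fun x => ψ x * u j t x * (m x - ∑ i, u i t x))
      volume 0 1 := Q3_int ((hwc.mul hu).mul (hm.sub hU))
  have i3 : IntervalIntegrable (fun x => (d j * ψ'' x + (m x - θ x) * ψ x) * u j t x) volume 0 1 :=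
    Q3_int (((continuousOn_const.mul hw2c).add ((hm.sub hθ).mul hwc)).mul hu)
  have i4 : IntervalIntegrable (fun x => ψ x * u j t x * ((∑ i, u i t x) - θ x))
      volume 0 1 := Q3_int ((hwc.mul hu).mul (hU.sub hθ))
  have i5 : IntervalIntegrable (fun x => u j t x * ψ'' x) volume 0 1 :=
    Q3_int (hu.mul hw2c)
  have h5 : ∫ x in (0:ℝ)..1, ψ x * ut j t x =
      d j * (∫ x in (0:ℝ)..1, ψ x * uxx j t x) +
        ∫ x in (0:ℝ)..1, ψ x * u j t x * (m x - ∑ i, u i t x) := by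
    rw [← intervalIntegral.integral_const_mul, ← intervalIntegral.integral_add
      (i1.const_mul _) i2]
    refine Q3_congr fun x hx => ?_
    rw [hs.eq j t ht x hx]
    ring
  have h6 : (∫ x in (0:ℝ)..1, (d j * ψ'' x + (m x - θ x) * ψ x) * u j t x)
      - (∫ x in (0:ℝ)..1, ψ x * u j t x * ((∑ i, u i t x) - θ x)) =
      ∫ x in (0:ℝ)..1, ψ x * ut j t x := by
    rw [h5, h4, ← intervalIntegral.integral_const_mul,
      ← intervalIntegral.integral_sub i3 i4,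
      ← intervalIntegral.integral_add (i5.const_mul _) i2]
    refine Q3_congr fun x hx => ?_
    ring
  rw [h6]
  exact h1

end Pool.Agent.Lib.MP_d8ef8f_an
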