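import Pool.Agent.Lib.MP_d8ef8f_an.L1
import Pool.Agent.Lib.MP_d8ef8f_an.V.Q3

namespace Pool.Agent.Lib.MP_d8ef8f_an

open Set Filter Topology MeasureTheory

variable {ι : Type} [Fintype ι] [LinearOrder ι]

/-- `LamD2` is the derivative of `Lam2` -/
theorem lam2_deriv {d : ι → ℝ} {m : ℝ → ℝ} {θ θ' θ'' : ι → ℝ → ℝ} {ψ ψ' ψ'' : ι → ι → ℝ → ℝ} {B : ℝ}
    (H : Data2 d m θ θ' θ'' ψ ψ' ψ'' B) {T : Set ℝ} {u ut ux uxx : ι → ℝ → ℝ → ℝ}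
    (hT : IsOpen T) (hs : IsSol d m T u ut ux uxx)
    (hpos : ∀ j, ∀ t ∈ T, ∀ x ∈ Icc (0:ℝ) 1, 0 < u j t x) (k : ι) :
    ∀ t ∈ T, HasDerivAt (fun s => Lam2 (θ k) (ψ k) k (fun j => u j s))
      (LamD2 d m (θ k) (θ' k) (ψ k) (ψ'' k) k (fun j => u j t) (fun j => ux j t)) t := by
  intro t ht
  have hθc : ContinuousOn (θ k) (Icc (0:ℝ) 1) := fun x hx => ((H.st k).d1 x hx).continuousWithinAt
  have h1 := ent_deriv k (H.dpos k) hT H.hm hs hpos (H.st k) t ht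
  have h2 : HasDerivAt (fun s => ∑ j ∈ Finset.univ.filter (fun j => k < j),
      ∫ x in (0:ℝ)..1, ψ k j x * u j s x)
      (∑ j ∈ Finset.univ.filter (fun j => k < j),
        ((∫ x in (0:ℝ)..1, (d j * ψ'' k j x + (m x - θ k x) * ψ k j x) * u j t x)
        - ∫ x in (0:ℝ)..1, ψ k j x * u j t x * ((∑ i, u i t x) - θ k x))) t :=
    HasDerivAt.fun_sum (fun j hj => psi_mass_deriv j hT H.hm hs hθc
      (H.wt k j (Finset.mem_filter.1 hj).2) t ht)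
  exact h1.add h2

end Pool.Agent.Lib.MP_d8ef8f_an
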